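import Pool.Agent.BisRu.Main

/-!
# Bipartite graphs with a spread fractional matching and bounded maximum degree: definitions

MP_29585b_lc. `G` has sides of sizes `a`, `b`, a fractional matching with weights at most `1 / D`
and total at least `min a b - c`, and all degrees are at most `κ * D`. The algorithm first computes
a maximum set `F` of edges with at most `D` edges at every vertex (augmenting paths).
-/

set_option autoImplicit false

namespace Pool.Agent.BisRf

open Finset Pool.Agent.BisTh Pool.Agent.BisRg Pool.Agent.BisRt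

/-- The algorithm with time bound `w ≥ 2 ^ k`, `k ≥ (a + b) * size κ / D + c`
(`Nat.size κ` is the number of binary digits of `κ`). -/
def Statement10 : Prop :=
  ∃ A : Bip × ℕ × ℕ → ℕ, Nonempty (Turing.TM2ComputableInPolyTime encInput₂ encNat A) ∧
    ∀ (G : Bip) (t w : ℕ), A (G, t, w) ≤ G.count ∧
      ∀ D c κ k : ℕ, 1 ≤ D → 1 ≤ κ → SpreadMatching G D c → (∀ i, G.degL i ≤ κ * D) →
        (∀ j, G.degR j ≤ κ * D) → Nat.size κ * (G.a + G.b) + D * c ≤ D * k → 2 ^ k ≤ w →
        t * (G.count - A (G, t, w)) ≤ G.count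

/-! ### The potential -/

/-- `fd` is a part of `adj` with degrees at most `D`; the degrees of `adj` are at most `κ D`. -/
def FReg (adj fd : ℕ → ℕ → Bool) (n D κ : ℕ) : Prop :=
  (∀ i j, fd i j = true → adj i j = true) ∧
  (∀ i < n, (nb fd (range n) i).card ≤ D ∧ (nb adj (range n) i).card ≤ κ * D) ∧
  ∀ j < n, (nb (tr fd) (range n) j).card ≤ D ∧ (nb (tr adj) (range n) j).card ≤ κ * D

/-- Inner cost of `i` (times `D`). -/
def cF (adj fd : ℕ → ℕ → Bool) (D : ℕ) (X Y : Finset ℕ) (i : ℕ) : ℕ :=
  ∑ j ∈ nb adj Y i, (D - (nb (tr fd) X j).card)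

/-- The slack. -/
noncomputable def sg (fd : ℕ → ℕ → Bool) (D m : ℕ) (X Y : Finset ℕ) : ℝ :=
  m + ((∑ i ∈ X, (nb fd Y i).card : ℕ) : ℝ) / D - ((X.card : ℝ) + Y.card)

/-- `Ff / (2 κ)`. -/
noncomputable def Fk (κ : ℕ) (x : ℝ) : ℝ := Ff x / (2 * κ)

/-- The sum of the functions `Fk` over the vertices of one side. -/
noncomputable def Sk (adj fd : ℕ → ℕ → Bool) (D κ : ℕ) (X Y : Finset ℕ) : ℝ :=
  ∑ i ∈ hi adj D X Y, Fk κ ((cF adj fd D X Y i : ℝ) / D)

/-- The potential. -/
noncomputable def Pk (adj fd : ℕ → ℕ → Bool) (D κ m : ℕ) (θ : ℝ) (X Y : Finset ℕ) : ℝ :=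
  -(θ * sg fd D m X Y) + (30 + 5 * (Nat.size κ : ℝ)) * (((X.card : ℝ) + Y.card) / D) +
    (Sk adj fd D κ X Y + Sk (tr adj) (tr fd) D κ Y X) / D

/-- The weight. -/
noncomputable def Wk (adj fd : ℕ → ℕ → Bool) (D κ m : ℕ) (θ : ℝ) (X Y : Finset ℕ) : ℝ :=
  Real.exp (Pk adj fd D κ m θ X Y)

/-! ### Maximum `D`-matchings -/

/-- The relation of a list of edges. -/
def aF (F : List (ℕ × ℕ)) (i j : ℕ) : Bool := F.any fun e => decide (e.1 = i) && decide (e.2 = j)

/-- Degree of a left vertex. -/
def dL (F : List (ℕ × ℕ)) (i : ℕ) : ℕ := (F.filter fun e => decide (e.1 = i)).length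

/-- Degree of a right vertex. -/
def dR (F : List (ℕ × ℕ)) (j : ℕ) : ℕ := (F.filter fun e => decide (e.2 = j)).length

/-- A record: right vertex, removed edges, added edges. -/
abbrev Rec : Type := ℕ × List (ℕ × ℕ) × List (ℕ × ℕ)

/-- The edges after the exchange of a record. -/
def exch (F : List (ℕ × ℕ)) (z : Rec) : List (ℕ × ℕ) :=
  z.2.2 ++ F.filter fun f => !(aF z.2.1 f.1 f.2)

/-- The right vertices with less than `D` edges. -/
def z0 (D : ℕ) (F : List (ℕ × ℕ)) (J : List ℕ) : List Rec :=
  (J.filter fun j => decide (dR F j < D)).map fun j => (j, [], [])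

/-- The possible new records. -/
def newr (E F : List (ℕ × ℕ)) (Z : List Rec) : List Rec :=
  F.flatMap fun e => cond (Z.any fun z => decide (z.1 = e.2)) []
    ((Z.filter fun z => aF E e.1 z.1 && !(aF F e.1 z.1)).map fun z =>
      (e.2, e :: z.2.1, (e.1, z.1) :: z.2.2))

/-- All records. -/
def zs (D : ℕ) (E F : List (ℕ × ℕ)) (J : List ℕ) : List Rec :=
  J.foldl (fun Z _ => Z ++ (newr E F Z).take 1) (z0 D F J)

/-- The possible augmentations. -/
def aug (D : ℕ) (E F : List (ℕ × ℕ)) (Z : List Rec) : List (List (ℕ × ℕ)) :=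
  E.flatMap fun e => cond (decide (dL F e.1 < D) && !(aF F e.1 e.2))
    ((Z.filter fun z => decide (z.1 = e.2)).map fun z => e :: exch F z) []

/-- One augmentation. -/
def fstep (D : ℕ) (E : List (ℕ × ℕ)) (J : List ℕ) (F : List (ℕ × ℕ)) : List (ℕ × ℕ) :=
  (aug D E F (zs D E F J)).headD F

/-- The edges. -/
def edgesL (B : Un) (R : List (List Bool)) : List (ℕ × ℕ) :=
  (List.range R.length).flatMap fun i =>
    ((List.range B.length).filter fun j => aj R i j).map fun j => (i, j)

/-- A maximum `D`-matching. -/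
def maxM (D : ℕ) (B : Un) (R : List (List Bool)) : List (ℕ × ℕ) :=
  (edgesL B R).foldl (fun F _ => fstep D (edgesL B R) (List.range B.length) F) []

/-! ### The algorithm -/

/-- A list of length `D` (if `D ≤ V.length`, `V = range`). -/
def dl (D : ℕ) (V : List ℕ) : List ℕ := V.filter fun t => decide (t < D)

/-- A list of length `D - m`. -/
def gap (D : ℕ) (V : List ℕ) (m : ℕ) : List ℕ := (dl D V).filter fun t => decide (m ≤ t)

/-- Inner cost of a left vertex. -/
def costL (D : ℕ) (V : List ℕ) (R : List (List Bool)) (F : List (ℕ × ℕ)) (s : SI) (i : ℕ) : ℕ :=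
  ((nbr R s.2 i).flatMap fun j => gap D V (s.1.filter fun i' => aF F i' j).length).length

/-- Inner cost of a right vertex. -/
def costR (D : ℕ) (V : List ℕ) (R : List (List Bool)) (F : List (ℕ × ℕ)) (s : SI) (j : ℕ) : ℕ :=
  ((nbl R s.1 j).flatMap fun i => gap D V (s.2.filter fun j' => aF F i j').length).length

/-- The candidates: side, vertex, inner cost. -/
def candsF (D : ℕ) (V : List ℕ) (R : List (List Bool)) (F : List (ℕ × ℕ)) (s : SI) :
    List (Bool × ℕ × ℕ) :=
  ((s.1.filter fun i => big D (nbr R s.2 i).length).map fun i =>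
    (false, i, costL D V R F s i)) ++
    (s.2.filter fun j => big D (nbl R s.1 j).length).map fun j => (true, j, costR D V R F s j)

/-- Number of edges of `F` in a state. -/
def eF (F : List (ℕ × ℕ)) (s : SI) : ℕ := (s.1.flatMap fun i => s.2.filter fun j => aF F i j).length

/-- The slack is small: `D M + e_F ≤ D (|X| + |Y|) + K`. -/
def keep (D K : ℕ) (V Ml : List ℕ) (F : List (ℕ × ℕ)) (s : SI) : Bool :=
  decide ((Ml.flatMap fun _ => dl D V).length + eF F s ≤
    ((s.1 ++ s.2).flatMap fun _ => dl D V).length + K)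

/-- One step. -/
def stepG (D K : ℕ) (V Ml : List ℕ) (R : List (List Bool)) (F : List (ℕ × ℕ)) (s : SI) : List SI :=
  cond (candsF D V R F s).isEmpty [s]
    ((kids R (best (candsF D V R F s)) s).filter fun s' => keep D K V Ml F s')

/-- All rounds (`V.length` of them); lists with more than `P.length` states are dropped. -/
def roundsG (D K : ℕ) (P : Un) (V Ml : List ℕ) (R : List (List Bool)) (F : List (ℕ × ℕ))
    (L : List SI) : List SI :=
  V.foldl (fun L _ =>
    cond (decide (L.length ≤ P.length)) (L.flatMap (stepG D K V Ml R F)) []) L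

/-- Bound for the number of states. -/
def capG (W T : Un) : Un := pw 7000 (W ++ W ++ T ++ T ++ [true, true, true])

/-- `3600 (bits w + bits t + 1)`. -/
def limG (W T : Un) : Un := rep 3600 (W.length.bits ++ T.length.bits ++ [true])

/-- The limit `D * limG`. -/
def limDG (D : ℕ) (W T : Un) (V : List ℕ) : ℕ := ((dl D V).flatMap fun _ => limG W T).length

/-- `range (a + b)`. -/
def vG (B : Un) (R : List (List Bool)) : List ℕ := List.range (un R ++ B).length

/-- A list of length `max a b`. -/
def mG (B : Un) (R : List (List Bool)) : List ℕ :=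
  cond (decide (R.length ≤ B.length)) (List.range B.length) (List.range R.length)

/-- The value for a fixed `D`. -/
def algGD (D : ℕ) (W T B : Un) (R : List (List Bool)) : ℕ :=
  tot (((roundsG D (limDG D W T (vG B R)) (capG W T) (vG B R) (mG B R) R (maxM D B R)
    [(List.range R.length, List.range B.length)]).map (toSt R)).flatMap
      (leafExp (bud (capG W T) (T ++ T))))

/-- The maximum over all `D ≤ a + b`. -/
def algG (W T B : Un) (R : List (List Bool)) : ℕ :=
  maxL ((List.range (true :: (un R ++ B)).length).map fun D => algGD D W T B R)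

/-- The whole algorithm. -/
def algH (W T B : Un) (R : List (List Bool)) : ℕ :=
  maxL [algG W T B R, algW (pw 135 W) T B R]

end Pool.Agent.BisRf
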