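import Pool.Agent.BisRf.Targets

/-!
# An augmentation

MP_29585b_lc.
-/

set_option autoImplicit false

namespace Pool.Agent.BisRf

open Finset Pool.Agent.PT Pool.Agent.BisTh Pool.Agent.BisRg Pool.Agent.BisRt

namespace AUG_

theorem aF_of_mem {F : List (ℕ × ℕ)} {e : ℕ × ℕ} (h : e ∈ F) : aF F e.1 e.2 = true := by
  unfold aF
  rw [List.any_eq_true]
  exact ⟨e, h, by simp⟩

theorem dL_cons (e : ℕ × ℕ) (L : List (ℕ × ℕ)) (i : ℕ) :
    dL (e :: L) i = dL L i + if e.1 = i then 1 else 0 := by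
  unfold dL
  by_cases h : e.1 = i <;> simp [h]

theorem dR_cons (e : ℕ × ℕ) (L : List (ℕ × ℕ)) (j : ℕ) :
    dR (e :: L) j = dR L j + if e.2 = j then 1 else 0 := by
  unfold dR
  by_cases h : e.2 = j <;> simp [h]

theorem mem_aug {D : ℕ} {E F : List (ℕ × ℕ)} {Z : List Rec} {F' : List (ℕ × ℕ)}
    (h : F' ∈ aug D E F Z) : ∃ e ∈ E, dL F e.1 < D ∧ aF F e.1 e.2 = false ∧
      ∃ z ∈ Z, z.1 = e.2 ∧ F' = e :: exch F z := by
  unfold aug at h
  rw [List.mem_flatMap] at h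
  obtain ⟨e, he, h⟩ := h
  cases hc : (decide (dL F e.1 < D) && !(aF F e.1 e.2)) with
  | false => rw [hc] at h; simp at h
  | true =>
    rw [hc, cond_true, List.mem_map] at h
    obtain ⟨z, hz, rfl⟩ := h
    rw [List.mem_filter, decide_eq_true_eq] at hz
    rw [Bool.and_eq_true, decide_eq_true_eq, Bool.not_eq_true'] at hc
    exact ⟨e, he, hc.1, hc.2, z, hz.1, hz.2, rfl⟩

end AUG_

/-- An augmentation. -/
theorem v_AUG (h_ZST : V_ZST) : V_AUG := by
  intro D E F J hJ hF hE F' hF'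
  obtain ⟨h1, -, -⟩ := h_ZST D E F J hJ hF hE
  obtain ⟨e, he, hd, ha, z, hz, hze, rfl⟩ := AUG_.mem_aug hF'
  obtain ⟨⟨-, ⟨hn, hm, hL, hR⟩, hlen, hdL, hdR, -, -, hadd⟩, -⟩ := h1 z hz
  have hne : e ∉ exch F z := by
    intro h
    unfold exch at h
    rw [List.mem_append] at h
    rcases h with h | h
    · exact (hadd e h).2.2 hze.symm
    · have h2 := AUG_.aF_of_mem (List.mem_filter.1 h).1
      rw [ha] at h2
      exact Bool.noConfusion h2
  refine ⟨⟨List.nodup_cons.2 ⟨hne, hn⟩, ?_, ?_, ?_⟩, ?_⟩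
  · intro x hx
    rcases List.mem_cons.1 hx with h | h
    · rw [h]
      exact he
    · exact hm x h
  · intro i
    rw [AUG_.dL_cons]
    by_cases h : e.1 = i
    · rw [if_pos h, hdL i, ← h]
      exact hd
    · rw [if_neg h]
      exact hL i
  · intro j
    rw [AUG_.dR_cons]
    by_cases h : e.2 = j
    · rw [if_pos h, ← h, ← hze]
      exact hdR
    · rw [if_neg h]
      exact hR j
  · rw [List.length_cons, hlen]

end Pool.Agent.BisRf
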