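import Pool.Agent.BisRf.Targets

/-!
# Target DPO of the project BisRf (MP_29585b_lc): the potential when a vertex is removed
-/

set_option autoImplicit false

namespace Pool.Agent.BisRf

open Finset Pool.Agent.PT Pool.Agent.BisTh Pool.Agent.BisRg Pool.Agent.BisRt

namespace DPO_

/-- the left side -/
theorem left (h_OUT : V_OUT) (h_FFF : V_FFF) (adj fd : ℕ → ℕ → Bool) (n D κ : ℕ)
    (hreg : FReg adj fd n D κ) (hD : 1 ≤ D) (hκ : 1 ≤ κ) (X Y : Finset ℕ)
    (hX : X ⊆ range n) (hY : Y ⊆ range n) (u : ℕ) (hu : u ∈ X) :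
    Sk adj fd D κ (X.erase u) Y + ∑ i ∈ (hi adj D X Y).erase u,
      (Fk κ ((cF adj fd D X Y i : ℝ) / D) -
        Fk κ ((cF adj fd D X Y i : ℝ) / D + ((nb adj Y i ∩ nb fd Y u).card : ℝ) / D)) ≤
      Sk adj fd D κ X Y := by
  obtain ⟨-, h2, -, -⟩ := h_OUT adj fd n D κ 0 hreg hD X Y hX hY u hu
  have e1 : hi adj D (X.erase u) Y = (hi adj D X Y).erase u := by
    ext i
    simp only [hi, mem_filter, mem_erase]
    tauto
  have e2 : Sk adj fd D κ (X.erase u) Y = ∑ i ∈ (hi adj D X Y).erase u,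
      Fk κ ((cF adj fd D X Y i : ℝ) / D + ((nb adj Y i ∩ nb fd Y u).card : ℝ) / D) := by
    unfold Sk
    rw [e1]
    refine Finset.sum_congr rfl fun i _ => ?_
    rw [h2 i]
    push_cast
    rw [add_div]
  rw [e2, ← Finset.sum_add_distrib]
  calc ∑ i ∈ (hi adj D X Y).erase u,
        (Fk κ ((cF adj fd D X Y i : ℝ) / D + ((nb adj Y i ∩ nb fd Y u).card : ℝ) / D) +
          (Fk κ ((cF adj fd D X Y i : ℝ) / D) -
            Fk κ ((cF adj fd D X Y i : ℝ) / D + ((nb adj Y i ∩ nb fd Y u).card : ℝ) / D)))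
      = ∑ i ∈ (hi adj D X Y).erase u, Fk κ ((cF adj fd D X Y i : ℝ) / D) :=
        Finset.sum_congr rfl fun i _ => by ring
    _ ≤ Sk adj fd D κ X Y := by
        unfold Sk
        exact Finset.sum_le_sum_of_subset_of_nonneg (Finset.erase_subset _ _)
          fun i _ _ => ((h_FFF κ hκ).1 _).le

/-- the right side -/
theorem right (h_REG : V_REG) (h_OUT : V_OUT) (h_FFF : V_FFF) (adj fd : ℕ → ℕ → Bool)
    (n D κ : ℕ) (hreg : FReg adj fd n D κ) (hD : 1 ≤ D) (hκ : 1 ≤ κ) (X Y : Finset ℕ)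
    (hX : X ⊆ range n) (hY : Y ⊆ range n) (u : ℕ) (hu : u ∈ X) :
    Sk (tr adj) (tr fd) D κ Y (X.erase u) ≤ Sk (tr adj) (tr fd) D κ Y X +
      ((D - (nb fd Y u).card : ℕ) : ℝ) / 4 := by
  obtain ⟨-, -, h3, h4⟩ := h_OUT adj fd n D κ 0 hreg hD X Y hX hY u hu
  obtain ⟨f1, -, f3, -⟩ := h_FFF κ hκ
  have hD0 : (0 : ℝ) < D := by exact_mod_cast hD
  have hκ0 : (0 : ℝ) < κ := by exact_mod_cast hκ
  obtain ⟨r, hr⟩ : ∃ r : ℕ, r = D - (nb fd Y u).card := ⟨_, rfl⟩
  rw [← hr] at h3 ⊢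
  have hsub : hi (tr adj) D Y (X.erase u) ⊆ hi (tr adj) D Y X := by
    intro j hj
    simp only [hi, mem_filter] at hj ⊢
    refine ⟨hj.1, hj.2.trans_le ?_⟩
    have h5 : (nb (tr adj) (X.erase u) j).card ≤ (nb (tr adj) X j).card := by
      refine Finset.card_le_card ?_
      intro i hi'
      simp only [nb, mem_filter, mem_erase] at hi' ⊢
      exact ⟨hi'.1.2, hi'.2⟩
    omega
  have hterm : ∀ j ∈ hi (tr adj) D Y X,
      Fk κ ((cF (tr adj) (tr fd) D Y (X.erase u) j : ℝ) / D) ≤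
        Fk κ ((cF (tr adj) (tr fd) D Y X j : ℝ) / D) +
        (if adj u j = true then (r : ℝ) / D / (4 * κ) else 0) := by
    intro j _
    by_cases h : adj u j = true
    · rw [if_pos h]
      have h5 := h3 j h
      have h6 : (cF (tr adj) (tr fd) D Y X j : ℝ) =
          cF (tr adj) (tr fd) D Y (X.erase u) j + r := by
        exact_mod_cast h5.symm
      have h7 := f3 ((cF (tr adj) (tr fd) D Y (X.erase u) j : ℝ) / D)
        ((cF (tr adj) (tr fd) D Y X j : ℝ) / D)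
        (by positivity) (by
          rw [h6]
          gcongr
          have : (0 : ℝ) ≤ r := by positivity
          linarith)
      have h8 : (cF (tr adj) (tr fd) D Y X j : ℝ) / D -
          (cF (tr adj) (tr fd) D Y (X.erase u) j : ℝ) / D = (r : ℝ) / D := by
        rw [h6, add_div]
        ring
      rw [h8] at h7
      linarith
    · rw [if_neg h, add_zero]
      rw [h4 j (by simpa using h)]
  have hcard : ((hi (tr adj) D Y X).filter fun j => adj u j = true).card ≤ κ * D := by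
    have hun : u < n := Finset.mem_range.1 (hX hu)
    have h5 := ((h_REG adj fd n D κ hreg).2 Y hY u hun).2.2.1
    refine le_trans (Finset.card_le_card ?_) h5
    intro j hj
    rw [Finset.mem_filter] at hj
    have hj1 := hj.1
    rw [hi, Finset.mem_filter] at hj1
    rw [nb, Finset.mem_filter]
    exact ⟨hj1.1, hj.2⟩
  calc Sk (tr adj) (tr fd) D κ Y (X.erase u)
      ≤ ∑ j ∈ hi (tr adj) D Y X, Fk κ ((cF (tr adj) (tr fd) D Y (X.erase u) j : ℝ) / D) := by
        unfold Sk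
        exact Finset.sum_le_sum_of_subset_of_nonneg hsub fun i _ _ => (f1 _).le
    _ ≤ ∑ j ∈ hi (tr adj) D Y X, (Fk κ ((cF (tr adj) (tr fd) D Y X j : ℝ) / D) +
        (if adj u j = true then (r : ℝ) / D / (4 * κ) else 0)) := Finset.sum_le_sum hterm
    _ = Sk (tr adj) (tr fd) D κ Y X +
        ((hi (tr adj) D Y X).filter fun j => adj u j = true).card *
          ((r : ℝ) / D / (4 * κ)) := by
        rw [Finset.sum_add_distrib, ← Finset.sum_filter, Finset.sum_const, nsmul_eq_mul]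
        rfl
    _ ≤ Sk (tr adj) (tr fd) D κ Y X + κ * D * ((r : ℝ) / D / (4 * κ)) := by
        have h9 : (((hi (tr adj) D Y X).filter fun j => adj u j = true).card : ℝ) ≤ κ * D := by
          exact_mod_cast hcard
        have h10 : 0 ≤ (r : ℝ) / D / (4 * κ) := by positivity
        have := mul_le_mul_of_nonneg_right h9 h10
        linarith
    _ = Sk (tr adj) (tr fd) D κ Y X + (r : ℝ) / 4 := by
        congr 1
        field_simp

end DPO_

open DPO_ in
theorem v_DPO (h_REG : V_REG) (h_OUT : V_OUT) (h_FFF : V_FFF) : V_DPO := by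
  intro adj fd n D κ m hreg hD hκ θ hθ X Y hX hY u hu
  have hD0 : (0 : ℝ) < D := by exact_mod_cast hD
  have hl := left h_OUT h_FFF adj fd n D κ hreg hD hκ X Y hX hY u hu
  have hr := right h_REG h_OUT h_FFF adj fd n D κ hreg hD hκ X Y hX hY u hu
  obtain ⟨h1, -, -, -⟩ := h_OUT adj fd n D κ m hreg hD X Y hX hY u hu
  have hun : u < n := Finset.mem_range.1 (hX hu)
  have hq := ((h_REG adj fd n D κ hreg).2 Y hY u hun).2.1
  obtain ⟨q, hqq⟩ : ∃ q : ℕ, q = (nb fd Y u).card := ⟨_, rfl⟩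
  obtain ⟨Δ, hΔ⟩ : ∃ Δ : ℝ, Δ = ∑ i ∈ (hi adj D X Y).erase u,
      (Fk κ ((cF adj fd D X Y i : ℝ) / D) -
        Fk κ ((cF adj fd D X Y i : ℝ) / D + ((nb adj Y i ∩ nb fd Y u).card : ℝ) / D)) :=
    ⟨_, rfl⟩
  rw [← hqq] at hr h1 hq ⊢
  rw [← hΔ] at hl ⊢
  rw [Nat.cast_sub hq] at hr
  have hq' : (q : ℝ) ≤ D := by exact_mod_cast hq
  have hc : (((X.erase u).card : ℕ) : ℝ) ≤ X.card := by
    exact_mod_cast Finset.card_le_card (Finset.erase_subset u X)
  have hσ : (0 : ℝ) ≤ 30 + 5 * (Nat.size κ : ℝ) := by positivity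
  obtain ⟨A, hA⟩ : ∃ A : ℝ, A = 30 + 5 * (Nat.size κ : ℝ) := ⟨_, rfl⟩
  unfold Pk
  rw [h1, ← hA]
  rw [← hA] at hσ
  have h2 : A * ((((X.erase u).card : ℕ) : ℝ) + Y.card) ≤ A * ((X.card : ℝ) + Y.card) :=
    mul_le_mul_of_nonneg_left (by linarith) hσ
  have h3 : 0 ≤ (θ - 3 / 5) * ((D : ℝ) - q) :=
    mul_nonneg (by linarith) (by linarith)
  have hmain : -(θ * ((D : ℝ) - q)) + 7 / 20 * ((D : ℝ) - q) +
      A * ((((X.erase u).card : ℕ) : ℝ) + Y.card) +
      (Sk adj fd D κ (X.erase u) Y + Sk (tr adj) (tr fd) D κ Y (X.erase u)) + Δ ≤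
      A * ((X.card : ℝ) + Y.card) +
        (Sk adj fd D κ X Y + Sk (tr adj) (tr fd) D κ Y X) := by
    have h0 : -(θ * ((D : ℝ) - q)) + 7 / 20 * ((D : ℝ) - q) + ((D : ℝ) - q) / 4 ≤ 0 := by
      linarith
    linarith
  have h4 := div_le_div_of_nonneg_right hmain hD0.le
  have e1 : (1 : ℝ) - (q : ℝ) / D = ((D : ℝ) - q) / D := by
    rw [sub_div, div_self hD0.ne']
  rw [e1]
  have e2 : -(θ * (sg fd D m X Y + ((D : ℝ) - q) / D)) +
      A * (((((X.erase u).card : ℕ) : ℝ) + Y.card) / D) +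
      (Sk adj fd D κ (X.erase u) Y + Sk (tr adj) (tr fd) D κ Y (X.erase u)) / D +
      7 / 20 * (((D : ℝ) - q) / D) + Δ / D =
      -(θ * sg fd D m X Y) + (-(θ * ((D : ℝ) - q)) + 7 / 20 * ((D : ℝ) - q) +
      A * ((((X.erase u).card : ℕ) : ℝ) + Y.card) +
      (Sk adj fd D κ (X.erase u) Y + Sk (tr adj) (tr fd) D κ Y (X.erase u)) + Δ) / D := by
    ring
  have e3 : -(θ * sg fd D m X Y) + A * (((X.card : ℝ) + Y.card) / D) +
      (Sk adj fd D κ X Y + Sk (tr adj) (tr fd) D κ Y X) / D =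
      -(θ * sg fd D m X Y) + (A * ((X.card : ℝ) + Y.card) +
        (Sk adj fd D κ X Y + Sk (tr adj) (tr fd) D κ Y X)) / D := by
    ring
  rw [e2, e3]
  linarith

end Pool.Agent.BisRf
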