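import Pool.Agent.BisRf.Targets

/-!
# Spread fractional matchings: the exponential function (target V_FFF)
-/

set_option autoImplicit false

namespace Pool.Agent.BisRf

open Finset Pool.Agent.PT Pool.Agent.BisTh Pool.Agent.BisRg Pool.Agent.BisRt

namespace FFF_

/-- `400 ≤ e ^ 6` -/
theorem exp_six : (400 : ℝ) ≤ Real.exp 6 := by
  have h1 : (2.7182 : ℝ) ≤ Real.exp 1 := by
    have h := Real.exp_one_gt_d9
    linarith
  have h2 : (2.7182 : ℝ) ^ 6 ≤ Real.exp 6 := by
    have h3 : Real.exp 6 = Real.exp 1 ^ 6 := by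
      rw [← Real.exp_nat_mul]
      norm_num
    rw [h3]
    exact pow_le_pow_left₀ (by norm_num) h1 6
  exact le_trans (by norm_num) h2

/-- `κ ≤ e ^ (size κ)` -/
theorem exp_size (κ : ℕ) : (κ : ℝ) ≤ Real.exp (Nat.size κ : ℝ) := by
  have h1 : (κ : ℝ) ≤ 2 ^ Nat.size κ := by
    exact_mod_cast (Nat.lt_size_self κ).le
  have h2 : (2 : ℝ) ^ Nat.size κ ≤ Real.exp 1 ^ Nat.size κ := by
    refine pow_le_pow_left₀ (by norm_num) ?_ _
    have h := Real.exp_one_gt_d9
    linarith
  have h3 : Real.exp (Nat.size κ : ℝ) = Real.exp 1 ^ Nat.size κ := by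
    rw [← Real.exp_nat_mul, mul_one]
  rw [h3]
  exact h1.trans h2

end FFF_

open FFF_ in
/-- **FFF** -/
theorem v_FFF : V_FFF := by
  intro κ hκ
  have hk : (1 : ℝ) ≤ κ := by exact_mod_cast hκ
  have hk0 : (0 : ℝ) < κ := by linarith
  obtain ⟨p1, p2, p3, p4, -, -⟩ := Pool.Agent.BisRt.p_FFF
  refine ⟨fun x => ?_, fun x y h => ?_, fun x y h0 h => ?_, fun x y h0 h1 => ?_, ?_, ?_⟩
  · unfold Fk
    have := p1 x
    positivity
  · unfold Fk
    exact div_le_div_of_nonneg_right (p2 x y h) (by positivity)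
  · unfold Fk
    have h1 := p3 x y h0 h
    have h2 : (y - x) / (4 * κ) = (y - x) / 2 / (2 * κ) := by
      field_simp
      ring
    rw [h2, ← sub_div]
    exact div_le_div_of_nonneg_right h1 (by positivity)
  · unfold Fk
    have h2 := p4 x y h0 h1
    have h3 : 1 / (5 * (κ : ℝ)) * y * Real.exp (-(x / 10)) =
        2 / 5 * y * Real.exp (-(x / 10)) / (2 * κ) := by
      field_simp
    rw [h3, ← sub_div]
    exact div_le_div_of_nonneg_right h2 (by positivity)
  · rw [Real.exp_neg, Real.exp_add, one_div]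
    refine inv_anti₀ (by positivity) ?_
    exact mul_le_mul exp_six (exp_size κ) hk0.le (Real.exp_pos _).le
  · unfold Fk Ff
    rw [zero_div, neg_zero, Real.exp_zero, mul_one]
    rw [div_le_div_iff₀ (by positivity) (by norm_num)]
    nlinarith

end Pool.Agent.BisRf
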