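import Pool.Agent.BisRf.Targets

/-!
# GAI: lower bound for the gain
-/

set_option autoImplicit false

namespace Pool.Agent.BisRf

open Finset Pool.Agent.PT Pool.Agent.BisTh Pool.Agent.BisRg Pool.Agent.BisRt

theorem v_GAI (h_REG : V_REG) (h_FFF : V_FFF) : V_GAI := by
  intro adj fd n D κ hR hD hκ X Y hX hY u hu hmax hov
  obtain ⟨-, h3⟩ := h_REG adj fd n D κ hR
  obtain ⟨-, -, -, h4, -⟩ := h_FFF κ hκ
  have hd0 : (0 : ℝ) < D := by exact_mod_cast hD
  have hκ0 : (0 : ℝ) < κ := by exact_mod_cast hκ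
  have hun : u < n := mem_range.1 (hX (mem_filter.1 hu).1)
  have hfu : (nb fd Y u).card ≤ D := (h3 Y hY u hun).2.1
  have key : ∀ i ∈ (hi adj D X Y).erase u,
      1 / (5 * (κ : ℝ)) * Real.exp (-((cF adj fd D X Y u : ℝ) / D / 10)) / D *
        ((nb adj Y i ∩ nb fd Y u).card : ℝ) ≤
      Fk κ ((cF adj fd D X Y i : ℝ) / D) -
        Fk κ ((cF adj fd D X Y i : ℝ) / D + ((nb adj Y i ∩ nb fd Y u).card : ℝ) / D) := by
    intro i hA
    have hi1 : i ∈ hi adj D X Y := mem_of_mem_erase hA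
    have ho : ((nb adj Y i ∩ nb fd Y u).card : ℝ) / D ≤ 1 := by
      rw [div_le_iff₀ hd0, one_mul]
      have h5 : (nb adj Y i ∩ nb fd Y u).card ≤ D :=
        (card_le_card inter_subset_right).trans hfu
      exact_mod_cast h5
    have hx : (cF adj fd D X Y i : ℝ) / D ≤ (cF adj fd D X Y u : ℝ) / D := by
      have h6 : (cF adj fd D X Y i : ℝ) ≤ cF adj fd D X Y u := by exact_mod_cast hmax i hi1
      exact div_le_div_of_nonneg_right h6 hd0.le
    refine le_trans ?_ (h4 _ _ (by positivity) ho)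
    have he : Real.exp (-((cF adj fd D X Y u : ℝ) / D / 10)) ≤
        Real.exp (-((cF adj fd D X Y i : ℝ) / D / 10)) := Real.exp_le_exp.2 (by linarith)
    calc 1 / (5 * (κ : ℝ)) * Real.exp (-((cF adj fd D X Y u : ℝ) / D / 10)) / D *
          ((nb adj Y i ∩ nb fd Y u).card : ℝ)
        = 1 / (5 * (κ : ℝ)) * (((nb adj Y i ∩ nb fd Y u).card : ℝ) / D) *
            Real.exp (-((cF adj fd D X Y u : ℝ) / D / 10)) := by ring
      _ ≤ _ := mul_le_mul_of_nonneg_left he (by positivity)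
  have hsum := sum_le_sum key
  rw [← mul_sum] at hsum
  have hov' : (D : ℝ) * D ≤
      40 * ∑ i ∈ (hi adj D X Y).erase u, ((nb adj Y i ∩ nb fd Y u).card : ℝ) := by
    exact_mod_cast hov
  rw [le_div_iff₀ hd0]
  refine le_trans ?_ hsum
  generalize ∑ i ∈ (hi adj D X Y).erase u, ((nb adj Y i ∩ nb fd Y u).card : ℝ) = σ at hov' ⊢
  have hE := Real.exp_pos (-((cF adj fd D X Y u : ℝ) / D / 10))
  generalize Real.exp (-((cF adj fd D X Y u : ℝ) / D / 10)) = e at hE ⊢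
  have h7 : 1 / (5 * (κ : ℝ)) * e / D * ((D : ℝ) * D / 40) = 1 / (200 * (κ : ℝ)) * (e * D) := by
    field_simp
    ring
  calc 1 / (200 * (κ : ℝ)) * e * D ≤ 1 / (5 * (κ : ℝ)) * e / D * ((D : ℝ) * D / 40) := by
        rw [h7, mul_assoc]
    _ ≤ 1 / (5 * (κ : ℝ)) * e / D * σ :=
        mul_le_mul_of_nonneg_left (by linarith) (by positivity)

end Pool.Agent.BisRf
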