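import Pool.Agent.BisRf.Targets
import Pool.Agent.BisRt.P_DBL
import Pool.Agent.BisRt.P_INN

set_option autoImplicit false

/-!
# INN: removing a vertex and its neighbours (a graph with a spread fractional matching)
-/

namespace Pool.Agent.BisRf

open Finset Pool.Agent.PT Pool.Agent.BisTh Pool.Agent.BisRg Pool.Agent.BisRt

namespace INN_

/-- the neighbours of `j` do not change if `u` is removed and not adjacent to `j` -/
theorem nb_erase {fd : ℕ → ℕ → Bool} {X : Finset ℕ} {u j : ℕ} (h : ¬ fd u j = true) :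
    nb (tr fd) (X.erase u) j = nb (tr fd) X j := by
  unfold nb
  rw [filter_erase, erase_eq_of_notMem]
  exact fun h1 => h (mem_filter.1 h1).2

end INN_

open INN_ in
/-- INN. -/
theorem v_INN (h_REG : V_REG) : V_INN := by
  intro adj fd n D κ m hreg hD X Y hX hY u hu
  obtain ⟨-, r1⟩ := h_REG adj fd n D κ hreg
  obtain ⟨r0, -⟩ := hreg
  obtain ⟨d1, -⟩ := p_DBL fd
  have hN : nb adj Y u ⊆ Y := filter_subset _ _
  have hnot : ∀ j ∈ Y \ nb adj Y u, ¬ adj u j = true := fun j h h1 =>
    (mem_sdiff.1 h).2 (mem_filter.2 ⟨(mem_sdiff.1 h).1, h1⟩)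
  have hnotf : ∀ j ∈ Y \ nb adj Y u, ¬ fd u j = true := fun j h h1 => hnot j h (r0 u j h1)
  have hle : ∀ j ∈ Y, (nb (tr fd) X j).card ≤ D ∧ (nb (tr adj) X j).card ≤ κ * D := by
    intro j hj
    exact (r1 X hX j (mem_range.1 (hY hj))).2.2.2
  refine ⟨?_, fun i => ?_, fun j hj => ?_, ?_⟩
  · have hD0 : (D : ℝ) ≠ 0 := by
      have : (0 : ℝ) < D := by exact_mod_cast hD
      exact this.ne'
    have e1 : ∑ i ∈ X.erase u, (nb fd (Y \ nb adj Y u) i).card +
        ∑ j ∈ nb adj Y u, (nb (tr fd) X j).card = ∑ i ∈ X, (nb fd Y i).card := by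
      rw [d1, d1, sum_congr rfl fun j hj => by rw [nb_erase (hnotf j hj)], sum_sdiff hN]
    have e2 : cF adj fd D X Y u + ∑ j ∈ nb adj Y u, (nb (tr fd) X j).card =
        (nb adj Y u).card * D := by
      unfold cF
      rw [← sum_add_distrib, ← smul_eq_mul, ← sum_const]
      exact sum_congr rfl fun j hj => Nat.sub_add_cancel (hle j (hN hj)).1
    have e3 : (X.erase u).card + 1 = X.card := card_erase_add_one hu
    have e4 : (Y \ nb adj Y u).card + (nb adj Y u).card = Y.card :=
      card_sdiff_add_card_eq_card hN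
    have f1 : ((∑ i ∈ X.erase u, (nb fd (Y \ nb adj Y u) i).card : ℕ) : ℝ) =
        ((∑ i ∈ X, (nb fd Y i).card : ℕ) : ℝ) -
          ((∑ j ∈ nb adj Y u, (nb (tr fd) X j).card : ℕ) : ℝ) := by
      rw [← e1, Nat.cast_add]
      ring
    have f2 : (cF adj fd D X Y u : ℝ) = ((nb adj Y u).card : ℝ) * D -
        ((∑ j ∈ nb adj Y u, (nb (tr fd) X j).card : ℕ) : ℝ) := by
      have := congrArg (Nat.cast : ℕ → ℝ) e2
      rw [Nat.cast_add, Nat.cast_mul] at this
      linarith
    have f3 : ((X.erase u).card : ℝ) = X.card - 1 := by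
      rw [← e3]
      push_cast
      ring
    have f4 : ((Y \ nb adj Y u).card : ℝ) = Y.card - (nb adj Y u).card := by
      rw [← e4]
      push_cast
      ring
    unfold sg
    rw [f1, f2, f3, f4]
    field_simp
    ring
  · unfold cF
    have h1 : nb adj Y i = nb adj (Y \ nb adj Y u) i ∪ ov adj Y u i := by
      ext j
      simp only [nb, ov, mem_union, mem_inter, mem_filter, mem_sdiff, not_and]
      tauto
    have h2 : Disjoint (nb adj (Y \ nb adj Y u) i) (ov adj Y u i) := by
      rw [disjoint_left]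
      intro j h3 h4
      exact (mem_sdiff.1 (mem_filter.1 h3).1).2 (mem_inter.1 h4).2
    rw [h1, sum_union h2]
    congr 1
    refine sum_congr rfl fun j hj => ?_
    rw [nb_erase (hnotf j (mem_filter.1 hj).1)]
  · unfold cF
    rw [nb_erase (hnot j hj)]
    refine sum_le_sum fun i _ => Nat.sub_le_sub_left (card_le_card ?_) _
    unfold nb
    exact filter_subset_filter _ sdiff_subset
  · have h1 : ∀ i, ∑ j ∈ ov adj Y u i, (D - (nb (tr fd) X j).card) =
        ∑ j ∈ nb adj Y u, if adj i j = true then (D - (nb (tr fd) X j).card) else 0 := by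
      intro i
      rw [Pool.Agent.BisRt.INN_.ov_eq, sum_filter]
    rw [sum_congr rfl fun i _ => h1 i, sum_comm]
    unfold cF
    rw [mul_sum]
    refine sum_le_sum fun j hj => ?_
    rw [← sum_filter, sum_const, smul_eq_mul]
    exact Nat.mul_le_mul_right _ (hle j (hN hj)).2

end Pool.Agent.BisRf
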