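import Pool.Agent.BisRf.Targets
import Pool.Agent.BisRt.P_EDG
import Pool.Agent.BisRt.P_LFB

/-!
# LFB: the bound for a leaf
-/

set_option autoImplicit false

namespace Pool.Agent.BisRf

open Finset Pool.Agent.PT Pool.Agent.BisTh Pool.Agent.BisRg Pool.Agent.BisRt

namespace LFB_

/-- the numerical part -/
theorem final (n d e x : ℕ) (g : ℝ) (hd : 5 ≤ d) (hg : 0 ≤ g)
    (hx : (d : ℝ) * x + d * g ≤ d * n + e) (r c : ℝ) (hr : 1 ≤ r)
    (hc : 0 < c) (hr2 : 2 * Real.log 2 ≤ d * Real.log r) (h : r ^ e * c ≤ 2 ^ x) :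
    c ≤ 2 ^ n * Real.exp (-(69 / 100 * g)) := by
  have hd0 : (0 : ℝ) < d := by
    have : 0 < d := by omega
    exact_mod_cast this
  have hre : (0 : ℝ) < r ^ e := by positivity
  have h1 : (e : ℝ) * Real.log r + Real.log c ≤ x * Real.log 2 := by
    have h2 := Real.log_le_log (by positivity) h
    rwa [Real.log_mul hre.ne' hc.ne', Real.log_pow, Real.log_pow] at h2
  have hl : (69 / 100 : ℝ) ≤ Real.log 2 := by
    have := Real.log_two_gt_d9
    linarith
  have hl0 : (0 : ℝ) ≤ Real.log 2 := by linarith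
  have he : (0 : ℝ) ≤ e := Nat.cast_nonneg e
  have hE : (0 : ℝ) ≤ d * g := mul_nonneg hd0.le hg
  have h3 : (e : ℝ) * (2 * Real.log 2) ≤ e * (d * Real.log r) :=
    mul_le_mul_of_nonneg_left hr2 he
  have h4 : d * Real.log c ≤ d * (n * Real.log 2) - 69 / 100 * (d * g) := by
    have h5 : d * ((e : ℝ) * Real.log r + Real.log c) ≤ d * (x * Real.log 2) :=
      mul_le_mul_of_nonneg_left h1 hd0.le
    have h6 : d * ((x : ℝ) * Real.log 2) ≤ (d * n + e - d * g) * Real.log 2 := by
      have h66 : (d : ℝ) * x ≤ d * n + e - d * g := by linarith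
      have h67 := mul_le_mul_of_nonneg_right h66 hl0
      linarith
    have h7 : 0 ≤ (e : ℝ) * Real.log 2 := mul_nonneg he hl0
    have h8 : (69 / 100 : ℝ) * (d * g) ≤ Real.log 2 * (d * g) :=
      mul_le_mul_of_nonneg_right hl hE
    nlinarith
  have h9 : Real.log c ≤ n * Real.log 2 + -(69 / 100 * g) := by
    have h10 : d * Real.log c ≤ d * (n * Real.log 2 + -(69 / 100 * g)) := by
      have h11 : d * (n * Real.log 2 + -(69 / 100 * g)) =
          d * (n * Real.log 2) - 69 / 100 * (d * g) := by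
        ring
      rw [h11]
      exact h4
    exact le_of_mul_le_mul_left h10 hd0
  calc c = Real.exp (Real.log c) := (Real.exp_log hc).symm
    _ ≤ Real.exp (n * Real.log 2 + -(69 / 100 * g)) := Real.exp_le_exp.2 h9
    _ = 2 ^ n * Real.exp (-(69 / 100 * g)) := by
      rw [Real.exp_add, ← Real.log_pow, Real.exp_log (by positivity)]

end LFB_

theorem v_LFB : V_LFB := by
  intro R F n D m hsub hD s hs hlow hsg
  obtain ⟨e1, e2, e3⟩ := p_EDG R n s hs
  obtain ⟨g1, g2, g3, g4⟩ := hs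
  obtain ⟨l1, l2⟩ := hlow
  have hD0 : (0 : ℝ) < D := by
    have : 0 < D := by omega
    exact_mod_cast this
  have hle : ∑ i ∈ s.1.toFinset, (nb (aF F) s.2.toFinset i).card ≤
      ∑ i ∈ s.1.toFinset, (nb (aj R) s.2.toFinset i).card := by
    refine sum_le_sum fun i _ => card_le_card fun j hj => ?_
    unfold nb at hj ⊢
    rw [mem_filter] at hj ⊢
    exact ⟨hj.1, hsub i j hj.2⟩
  rw [← e3] at hle
  have hle' : ((∑ i ∈ s.1.toFinset, (nb (aF F) s.2.toFinset i).card : ℕ) : ℝ) ≤
      (edges (rws R s) s.2 : ℕ) := by exact_mod_cast hle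
  have hx : (D : ℝ) * (s.1.length + s.2.length : ℕ) + D * SG F D m s ≤
      D * m + (edges (rws R s) s.2 : ℕ) := by
    have h1 : (D : ℝ) * SG F D m s = D * m +
        ((∑ i ∈ s.1.toFinset, (nb (aF F) s.2.toFinset i).card : ℕ) : ℝ) -
          D * (s.1.length + s.2.length : ℕ) := by
      unfold SG sg
      rw [List.toFinset_card_of_nodup g1, List.toFinset_card_of_nodup g2]
      push_cast
      field_simp
    rw [h1]
    linarith
  have hu : ∀ u ∈ rws R s, dg u s.2 ≤ D / 5 := by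
    intro u hu
    obtain ⟨i, hi', rfl⟩ := List.mem_map.1 hu
    rw [e1 i]
    by_contra hcon
    have h5 : i ∈ hi (aj R) D s.1.toFinset s.2.toFinset := by
      unfold hi
      rw [mem_filter]
      exact ⟨List.mem_toFinset.2 hi', by omega⟩
    rw [l1] at h5
    exact absurd h5 (notMem_empty _)
  have hj : ∀ j ∈ s.2, dgR (rws R s) j ≤ D / 5 := by
    intro j hj'
    rw [e2 j]
    by_contra hcon
    have h5 : j ∈ hi (tr (aj R)) D s.2.toFinset s.1.toFinset := by
      unfold hi
      rw [mem_filter]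
      exact ⟨List.mem_toFinset.2 hj', by omega⟩
    rw [l2] at h5
    exact absurd h5 (notMem_empty _)
  obtain ⟨r, hr1, hr2, hr3⟩ := Pool.Agent.BisRt.LFB_.exists_base D hD
  have h6 := p_MAS p_EFL (D / 5) r hr1 hr2 (rws R s) s.2 hu hj
  have hlen : (rws R s).length = s.1.length := List.length_map _
  rw [hlen] at h6
  have hc : (0 : ℝ) < (cs R s : ℝ) := by
    have h7 : 2 ^ s.2.length ≤ cs R s := cnt_ge_right _ _
    have h8 : 0 < cs R s := lt_of_lt_of_le (by positivity) h7
    exact_mod_cast h8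
  exact Pool.Agent.BisRf.LFB_.final m D _ _ _ hD hsg hx r _ hr1 hc hr3 h6

end Pool.Agent.BisRf
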