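import Pool.Agent.BisRf.Targets
import Pool.Agent.BisRg.Main
import Pool.Agent.BisRt.P_EDG

set_option autoImplicit false

/-!
# The error of a leaf (spread fractional matchings, bounded degrees)
-/

namespace Pool.Agent.BisRf

open Finset Pool.Agent.PT Pool.Agent.BisTh Pool.Agent.BisRg Pool.Agent.BisRt

namespace LFE_

theorem nb_le {adj fd : ℕ → ℕ → Bool} (h : ∀ i j, fd i j = true → adj i j = true)
    (Y : Finset ℕ) (i : ℕ) : (nb fd Y i).card ≤ (nb adj Y i).card := by
  refine card_le_card fun j hj => ?_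
  obtain ⟨h1, h2⟩ := mem_filter.1 hj
  exact mem_filter.2 ⟨h1, h i j h2⟩

/-- the slack as an inequality between natural numbers -/
theorem slack {D m x y E : ℕ} (hD : 1 ≤ D)
    (h : 0 ≤ (m : ℝ) + (E : ℝ) / D - ((x : ℝ) + y)) : D * (x + y) ≤ D * m + E := by
  have hD0 : (0 : ℝ) < D := by exact_mod_cast hD
  have h1 : (x : ℝ) + y ≤ m + (E : ℝ) / D := by linarith
  have h2 := mul_le_mul_of_nonneg_left h1 hD0.le
  have h3 : (D : ℝ) * (m + (E : ℝ) / D) = D * m + E := by
    field_simp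
  rw [h3] at h2
  exact_mod_cast h2

end LFE_

theorem v_LFE : V_LFE := by
  intro R F n D m hfd hD s hs hlow hsg k
  obtain ⟨hE1, hE2, hE3⟩ := p_EDG R n s hs
  obtain ⟨hN1, hN2, hI, hJ⟩ := hs
  obtain ⟨hl1, hl2⟩ := hlow
  have he : ∑ i ∈ s.1.toFinset, (nb (aF F) s.2.toFinset i).card ≤ edges (rws R s) s.2 := by
    rw [hE3]
    exact Finset.sum_le_sum fun i _ => LFE_.nb_le hfd _ i
  have h3 : D * (s.1.length + s.2.length) ≤ D * m +
      ∑ i ∈ s.1.toFinset, (nb (aF F) s.2.toFinset i).card := by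
    unfold SG sg at hsg
    rw [List.toFinset_card_of_nodup hN1, List.toFinset_card_of_nodup hN2] at hsg
    exact LFE_.slack hD hsg
  refine tLER D 0 m k hD (rws R s) s.2 ?_ ?_ ?_
  · intro u hu
    obtain ⟨i, him, rfl⟩ := List.mem_map.1 hu
    rw [hE1 i]
    by_contra hlt
    have h5 : i ∈ hi (aj R) D s.1.toFinset s.2.toFinset :=
      mem_filter.2 ⟨List.mem_toFinset.2 him, not_le.1 hlt⟩
    rw [hl1] at h5
    exact absurd h5 (notMem_empty i)
  · intro j hj
    rw [hE2 j]
    by_contra hlt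
    have h5 : j ∈ hi (tr (aj R)) D s.2.toFinset s.1.toFinset :=
      mem_filter.2 ⟨List.mem_toFinset.2 hj, not_le.1 hlt⟩
    rw [hl2] at h5
    exact absurd h5 (notMem_empty j)
  · have h6 : (rws R s).length = s.1.length := List.length_map _
    rw [h6, Nat.add_zero]
    omega

end Pool.Agent.BisRf
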