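import Pool.Agent.BisRf.Targets
import Pool.Agent.BisRt.P_LNK

/-!
# Lists and sets

MP_29585b_lc, project BRF, block LNK.
-/

set_option autoImplicit false

namespace Pool.Agent.BisRf

open Finset Pool.Agent.PT Pool.Agent.BisTh Pool.Agent.BisRg Pool.Agent.BisRt

namespace LNK_

lemma dl_len {D N : ℕ} (h : D ≤ N) : (dl D (List.range N)).length = D := by
  unfold dl
  rw [BisRt.LNK_.filter_len List.nodup_range]
  have h1 : ((List.range N).toFinset.filter fun x => decide (x < D) = true) = Finset.range D := by
    ext x
    simp only [mem_filter, List.mem_toFinset, List.mem_range, decide_eq_true_eq, mem_range]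
    omega
  rw [h1, Finset.card_range]

lemma gap_len {D N : ℕ} (h : D ≤ N) (m : ℕ) : (gap D (List.range N) m).length = D - m := by
  unfold gap dl
  rw [BisRt.LNK_.filter_len (List.nodup_range.filter _)]
  have h1 : (((List.range N).filter fun t => decide (t < D)).toFinset.filter
      fun x => decide (m ≤ x) = true) = Finset.Ico m D := by
    ext x
    simp only [mem_filter, List.mem_toFinset, List.mem_filter, List.mem_range,
      decide_eq_true_eq, mem_Ico]
    omega
  rw [h1, Nat.card_Ico]

lemma const_len {α : Type} (L : List α) (M : List ℕ) :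
    (L.flatMap fun _ => M).length = L.length * M.length := by
  rw [List.length_flatMap]
  simp

end LNK_

open LNK_ in
theorem v_LNK : V_LNK := by
  intro R F n N D s hs hDN
  obtain ⟨h1, h2, -, -⟩ := hs
  have he : eF F s = ∑ i ∈ s.1.toFinset, (nb (aF F) s.2.toFinset i).card := by
    unfold eF
    exact BisRt.LNK_.flat h1 _ _ fun i => BisRt.LNK_.filter_len h2 fun j => aF F i j
  refine ⟨fun i => ?_, fun j => ?_, he, ?_⟩
  · unfold costL cF
    have hd : (nbr R s.2 i).Nodup := h2.filter _
    rw [BisRt.LNK_.flat hd _ (fun j => D - (nb (tr (aF F)) s.1.toFinset j).card) ?_,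
      BisRt.LNK_.nbr_toF]
    intro j
    rw [gap_len hDN]
    congr 1
    exact BisRt.LNK_.filter_len h1 fun i' => aF F i' j
  · unfold costR cF
    have hd : (nbl R s.1 j).Nodup := h1.filter _
    rw [BisRt.LNK_.flat hd _ (fun i => D - (nb (tr (tr (aF F))) s.2.toFinset i).card) ?_,
      BisRt.LNK_.nbl_toF]
    intro i
    rw [gap_len hDN]
    congr 1
    exact BisRt.LNK_.filter_len h2 fun j' => aF F i j'
  · intro K c Ml hD
    have hD0 : (0 : ℝ) < D := by exact_mod_cast hD
    unfold keep SG sg
    rw [decide_eq_true_eq, const_len, const_len, dl_len hDN, List.length_append, he,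
      List.toFinset_card_of_nodup h1, List.toFinset_card_of_nodup h2]
    set e := ∑ i ∈ s.1.toFinset, (nb (aF F) s.2.toFinset i).card with hes
    have hc : (Ml.length * D + e ≤ (s.1.length + s.2.length) * D + K) ↔
        ((Ml.length : ℝ) * D + e ≤ ((s.1.length : ℝ) + s.2.length) * D + K) := by
      exact_mod_cast Iff.rfl
    rw [hc]
    push_cast
    have h3 : ((Ml.length : ℝ) + c + (e : ℝ) / D - ((s.1.length : ℝ) + s.2.length) ≤
        c + (K : ℝ) / D) ↔ ((Ml.length : ℝ) + (e : ℝ) / D ≤
        ((s.1.length : ℝ) + s.2.length) + (K : ℝ) / D) := by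
      constructor <;> intro h <;> linarith
    rw [h3]
    have h4 : (Ml.length : ℝ) + (e : ℝ) / D = ((Ml.length : ℝ) * D + e) / D := by
      field_simp
    have h5 : ((s.1.length : ℝ) + s.2.length) + (K : ℝ) / D =
        (((s.1.length : ℝ) + s.2.length) * D + K) / D := by
      field_simp
    rw [h4, h5, div_le_div_iff_of_pos_right hD0]

end Pool.Agent.BisRf
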