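import Pool.Agent.BisRf.Targets

/-!
# MXM: the maximum matching (MP_29585b_lc)
-/

set_option autoImplicit false

namespace Pool.Agent.BisRf

open Finset Pool.Agent.PT Pool.Agent.BisTh Pool.Agent.BisRg Pool.Agent.BisRt

namespace MXM_

theorem mem_edgesL (B : Un) (R : List (List Bool)) (i j : ℕ) :
    (i, j) ∈ edgesL B R ↔ i < R.length ∧ j < B.length ∧ aj R i j = true := by
  unfold edgesL
  simp only [List.mem_flatMap, List.mem_range, List.mem_map, List.mem_filter, Prod.mk.injEq]
  constructor
  · rintro ⟨i', hi, j', ⟨hj, ha⟩, rfl, rfl⟩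
    exact ⟨hi, hj, ha⟩
  · rintro ⟨hi, hj, ha⟩
    exact ⟨i, hi, j, ⟨hj, ha⟩, rfl, rfl⟩

theorem aF_iff (F : List (ℕ × ℕ)) (i j : ℕ) : aF F i j = true ↔ (i, j) ∈ F := by
  unfold aF
  simp only [List.any_eq_true, Bool.and_eq_true, decide_eq_true_eq]
  constructor
  · rintro ⟨⟨x, y⟩, h, h1, h2⟩
    simp only at h1 h2
    rw [← h1, ← h2]
    exact h
  · intro h
    exact ⟨(i, j), h, rfl, rfl⟩

theorem dL_card (F : List (ℕ × ℕ)) (hF : F.Nodup) (i : ℕ) :
    dL F i = (F.toFinset.filter fun e => e.1 = i).card := by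
  unfold dL
  rw [← List.toFinset_card_of_nodup (hF.filter _), List.toFinset_filter]
  congr 1
  ext e
  simp

theorem dR_card (F : List (ℕ × ℕ)) (hF : F.Nodup) (j : ℕ) :
    dR F j = (F.toFinset.filter fun e => e.2 = j).card := by
  unfold dR
  rw [← List.toFinset_card_of_nodup (hF.filter _), List.toFinset_filter]
  congr 1
  ext e
  simp

/-- the empty matching -/
theorem isM_nil (D : ℕ) (E : List (ℕ × ℕ)) : IsM D E [] := by
  refine ⟨List.nodup_nil, ?_, ?_, ?_⟩
  · intro e he
    exact absurd he (List.not_mem_nil)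
  · intro i
    exact Nat.zero_le _
  · intro j
    exact Nat.zero_le _

/-- without augmentation nothing changes -/
theorem fstep_nil {D : ℕ} {E : List (ℕ × ℕ)} {J : List ℕ} {F : List (ℕ × ℕ)}
    (h : aug D E F (zs D E F J) = []) : fstep D E J F = F := by
  unfold fstep
  rw [h]
  rfl

theorem fold_stay {D : ℕ} {E : List (ℕ × ℕ)} {J : List ℕ} {F : List (ℕ × ℕ)}
    (h : aug D E F (zs D E F J) = []) (l : List (ℕ × ℕ)) :
    l.foldl (fun F _ => fstep D E J F) F = F := by
  induction l with
  | nil => rfl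
  | cons x l ih =>
    rw [List.foldl_cons, fstep_nil h]
    exact ih

/-- with an augmentation the length grows -/
theorem fstep_grow (h_AUG : V_AUG) {D : ℕ} {E : List (ℕ × ℕ)} {J : List ℕ} (hJ : J.Nodup)
    (hE : ∀ e ∈ E, e.2 ∈ J) {F : List (ℕ × ℕ)} (hF : IsM D E F)
    (h : aug D E F (zs D E F J) ≠ []) :
    IsM D E (fstep D E J F) ∧ (fstep D E J F).length = F.length + 1 := by
  refine h_AUG D E F J hJ hF hE _ ?_
  unfold fstep
  cases hc : aug D E F (zs D E F J) with
  | nil => exact absurd hc h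
  | cons y l => exact List.mem_cons_self

theorem fold_inv (h_AUG : V_AUG) {D : ℕ} {E : List (ℕ × ℕ)} {J : List ℕ} (hJ : J.Nodup)
    (hE : ∀ e ∈ E, e.2 ∈ J) (l : List (ℕ × ℕ)) : ∀ F : List (ℕ × ℕ), IsM D E F →
    IsM D E (l.foldl (fun F _ => fstep D E J F) F) ∧
    (F.length + l.length ≤ (l.foldl (fun F _ => fstep D E J F) F).length ∨
      aug D E (l.foldl (fun F _ => fstep D E J F) F)
        (zs D E (l.foldl (fun F _ => fstep D E J F) F) J) = []) := by
  induction l with
  | nil => exact fun F hF => ⟨hF, Or.inl (le_refl _)⟩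
  | cons x l ih =>
    intro F hF
    by_cases h : aug D E F (zs D E F J) = []
    · rw [fold_stay h]
      exact ⟨hF, Or.inr h⟩
    · obtain ⟨h1, h2⟩ := fstep_grow h_AUG hJ hE hF h
      obtain ⟨h3, h4⟩ := ih _ h1
      rw [List.foldl_cons]
      refine ⟨h3, h4.imp_left fun h5 => ?_⟩
      rw [h2] at h5
      rw [List.length_cons]
      omega

/-- a matching of full length has no augmentation -/
theorem aug_full {D : ℕ} {E F : List (ℕ × ℕ)} (hF : IsM D E F) (hl : E.length ≤ F.length)
    (Z : List Rec) : aug D E F Z = [] := by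
  have hs : F.Subperm E := List.subperm_of_subset hF.1 hF.2.1
  have hp : F.Perm E := hs.perm_of_length_le hl
  unfold aug
  rw [List.flatMap_eq_nil_iff]
  intro e he
  have h1 : aF F e.1 e.2 = true := (aF_iff F e.1 e.2).mpr (hp.mem_iff.mpr he)
  rw [h1]
  simp

/-- counting of the edges -/
theorem eF_len {D : ℕ} {B : Un} {R : List (List Bool)} {F : List (ℕ × ℕ)}
    (hF : IsM D (edgesL B R) F) :
    eF F (List.range R.length, List.range B.length) = F.length := by
  have h1 : eF F (List.range R.length, List.range B.length) =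
      ((List.range R.length).flatMap fun i =>
        ((List.range B.length).filter fun j => aF F i j).map fun j => (i, j)).length := by
    unfold eF
    simp only [List.length_flatMap, List.length_map]
  rw [h1]
  refine List.Perm.length_eq ((List.perm_ext_iff_of_nodup ?_ hF.1).mpr ?_)
  · rw [List.nodup_flatMap]
    refine ⟨fun i _ => ?_, ?_⟩
    · refine List.Nodup.map ?_ (List.nodup_range.filter _)
      intro x y hxy
      exact (Prod.mk.inj hxy).2
    · refine List.nodup_range.imp ?_
      intro i i' hne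
      rintro ⟨x, y⟩ hx hy
      rw [List.mem_map] at hx hy
      obtain ⟨_, -, h2⟩ := hx
      obtain ⟨_, -, h3⟩ := hy
      exact hne ((Prod.mk.inj h2).1.trans (Prod.mk.inj h3).1.symm)
  · rintro ⟨i, j⟩
    simp only [List.mem_flatMap, List.mem_range, List.mem_map, List.mem_filter, Prod.mk.injEq]
    constructor
    · rintro ⟨i', hi, j', ⟨hj, ha⟩, rfl, rfl⟩
      exact (aF_iff F _ _).mp ha
    · intro h
      obtain ⟨hi, hj, -⟩ := (mem_edgesL B R i j).mp (hF.2.1 _ h)
      exact ⟨i, hi, j, ⟨hj, (aF_iff F i j).mpr h⟩, rfl, rfl⟩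

/-- the degrees bound the length -/
theorem len_le {D : ℕ} {B : Un} {R : List (List Bool)} {F : List (ℕ × ℕ)}
    (hF : IsM D (edgesL B R) F) : F.length ≤ D * R.length ∧ F.length ≤ D * B.length := by
  have hc : F.length = F.toFinset.card := (List.toFinset_card_of_nodup hF.1).symm
  constructor
  · have h := Finset.card_le_mul_card_image_of_maps_to (f := fun e : ℕ × ℕ => e.1)
      (s := F.toFinset) (t := range R.length) (fun e he => ?_) D (fun i _ => ?_)
    · rw [card_range] at h
      rw [hc]
      exact h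
    · obtain ⟨hi, -, -⟩ := (mem_edgesL B R e.1 e.2).mp (hF.2.1 _ (List.mem_toFinset.mp he))
      exact Finset.mem_range.mpr hi
    · rw [← dL_card F hF.1 i]
      exact hF.2.2.1 i
  · have h := Finset.card_le_mul_card_image_of_maps_to (f := fun e : ℕ × ℕ => e.2)
      (s := F.toFinset) (t := range B.length) (fun e he => ?_) D (fun j _ => ?_)
    · rw [card_range] at h
      rw [hc]
      exact h
    · obtain ⟨-, hj, -⟩ := (mem_edgesL B R e.1 e.2).mp (hF.2.1 _ (List.mem_toFinset.mp he))
      exact Finset.mem_range.mpr hj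
    · rw [← dR_card F hF.1 j]
      exact hF.2.2.2 j

end MXM_

open MXM_ in
/-- **MXM** -/
theorem v_MXM (h_AUG : V_AUG) (h_CUT : V_CUT) : V_MXM := by
  intro D B R hR
  have hE : ∀ e ∈ edgesL B R, e.2 ∈ List.range B.length := by
    rintro ⟨i, j⟩ he
    exact List.mem_range.mpr ((mem_edgesL B R i j).mp he).2.1
  obtain ⟨hM, hA⟩ := fold_inv h_AUG (D := D) List.nodup_range hE (edgesL B R) [] (isM_nil D _)
  have hM' : IsM D (edgesL B R) (maxM D B R) := hM
  have hA' : aug D (edgesL B R) (maxM D B R)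
      (zs D (edgesL B R) (maxM D B R) (List.range B.length)) = [] := by
    rcases hA with hA | hA
    · refine aug_full hM' ?_ _
      rw [List.length_nil, Nat.zero_add] at hA
      exact hA
    · exact hA
  refine ⟨hM', fun c hC => h_CUT D c B R _ hR hM' hA' hC, eF_len hM', ?_⟩
  obtain ⟨h1, h2⟩ := len_le hM'
  rcases le_total R.length B.length with h | h
  · rw [max_eq_right h, Nat.mul_add]
    exact Nat.add_le_add_right h1 _
  · rw [max_eq_left h, Nat.mul_add, Nat.add_comm (D * R.length)]
    exact Nat.add_le_add_right h2 _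

end Pool.Agent.BisRf
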