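import Pool.Agent.BisRf.Targets
import Pool.Agent.BisRt.P_NUM

/-!
# Proof of NUM of the project BisRf (MP_29585b_lc)

Numerical estimates for the growth factor and for the limits of the algorithm.
-/

set_option autoImplicit false

namespace Pool.Agent.BisRf

open Finset Pool.Agent.PT Pool.Agent.BisTh Pool.Agent.BisRg Pool.Agent.BisRt

namespace NUM_

theorem gr_pow (n d : ℕ) (hd : 135 ≤ d) :
    gr ((d - 10) / 125) ^ n ≤ Real.exp (134 * ((n : ℝ) / d)) := by
  have h134 : d ≤ 134 * ((d - 10) / 125 + 1) := by omega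
  have hgr : gr ((d - 10) / 125) = 1 + Real.exp (-(((d - 10) / 125 : ℕ) : ℝ)) := rfl
  rw [hgr]
  generalize (d - 10) / 125 = q at *
  have hd0 : (0 : ℝ) < d := by
    have : 0 < d := by omega
    exact_mod_cast this
  have hq : (d : ℝ) ≤ 134 * ((q : ℝ) + 1) := by exact_mod_cast h134
  have hx0 : 0 < Real.exp (-(q : ℝ)) := Real.exp_pos _
  have hxm : Real.exp (-(q : ℝ)) * Real.exp (q : ℝ) = 1 := by
    rw [← Real.exp_add, neg_add_cancel, Real.exp_zero]
  have hqe : (q : ℝ) + 1 ≤ Real.exp (q : ℝ) := Real.add_one_le_exp _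
  generalize Real.exp (-(q : ℝ)) = x at *
  have h1 : x * ((q : ℝ) + 1) ≤ 1 :=
    (mul_le_mul_of_nonneg_left hqe hx0.le).trans_eq hxm
  have h2 : x * d ≤ 134 := by
    calc x * d ≤ x * (134 * ((q : ℝ) + 1)) := mul_le_mul_of_nonneg_left hq hx0.le
      _ = 134 * (x * ((q : ℝ) + 1)) := by ring
      _ ≤ 134 := by linarith
  have h3 : x ≤ 134 / d := by
    rw [le_div_iff₀ hd0]
    exact h2
  have h5 : (n : ℝ) * x ≤ 134 * ((n : ℝ) / d) := by
    calc (n : ℝ) * x ≤ (n : ℝ) * (134 / d) :=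
          mul_le_mul_of_nonneg_left h3 (by positivity)
      _ = 134 * ((n : ℝ) / d) := by ring
  calc (1 + x) ^ n ≤ (Real.exp x) ^ n := by
        apply pow_le_pow_left₀ (by positivity)
        have := Real.add_one_le_exp x
        linarith
    _ = Real.exp ((n : ℝ) * x) := by
        rw [← Real.exp_nat_mul]
    _ ≤ Real.exp (134 * ((n : ℝ) / d)) := Real.exp_le_exp.mpr h5

/-- `e ^ (2332 m) ≤ (2 ^ m) ^ 3498`. -/
theorem exp_le (m : ℕ) : Real.exp (2332 * (m : ℝ)) ≤ ((2 : ℝ) ^ m) ^ 3498 := by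
  have h1 : Real.exp (2332 * (m : ℝ)) = (Real.exp 2) ^ (1166 * m) := by
    rw [← Real.exp_nat_mul]
    congr 1
    push_cast
    ring
  have h2 : (8 : ℝ) ^ (1166 * m) = ((2 : ℝ) ^ m) ^ 3498 := by
    have h3 : (8 : ℝ) = 2 ^ 3 := by norm_num
    rw [h3, ← pow_mul, ← pow_mul]
    congr 1
    ring
  rw [h1, ← h2]
  exact pow_le_pow_left₀ (Real.exp_pos 2).le Pool.Agent.BisRt.NUM_.exp_two_le _

/-- The two estimates, with `x = N / D`, `y = σ N / D`. -/
theorem main (c k w t : ℕ) (x y : ℝ) (hxy : x ≤ y) (hyk : y + c ≤ k)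
    (hk : 2 ^ k ≤ w) (ht : 1 ≤ t) :
    Real.exp (134 * x) * Real.exp (38 * y) *
      Real.exp (3 / 5 * (c + 3600 * ((Nat.size w : ℝ) + Nat.size t + 1))) ≤
      (((2 * w + 2 * t + 3) ^ 7000 : ℕ) : ℝ) ∧
    2 * (t : ℝ) * (2 ^ c * Real.exp (134 * x) *
      Real.exp (-(9 / 100 * (3600 * ((Nat.size w : ℝ) + Nat.size t + 1)))) *
      (Real.exp (134 * x) * Real.exp (38 * y))) ≤ 1 := by
  have hw : 1 ≤ w := le_trans Nat.one_le_two_pow hk
  have hks : k < Nat.size w := Nat.lt_size.mpr hk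
  have hst : 0 < Nat.size t := Nat.size_pos.mpr ht
  have hks' : (k : ℝ) + 1 ≤ Nat.size w := by exact_mod_cast hks
  have hst' : (1 : ℝ) ≤ Nat.size t := by exact_mod_cast hst
  have hc0 : (0 : ℝ) ≤ c := Nat.cast_nonneg c
  constructor
  · rw [← Real.exp_add, ← Real.exp_add]
    have h1 : Real.exp (134 * x + 38 * y +
        3 / 5 * (c + 3600 * ((Nat.size w : ℝ) + Nat.size t + 1))) ≤
        Real.exp (2332 * ((Nat.size w + Nat.size t + 1 : ℕ) : ℝ)) := by
      apply Real.exp_le_exp.mpr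
      push_cast
      linarith
    have h2 := exp_le (Nat.size w + Nat.size t + 1)
    have h3 : ((2 : ℝ) ^ (Nat.size w + Nat.size t + 1)) ≤ ((2 * w + 2 * t + 3 : ℕ) : ℝ) ^ 2 := by
      exact_mod_cast Pool.Agent.BisRt.NUM_.two_pow_le w t hw ht
    have h4 : ((2 : ℝ) ^ (Nat.size w + Nat.size t + 1)) ^ 3498 ≤
        (((2 * w + 2 * t + 3 : ℕ) : ℝ) ^ 2) ^ 3498 :=
      pow_le_pow_left₀ (by positivity) h3 _
    have h5 : (((2 * w + 2 * t + 3 : ℕ) : ℝ) ^ 2) ^ 3498 ≤
        ((2 * w + 2 * t + 3 : ℕ) : ℝ) ^ 7000 := by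
      rw [← pow_mul]
      apply pow_le_pow_right₀
      · have : 1 ≤ 2 * w + 2 * t + 3 := by omega
        exact_mod_cast this
      · norm_num
    have h6 : (((2 * w + 2 * t + 3) ^ 7000 : ℕ) : ℝ) = ((2 * w + 2 * t + 3 : ℕ) : ℝ) ^ 7000 :=
      Nat.cast_pow _ _
    rw [h6]
    exact h1.trans (h2.trans (h4.trans h5))
  · have h1 : 2 * (t : ℝ) ≤ Real.exp ((Nat.size t + 1 : ℕ) : ℝ) := by
      have h2 : t < 2 ^ (Nat.size t) := Nat.lt_size_self t
      have h3 : 2 * t ≤ 2 ^ (Nat.size t + 1) := by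
        rw [pow_succ]
        omega
      have h4 : 2 * (t : ℝ) ≤ 2 ^ (Nat.size t + 1) := by exact_mod_cast h3
      exact h4.trans (Pool.Agent.BisRt.NUM_.two_pow_le_exp _)
    have h2c := Pool.Agent.BisRt.NUM_.two_pow_le_exp c
    have hB : (2 : ℝ) ^ c * Real.exp (134 * x) *
        Real.exp (-(9 / 100 * (3600 * ((Nat.size w : ℝ) + Nat.size t + 1)))) *
        (Real.exp (134 * x) * Real.exp (38 * y)) ≤
        Real.exp (-((Nat.size t + 1 : ℕ) : ℝ)) := by
      calc (2 : ℝ) ^ c * Real.exp (134 * x) *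
            Real.exp (-(9 / 100 * (3600 * ((Nat.size w : ℝ) + Nat.size t + 1)))) *
            (Real.exp (134 * x) * Real.exp (38 * y))
          ≤ Real.exp (c : ℝ) * Real.exp (134 * x) *
            Real.exp (-(9 / 100 * (3600 * ((Nat.size w : ℝ) + Nat.size t + 1)))) *
            (Real.exp (134 * x) * Real.exp (38 * y)) := by
            apply mul_le_mul_of_nonneg_right _ (by positivity)
            apply mul_le_mul_of_nonneg_right _ (by positivity)
            exact mul_le_mul_of_nonneg_right h2c (by positivity)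
        _ ≤ Real.exp (-((Nat.size t + 1 : ℕ) : ℝ)) := by
            rw [← Real.exp_add, ← Real.exp_add, ← Real.exp_add, ← Real.exp_add]
            apply Real.exp_le_exp.mpr
            push_cast
            linarith
    calc 2 * (t : ℝ) * ((2 : ℝ) ^ c * Real.exp (134 * x) *
          Real.exp (-(9 / 100 * (3600 * ((Nat.size w : ℝ) + Nat.size t + 1)))) *
          (Real.exp (134 * x) * Real.exp (38 * y)))
        ≤ Real.exp ((Nat.size t + 1 : ℕ) : ℝ) * Real.exp (-((Nat.size t + 1 : ℕ) : ℝ)) :=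
          mul_le_mul h1 hB (by positivity) (Real.exp_pos _).le
      _ = 1 := by rw [← Real.exp_add, add_neg_cancel, Real.exp_zero]

end NUM_

theorem v_NUM : V_NUM := by
  refine ⟨fun n d hd => Pool.Agent.BisRf.NUM_.gr_pow n d hd, ?_⟩
  intro N σ D c k w t hD hσ hn hk ht
  have hD0 : (0 : ℝ) < D := by exact_mod_cast hD
  have hKd : (((D * (3600 * (Nat.size w + Nat.size t + 1)) : ℕ) : ℝ) / D) =
      3600 * ((Nat.size w : ℝ) + Nat.size t + 1) := by
    push_cast
    field_simp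
  have hxy : (N : ℝ) / D ≤ ((σ * N : ℕ) : ℝ) / (D : ℝ) := by
    apply div_le_div_of_nonneg_right _ hD0.le
    have : N ≤ σ * N := Nat.le_mul_of_pos_left N hσ
    exact_mod_cast this
  have hyk : ((σ * N : ℕ) : ℝ) / (D : ℝ) + c ≤ k := by
    have h1 : ((σ * N : ℕ) : ℝ) + (D : ℝ) * c ≤ (D : ℝ) * k := by exact_mod_cast hn
    have h2 : ((σ * N : ℕ) : ℝ) / (D : ℝ) ≤ (k : ℝ) - c := by
      rw [div_le_iff₀ hD0]
      linarith
    linarith
  rw [hKd]
  exact Pool.Agent.BisRf.NUM_.main c k w t _ _ hxy hyk hk ht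

end Pool.Agent.BisRf
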