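import Pool.Agent.BisRf.Targets

/-!
# BRF-OUT: removing one vertex
-/

set_option autoImplicit false

namespace Pool.Agent.BisRf

open Finset Pool.Agent.PT Pool.Agent.BisTh Pool.Agent.BisRg Pool.Agent.BisRt

namespace OUT_

theorem nb_erase_of (adj : ℕ → ℕ → Bool) {X : Finset ℕ} (u j : ℕ) :
    nb (tr adj) (X.erase u) j = (nb (tr adj) X j).erase u := by
  unfold nb
  rw [filter_erase]

theorem nb_erase_of_not (adj : ℕ → ℕ → Bool) {X : Finset ℕ} {u j : ℕ} (hj : adj u j = false) :
    nb (tr adj) (X.erase u) j = nb (tr adj) X j := by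
  rw [nb_erase_of]
  apply erase_eq_of_notMem
  intro h
  have h' := (mem_filter.1 h).2
  unfold tr at h'
  rw [hj] at h'
  exact Bool.noConfusion h'

theorem mem_nb_of (adj : ℕ → ℕ → Bool) {X : Finset ℕ} {u j : ℕ} (hu : u ∈ X)
    (hj : adj u j = true) : u ∈ nb (tr adj) X j :=
  mem_filter.2 ⟨hu, hj⟩

theorem gap_erase (fd : ℕ → ℕ → Bool) {X : Finset ℕ} {D u j : ℕ} (hu : u ∈ X)
    (hD : (nb (tr fd) X j).card ≤ D) :
    D - (nb (tr fd) (X.erase u) j).card =
      (D - (nb (tr fd) X j).card) + if fd u j = true then 1 else 0 := by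
  by_cases h : fd u j = true
  · rw [if_pos h, nb_erase_of]
    have h1 := card_erase_add_one (mem_nb_of fd hu h)
    omega
  · have h' : fd u j = false := by
      cases hb : fd u j
      · rfl
      · exact absurd hb h
    rw [if_neg h, nb_erase_of_not fd h', add_zero]

end OUT_

open OUT_ in
theorem v_OUT : V_OUT := by
  intro adj fd n D κ m hreg hD X Y hX hY u hu
  refine ⟨?_, ?_, ?_, ?_⟩
  · unfold sg
    have h1 : (∑ i ∈ X.erase u, (nb fd Y i).card) + (nb fd Y u).card =
        ∑ i ∈ X, (nb fd Y i).card := sum_erase_add _ _ hu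
    have h2 : (X.erase u).card + 1 = X.card := card_erase_add_one hu
    have h1' : ((∑ i ∈ X, (nb fd Y i).card : ℕ) : ℝ) =
        ((∑ i ∈ X.erase u, (nb fd Y i).card : ℕ) : ℝ) + ((nb fd Y u).card : ℝ) := by
      rw [← h1]
      push_cast
      ring
    have h2' : (X.card : ℝ) = ((X.erase u).card : ℝ) + 1 := by
      rw [← h2]
      push_cast
      ring
    rw [h1', h2']
    ring
  · intro i
    unfold cF
    have hs : ∀ j ∈ nb adj Y i, D - (nb (tr fd) (X.erase u) j).card =
        (D - (nb (tr fd) X j).card) + if fd u j = true then 1 else 0 := by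
      intro j hj
      have hjY : j ∈ Y := (mem_filter.1 hj).1
      have hjn : j < n := mem_range.1 (hY hjY)
      have hc : (nb (tr fd) X j).card ≤ D := by
        refine le_trans (card_le_card ?_) (hreg.2.2 j hjn).1
        exact filter_subset_filter _ hX
      exact gap_erase fd hu hc
    rw [sum_congr rfl hs, sum_add_distrib, ← card_filter]
    congr 1
    apply congrArg
    unfold nb
    ext j
    simp only [mem_filter, mem_inter]
    tauto
  · intro j hj
    unfold cF
    rw [nb_erase_of adj u j]
    exact sum_erase_add _ (fun i => D - (nb (tr (tr fd)) Y i).card) (mem_nb_of adj hu hj)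
  · intro j hj
    unfold cF
    rw [nb_erase_of_not adj hj]

end Pool.Agent.BisRf
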