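import Pool.Agent.BisRf.Targets
import Pool.Agent.BisRt.P_DBL

/-!
# Many pairs of vertices with common neighbours (V_OVL)
-/

set_option autoImplicit false

namespace Pool.Agent.BisRf

open Finset Pool.Agent.PT Pool.Agent.BisTh Pool.Agent.BisRg Pool.Agent.BisRt

namespace OVL_

/-- A vertex of small cost has few low neighbours. -/
theorem low (h_REG : V_REG) (adj fd : ℕ → ℕ → Bool) (n D κ g : ℕ) (hR : FReg adj fd n D κ)
    (hd : 1 ≤ D) (X Y : Finset ℕ) (hX : X ⊆ range n) (hY : Y ⊆ range n) (v : ℕ)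
    (hinc : cF adj fd D X Y v ≤ 10 * g * D) :
    2 * ((nb adj Y v).filter fun j => ¬ D < 5 * (nb (tr adj) X j).card).card ≤ 25 * g := by
  obtain ⟨hRt, -⟩ := h_REG adj fd n D κ hR
  obtain ⟨-, hsum⟩ := h_REG (tr adj) (tr fd) n D κ hRt
  set N := nb adj Y v with hN
  set L := N.filter fun j => ¬ D < 5 * (nb (tr adj) X j).card with hL
  have h1 : ∀ j ∈ L, 4 * D ≤ 5 * (D - (nb (tr fd) X j).card) := by
    intro j hj
    rw [hL, mem_filter] at hj
    have hjY : j ∈ Y := by
      have := hj.1
      rw [hN, nb, mem_filter] at this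
      exact this.1
    have hjn : j < n := mem_range.1 (hY hjY)
    have h2 := card_le_card (hsum X hX j hjn).1
    omega
  have h2 : L.card * (4 * D) ≤ 5 * cF adj fd D X Y v := by
    calc L.card * (4 * D) = ∑ _j ∈ L, 4 * D := by rw [sum_const, smul_eq_mul]
      _ ≤ ∑ j ∈ L, 5 * (D - (nb (tr fd) X j).card) := sum_le_sum h1
      _ ≤ ∑ j ∈ N, 5 * (D - (nb (tr fd) X j).card) :=
          sum_le_sum_of_subset (filter_subset _ _)
      _ = 5 * cF adj fd D X Y v := by rw [← mul_sum]; rfl
  have h3 : (4 * L.card) * D ≤ (50 * g) * D := by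
    calc (4 * L.card) * D = L.card * (4 * D) := by ring
      _ ≤ 5 * cF adj fd D X Y v := h2
      _ ≤ 5 * (10 * g * D) := Nat.mul_le_mul_left _ hinc
      _ = (50 * g) * D := by ring
  have h4 : 4 * L.card ≤ 50 * g := Nat.le_of_mul_le_mul_right h3 hd
  omega

end OVL_

/-- V_OVL. -/
theorem v_OVL (h_REG : V_REG) : V_OVL := by
  intro adj fd n D κ g hR hd X Y hX hY u hu hinc hmax hfd
  have hd1 : 1 ≤ D := by omega
  obtain ⟨hRt, hreg⟩ := h_REG adj fd n D κ hR
  have huX : u ∈ X ∧ D < 5 * (nb adj Y u).card := by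
    rw [hi, mem_filter] at hu
    exact hu
  have hun : u < n := mem_range.1 (hX huX.1)
  have hA := OVL_.low h_REG adj fd n D κ g hR hd1 X Y hX hY u hinc
  set N := nb fd Y u with hN
  set H := (hi adj D X Y).erase u with hH
  set G := N.filter fun j => D < 5 * (nb (tr adj) X j).card with hG
  have hGd : D ≤ 4 * G.card := by
    have h1 := Finset.card_filter_add_card_filter_not (s := N)
      (p := fun j => D < 5 * (nb (tr adj) X j).card)
    have h2 : (N.filter fun j => ¬ D < 5 * (nb (tr adj) X j).card).card ≤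
        ((nb adj Y u).filter fun j => ¬ D < 5 * (nb (tr adj) X j).card).card :=
      card_le_card (filter_subset_filter _ (hreg Y hY u hun).1)
    rw [← hG] at h1
    omega
  -- every good neighbour has many neighbours in `H`
  have hB : ∀ j ∈ G, D ≤ 10 * (nb (tr adj) H j).card := by
    intro j hj
    rw [hG, mem_filter] at hj
    have hjY : j ∈ Y := by
      have := hj.1
      rw [hN, nb, mem_filter] at this
      exact this.1
    have hjhi : j ∈ hi (tr adj) D Y X := by
      rw [hi, mem_filter]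
      exact ⟨hjY, hj.2⟩
    have h1 := OVL_.low h_REG (tr adj) (tr fd) n D κ g hRt hd1 Y X hY hX j
      ((hmax j hjhi).trans hinc)
    have h0 := Finset.card_filter_add_card_filter_not (s := nb (tr adj) X j)
      (p := fun i => D < 5 * (nb (tr (tr adj)) Y i).card)
    have h2 : (((nb (tr adj) X j).filter fun i => D < 5 * (nb (tr (tr adj)) Y i).card).erase u)
        ⊆ nb (tr adj) H j := by
      intro i hi'
      rw [mem_erase, mem_filter, nb, mem_filter] at hi'
      rw [nb, mem_filter, hH, mem_erase, hi, mem_filter]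
      exact ⟨⟨hi'.1, hi'.2.1.1, hi'.2.2⟩, hi'.2.1.2⟩
    have h3 := card_le_card h2
    have h4 := pred_card_le_card_erase
      (s := (nb (tr adj) X j).filter fun i => D < 5 * (nb (tr (tr adj)) Y i).card) (a := u)
    omega
  have hC : ∑ i ∈ H, (nb adj Y i ∩ nb fd Y u).card = ∑ j ∈ N, (nb (tr adj) H j).card := by
    rw [← (Pool.Agent.BisRt.p_DBL adj).1 H N]
    refine sum_congr rfl fun i _ => ?_
    congr 1
    ext j
    simp only [nb, mem_inter, mem_filter, hN]
    tauto
  have hD : G.card * D ≤ 10 * ∑ i ∈ H, (nb adj Y i ∩ nb fd Y u).card := by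
    rw [hC]
    calc G.card * D = ∑ _j ∈ G, D := by rw [sum_const, smul_eq_mul]
      _ ≤ ∑ j ∈ G, 10 * (nb (tr adj) H j).card := sum_le_sum hB
      _ ≤ ∑ j ∈ N, 10 * (nb (tr adj) H j).card := sum_le_sum_of_subset (filter_subset _ _)
      _ = 10 * ∑ j ∈ N, (nb (tr adj) H j).card := by rw [← mul_sum]
  calc D * D ≤ (4 * G.card) * D := Nat.mul_le_mul_right _ hGd
    _ = 4 * (G.card * D) := by ring
    _ ≤ 4 * (10 * ∑ i ∈ H, (nb adj Y i ∩ nb fd Y u).card) := Nat.mul_le_mul_left _ hD
    _ = 40 * ∑ i ∈ H, (nb adj Y i ∩ nb fd Y u).card := by ring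

end Pool.Agent.BisRf
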