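import Pool.Agent.BisRf.Targets
import Pool.Agent.BisRt.P_PTC

/-!
# PTC: the candidates and the test of the slack in polynomial time
-/

set_option autoImplicit false

namespace Pool.Agent.BisRf

open Finset Pool.Agent.PT Pool.Agent.BisTh Pool.Agent.BisRg Pool.Agent.BisRt

namespace PTC_

section

variable {γ : Type} [Dat γ] [hC : Fact Core]

theorem aF_pt {F : γ → List (ℕ × ℕ)} {i j : γ → ℕ} (hF : PolyF F) (hi : PolyF i)
    (hj : PolyF j) : PolyF (fun x => aF (F x) (i x) (j x)) := by
  unfold aF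
  exact PolyF.any (f := fun (x : γ) (e : ℕ × ℕ) => decide (e.1 = i x) && decide (e.2 = j x))
    (by fun_prop) hF

theorem dl_pt {D : γ → ℕ} {V : γ → List ℕ} (hD : PolyF D) (hV : PolyF V) :
    PolyF (fun x => dl (D x) (V x)) := by
  unfold dl
  exact PolyF.filter (f := fun (x : γ) t => decide (t < D x)) (by fun_prop) hV

theorem gap_pt {D m : γ → ℕ} {V : γ → List ℕ} (hD : PolyF D) (hV : PolyF V) (hm : PolyF m) :
    PolyF (fun x => gap (D x) (V x) (m x)) := by
  unfold gap
  exact PolyF.filter (f := fun (x : γ) t => decide (m x ≤ t)) (by fun_prop) (dl_pt hD hV)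

theorem costL_pt {D : γ → ℕ} {V : γ → List ℕ} {R : γ → List (List Bool)}
    {F : γ → List (ℕ × ℕ)} {s : γ → SI} {i : γ → ℕ} (hD : PolyF D) (hV : PolyF V)
    (hR : PolyF R) (hF : PolyF F) (hs : PolyF s) (hi : PolyF i) :
    PolyF (fun x => costL (D x) (V x) (R x) (F x) (s x) (i x)) := by
  unfold costL
  have h1 : PolyF (fun x => nbr (R x) (s x).2 (i x)) := BisRt.PTC_.nbr_pt hR (by fun_prop) hi
  have h2 : PolyF (fun p : γ × ℕ => (s p.1).1.filter fun i' => aF (F p.1) i' p.2) :=
    PolyF.filter (f := fun (p : γ × ℕ) i' => aF (F p.1) i' p.2)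
      (aF_pt (by fun_prop) (by fun_prop) (by fun_prop)) (by fun_prop)
  have h3 : PolyF (fun p : γ × ℕ => gap (D p.1) (V p.1)
      ((s p.1).1.filter fun i' => aF (F p.1) i' p.2).length) :=
    gap_pt (by fun_prop) (by fun_prop) h2.length
  exact (PolyF.flatMap (f := fun (x : γ) j => gap (D x) (V x)
    ((s x).1.filter fun i' => aF (F x) i' j).length) h3 h1).length

theorem costR_pt {D : γ → ℕ} {V : γ → List ℕ} {R : γ → List (List Bool)}
    {F : γ → List (ℕ × ℕ)} {s : γ → SI} {j : γ → ℕ} (hD : PolyF D) (hV : PolyF V)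
    (hR : PolyF R) (hF : PolyF F) (hs : PolyF s) (hj : PolyF j) :
    PolyF (fun x => costR (D x) (V x) (R x) (F x) (s x) (j x)) := by
  unfold costR
  have h1 : PolyF (fun x => nbl (R x) (s x).1 (j x)) := BisRt.PTC_.nbl_pt hR (by fun_prop) hj
  have h2 : PolyF (fun p : γ × ℕ => (s p.1).2.filter fun j' => aF (F p.1) p.2 j') :=
    PolyF.filter (f := fun (p : γ × ℕ) j' => aF (F p.1) p.2 j')
      (aF_pt (by fun_prop) (by fun_prop) (by fun_prop)) (by fun_prop)
  have h3 : PolyF (fun p : γ × ℕ => gap (D p.1) (V p.1)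
      ((s p.1).2.filter fun j' => aF (F p.1) p.2 j').length) :=
    gap_pt (by fun_prop) (by fun_prop) h2.length
  exact (PolyF.flatMap (f := fun (x : γ) i => gap (D x) (V x)
    ((s x).2.filter fun j' => aF (F x) i j').length) h3 h1).length

theorem candsF_pt {D : γ → ℕ} {V : γ → List ℕ} {R : γ → List (List Bool)}
    {F : γ → List (ℕ × ℕ)} {s : γ → SI} (hD : PolyF D) (hV : PolyF V)
    (hR : PolyF R) (hF : PolyF F) (hs : PolyF s) :
    PolyF (fun x => candsF (D x) (V x) (R x) (F x) (s x)) := by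
  unfold candsF
  have h1 : PolyF (fun x => (s x).1.filter fun i => big (D x) (nbr (R x) (s x).2 i).length) := by
    refine PolyF.filter (f := fun (x : γ) i => big (D x) (nbr (R x) (s x).2 i).length) ?_
      (by fun_prop)
    exact BisRt.PTC_.big_pt (by fun_prop)
      (BisRt.PTC_.nbr_pt (by fun_prop) (by fun_prop) (by fun_prop)).length
  have h2 : PolyF (fun x => (s x).2.filter fun j => big (D x) (nbl (R x) (s x).1 j).length) := by
    refine PolyF.filter (f := fun (x : γ) j => big (D x) (nbl (R x) (s x).1 j).length) ?_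
      (by fun_prop)
    exact BisRt.PTC_.big_pt (by fun_prop)
      (BisRt.PTC_.nbl_pt (by fun_prop) (by fun_prop) (by fun_prop)).length
  have h3 : PolyF (fun p : γ × ℕ =>
      (false, p.2, costL (D p.1) (V p.1) (R p.1) (F p.1) (s p.1) p.2)) :=
    (PolyF.const _).pair ((PolyF.snd PolyF.id).pair
      (costL_pt (by fun_prop) (by fun_prop) (by fun_prop) (by fun_prop) (by fun_prop)
        (by fun_prop)))
  have h4 : PolyF (fun p : γ × ℕ =>
      (true, p.2, costR (D p.1) (V p.1) (R p.1) (F p.1) (s p.1) p.2)) :=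
    (PolyF.const _).pair ((PolyF.snd PolyF.id).pair
      (costR_pt (by fun_prop) (by fun_prop) (by fun_prop) (by fun_prop) (by fun_prop)
        (by fun_prop)))
  exact PolyF.append
    (PolyF.map (f := fun (x : γ) i => (false, i, costL (D x) (V x) (R x) (F x) (s x) i)) h3 h1)
    (PolyF.map (f := fun (x : γ) j => (true, j, costR (D x) (V x) (R x) (F x) (s x) j)) h4 h2)

theorem eF_pt {F : γ → List (ℕ × ℕ)} {s : γ → SI} (hF : PolyF F) (hs : PolyF s) :
    PolyF (fun x => eF (F x) (s x)) := by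
  unfold eF
  have h2 : PolyF (fun p : γ × ℕ => (s p.1).2.filter fun j' => aF (F p.1) p.2 j') :=
    PolyF.filter (f := fun (p : γ × ℕ) j' => aF (F p.1) p.2 j')
      (aF_pt (by fun_prop) (by fun_prop) (by fun_prop)) (by fun_prop)
  exact (PolyF.flatMap (f := fun (x : γ) i => (s x).2.filter fun j' => aF (F x) i j') h2
    (by fun_prop)).length

theorem flat_pt {D : γ → ℕ} {V L : γ → List ℕ} (hD : PolyF D) (hV : PolyF V) (hL : PolyF L) :
    PolyF (fun x => ((L x).flatMap fun _ => dl (D x) (V x)).length) := by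
  have h1 : PolyF (fun p : γ × ℕ => dl (D p.1) (V p.1)) := dl_pt (by fun_prop) (by fun_prop)
  exact (PolyF.flatMap (f := fun (x : γ) (_ : ℕ) => dl (D x) (V x)) h1 hL).length

theorem keep_pt {D K : γ → ℕ} {V Ml : γ → List ℕ} {F : γ → List (ℕ × ℕ)} {s : γ → SI}
    (hD : PolyF D) (hK : PolyF K) (hV : PolyF V) (hM : PolyF Ml) (hF : PolyF F)
    (hs : PolyF s) :
    PolyF (fun x => keep (D x) (K x) (V x) (Ml x) (F x) (s x)) := by
  unfold keep
  have h1 := flat_pt hD hV hM
  have h2 := eF_pt hF hs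
  have h3 : PolyF (fun x => (s x).1 ++ (s x).2) := PolyF.append (by fun_prop) (by fun_prop)
  have h4 := flat_pt hD hV h3
  fun_prop

end

end PTC_

open PTC_ in
/-- **PTC** -/
theorem v_PTC : V_PTC := by
  intro hC
  exact ⟨candsF_pt (by fun_prop) (by fun_prop) (by fun_prop) (by fun_prop) (by fun_prop),
    keep_pt (by fun_prop) (by fun_prop) (by fun_prop) (by fun_prop) (by fun_prop) (by fun_prop)⟩

end Pool.Agent.BisRf
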