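import Pool.Agent.BisRf.Targets

/-!
# BRF, target PTH: one more exchange
-/

set_option autoImplicit false

namespace Pool.Agent.BisRf

open Finset Pool.Agent.PT Pool.Agent.BisTh Pool.Agent.BisRg Pool.Agent.BisRt

namespace PTH_

/-- The relation of a list. -/
theorem aF_iff (F : List (ℕ × ℕ)) (e : ℕ × ℕ) : aF F e.1 e.2 = true ↔ e ∈ F := by
  unfold aF
  rw [List.any_eq_true]
  constructor
  · rintro ⟨f, hf, h⟩
    rw [Bool.and_eq_true, decide_eq_true_eq, decide_eq_true_eq] at h
    have : f = e := Prod.ext h.1 h.2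
    rw [← this]
    exact hf
  · intro h
    exact ⟨e, h, by simp⟩

/-- Membership after the exchange. -/
theorem mem_exch (F : List (ℕ × ℕ)) (z : Rec) (f : ℕ × ℕ) :
    f ∈ exch F z ↔ f ∈ z.2.2 ∨ (f ∈ F ∧ f ∉ z.2.1) := by
  unfold exch
  rw [List.mem_append, List.mem_filter]
  have : (!(aF z.2.1 f.1 f.2)) = true ↔ f ∉ z.2.1 := by
    rw [Bool.not_eq_true', ← Bool.not_eq_true, aF_iff]
  rw [this]

/-- Left degrees of a list with one more edge. -/
theorem dL_cons (F : List (ℕ × ℕ)) (e : ℕ × ℕ) (i : ℕ) :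
    dL (e :: F) i = dL F i + if e.1 = i then 1 else 0 := by
  unfold dL
  rw [List.filter_cons]
  by_cases h : e.1 = i
  · simp [h]
  · simp [h]

/-- Right degrees of a list with one more edge. -/
theorem dR_cons (F : List (ℕ × ℕ)) (e : ℕ × ℕ) (j : ℕ) :
    dR (e :: F) j = dR F j + if e.2 = j then 1 else 0 := by
  unfold dR
  rw [List.filter_cons]
  by_cases h : e.2 = j
  · simp [h]
  · simp [h]

/-- Left degrees depend only on the edges up to order. -/
theorem dL_perm {F G : List (ℕ × ℕ)} (h : F.Perm G) (i : ℕ) : dL F i = dL G i :=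
  (h.filter _).length_eq

/-- Right degrees depend only on the edges up to order. -/
theorem dR_perm {F G : List (ℕ × ℕ)} (h : F.Perm G) (j : ℕ) : dR F j = dR G j :=
  (h.filter _).length_eq

/-- The exchange of the new record. -/
theorem exch_new (F : List (ℕ × ℕ)) (z : Rec) (e : ℕ × ℕ) (h : e ∉ z.2.2) :
    exch F (e.2, e :: z.2.1, (e.1, z.1) :: z.2.2) =
      (e.1, z.1) :: (exch F z).filter fun f => decide (f ≠ e) := by
  unfold exch
  rw [List.filter_append, List.filter_filter]
  have h1 : (z.2.2.filter fun f => decide (f ≠ e)) = z.2.2 := by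
    rw [List.filter_eq_self]
    intro f hf
    rw [decide_eq_true_eq]
    intro hfe
    exact h (hfe ▸ hf)
  rw [h1]
  simp only [List.cons_append]
  congr 2
  apply List.filter_congr
  intro f _
  have h2 : aF (e :: z.2.1) f.1 f.2 = true ↔ (f = e ∨ aF z.2.1 f.1 f.2 = true) := by
    rw [aF_iff, aF_iff, List.mem_cons]
  by_cases hfe : f = e
  · have h3 : aF (e :: z.2.1) f.1 f.2 = true := h2.2 (Or.inl hfe)
    rw [h3]
    simp [hfe]
  · by_cases h4 : aF z.2.1 f.1 f.2 = true
    · rw [h4, h2.2 (Or.inr h4)]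
      simp
    · have h5 : ¬ aF (e :: z.2.1) f.1 f.2 = true := fun h6 => (h2.1 h6).elim hfe h4
      rw [Bool.not_eq_true] at h4 h5
      rw [h4, h5]
      simp [hfe]

/-- Taking out one edge of a list without duplicates. -/
theorem perm_out {G : List (ℕ × ℕ)} (hG : G.Nodup) {e : ℕ × ℕ} (he : e ∈ G) :
    G.Perm (e :: G.filter fun f => decide (f ≠ e)) := by
  have h1 : (G.filter fun f => decide (f ≠ e)) = G.erase e := by
    rw [hG.erase_eq_filter]
    apply List.filter_congr
    intro f _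
    by_cases h : f = e <;> simp [h]
  rw [h1]
  exact List.perm_cons_erase he

end PTH_

open PTH_ in
theorem v_PTH : V_PTH := by
  intro D E F S z e hF hz heF heS hE hnF
  obtain ⟨hzS, ⟨hGn, hGE, hGL, hGR⟩, hlen, hL, hRz, hRo, hrem, hadd⟩ := hz
  have hze : z.1 ≠ e.2 := fun h => heS (h ▸ hzS)
  have headd : e ∉ z.2.2 := fun h => (hadd e h).1 heF
  have herem : e ∉ z.2.1 := fun h => heS (hrem e h).2
  have heG : e ∈ exch F z := (mem_exch F z e).2 (Or.inr ⟨heF, herem⟩)
  have hnG : (e.1, z.1) ∉ exch F z := by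
    intro h
    rcases (mem_exch F z _).1 h with h | h
    · exact (hadd _ h).2.2 rfl
    · exact hnF h.1
  have hp := perm_out hGn heG
  have hx := exch_new F z e headd
  set H := (exch F z).filter fun f => decide (f ≠ e) with hH
  have hHG : ∀ f ∈ H, f ∈ exch F z := fun f hf => List.mem_of_mem_filter hf
  have hdL : ∀ i, dL (exch F (e.2, e :: z.2.1, (e.1, z.1) :: z.2.2)) i = dL (exch F z) i := by
    intro i
    rw [hx, dL_perm hp, dL_cons, dL_cons]
  have hdR : ∀ j, dR (exch F (e.2, e :: z.2.1, (e.1, z.1) :: z.2.2)) j +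
      (if e.2 = j then 1 else 0) = dR (exch F z) j + if z.1 = j then 1 else 0 := by
    intro j
    rw [hx, dR_perm hp, dR_cons, dR_cons]
    simp only
    omega
  refine ⟨List.mem_cons_self, ⟨?_, ?_, ?_, ?_⟩, ?_, ?_, ?_, ?_, ?_, ?_⟩
  · rw [hx]
    exact List.nodup_cons.2 ⟨fun h => hnG (hHG _ h), hGn.filter _⟩
  · intro f hf
    rw [hx, List.mem_cons] at hf
    rcases hf with hf | hf
    · rw [hf]
      exact hE
    · exact hGE f (hHG f hf)
  · intro i
    rw [hdL]
    exact hGL i
  · intro j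
    have h1 := hdR j
    have h2 := hGR j
    by_cases hj : z.1 = j
    · rw [← hj] at h1 ⊢
      rw [if_neg (fun h => hze h.symm), if_pos rfl] at h1
      omega
    · rw [if_neg hj] at h1
      omega
  · rw [hx, List.length_cons, ← hlen, hp.length_eq, List.length_cons]
  · intro i
    rw [hdL, hL]
  · have h1 := hdR e.2
    rw [if_pos rfl, if_neg hze, hRo e.2 heS] at h1
    have h2 := hF.2.2.2 e.2
    show dR (exch F (e.2, e :: z.2.1, (e.1, z.1) :: z.2.2)) e.2 < D
    omega
  · intro j hj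
    rw [List.mem_cons, not_or] at hj
    have h1 := hdR j
    have h2 : e.2 ≠ j := fun h => hj.1 h.symm
    have h3 : z.1 ≠ j := fun h => hj.2 (h ▸ hzS)
    rw [if_neg h2, if_neg h3, hRo j hj.2] at h1
    omega
  · intro f hf
    have hf' : f ∈ e :: z.2.1 := hf
    rw [List.mem_cons] at hf'
    rcases hf' with hf' | hf'
    · rw [hf']
      exact ⟨heF, List.mem_cons_self⟩
    · exact ⟨(hrem f hf').1, List.mem_cons_of_mem _ (hrem f hf').2⟩
  · intro f hf
    have hf' : f ∈ (e.1, z.1) :: z.2.2 := hf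
    rw [List.mem_cons] at hf'
    rcases hf' with hf' | hf'
    · rw [hf']
      exact ⟨hnF, List.mem_cons_of_mem _ hzS, hze⟩
    · refine ⟨(hadd f hf').1, List.mem_cons_of_mem _ (hadd f hf').2.1, ?_⟩
      intro h
      have h2 : f.2 = e.2 := h
      exact heS (h2 ▸ (hadd f hf').2.1)

end Pool.Agent.BisRf
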