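import Pool.Agent.BisRf.Targets

/-!
# PTM: the maximum matching in polynomial time
-/

set_option autoImplicit false

namespace Pool.Agent.BisRf

open Finset Pool.Agent.PT Pool.Agent.BisTh Pool.Agent.BisRg Pool.Agent.BisRt

namespace PTM_

/-! ### invariants -/

theorem aF_iff (F : List (ℕ × ℕ)) (i j : ℕ) : aF F i j = true ↔ (i, j) ∈ F := by
  unfold aF
  rw [List.any_eq_true]
  constructor
  · rintro ⟨e, he, h⟩
    rw [Bool.and_eq_true, decide_eq_true_eq, decide_eq_true_eq] at h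
    have : e = (i, j) := Prod.ext h.1 h.2
    rwa [← this]
  · intro h
    exact ⟨(i, j), h, by simp⟩

theorem mem_newr {E F : List (ℕ × ℕ)} {Z : List Rec} {r : Rec} (h : r ∈ newr E F Z) :
    ∃ e ∈ F, ∃ z ∈ Z, (∀ z' ∈ Z, z'.1 ≠ e.2) ∧ (e.1, z.1) ∈ E ∧
      r = (e.2, e :: z.2.1, (e.1, z.1) :: z.2.2) := by
  unfold newr at h
  rw [List.mem_flatMap] at h
  obtain ⟨e, he, h⟩ := h
  by_cases ha : (Z.any fun z => decide (z.1 = e.2)) = true
  · rw [ha] at h
    simp at h
  · rw [Bool.not_eq_true] at ha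
    rw [ha, cond_false, List.mem_map] at h
    obtain ⟨z, hz, hr⟩ := h
    rw [List.mem_filter, Bool.and_eq_true, aF_iff] at hz
    refine ⟨e, he, z, hz.1, ?_, hz.2.1, hr.symm⟩
    intro z' hz' hne
    rw [List.any_eq_false] at ha
    exact ha z' hz' (by simpa using hne)

/-- the bound for the sizes of the edges -/
def Mb (F : List (ℕ × ℕ)) (J : List ℕ) : ℕ := 2 * sz F + sz J + 1

/-- the bound for the sizes of the lists of edges -/
def Lb (F : List (ℕ × ℕ)) (J : List ℕ) (k : ℕ) : ℕ := k * (Mb F J + 1) + 1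

/-- sizes of the records -/
def Inv (F : List (ℕ × ℕ)) (J : List ℕ) (k : ℕ) (Z : List Rec) : Prop :=
  Z.length ≤ J.length + k ∧ ∀ z ∈ Z, sz z.1 ≤ sz F + sz J ∧ sz z.2.1 ≤ Lb F J k ∧
    sz z.2.2 ≤ Lb F J k

theorem inv_step {E F : List (ℕ × ℕ)} {J : List ℕ} {k : ℕ} {Z : List Rec} (h : Inv F J k Z) :
    Inv F J (k + 1) (Z ++ (newr E F Z).take 1) := by
  have hL : Lb F J (k + 1) = Lb F J k + (Mb F J + 1) := by unfold Lb; ring
  refine ⟨?_, ?_⟩
  · rw [List.length_append]
    have := List.length_take_le 1 (newr E F Z)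
    have := h.1
    omega
  · intro z hz
    rw [List.mem_append] at hz
    rcases hz with hz | hz
    · obtain ⟨h1, h2, h3⟩ := h.2 z hz
      exact ⟨h1, by omega, by omega⟩
    · obtain ⟨e, he, z', hz', -, -, rfl⟩ := mem_newr (List.mem_of_mem_take hz)
      obtain ⟨h1, h2, h3⟩ := h.2 z' hz'
      have h4 := sz_mem he
      have h5 := sz_fst e
      have h6 := sz_snd e
      refine ⟨?_, ?_, ?_⟩
      · show sz e.2 ≤ _
        omega
      · show sz (e :: z'.2.1) ≤ _
        rw [sz_cons, hL]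
        unfold Mb
        omega
      · show sz ((e.1, z'.1) :: z'.2.2) ≤ _
        rw [sz_cons, sz_pair, hL]
        unfold Mb
        omega

theorem inv_foldl {E F : List (ℕ × ℕ)} {J : List ℕ} (l : List ℕ) : ∀ (k : ℕ) (Z : List Rec),
    Inv F J k Z → Inv F J (k + l.length)
      (l.foldl (fun Z _ => Z ++ (newr E F Z).take 1) Z) := by
  induction l with
  | nil => intro k Z h; exact h
  | cons a l ih =>
    intro k Z h
    rw [List.foldl_cons, List.length_cons, show k + (l.length + 1) = (k + 1) + l.length by ring]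
    exact ih _ _ (inv_step h)

theorem inv_z0 (D : ℕ) (F : List (ℕ × ℕ)) (J : List ℕ) : Inv F J 0 (z0 D F J) := by
  unfold z0
  refine ⟨?_, ?_⟩
  · rw [List.length_map]
    exact List.length_filter_le _ _
  · intro z hz
    rw [List.mem_map] at hz
    obtain ⟨j, hj, rfl⟩ := hz
    have h1 := sz_mem (List.mem_of_mem_filter hj)
    refine ⟨?_, ?_, ?_⟩
    · show sz j ≤ _
      omega
    · show sz ([] : List (ℕ × ℕ)) ≤ _
      rw [sz_nil]
      unfold Lb
      omega
    · show sz ([] : List (ℕ × ℕ)) ≤ _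
      rw [sz_nil]
      unfold Lb
      omega

/-- the bound for the size of all records -/
def Rb (F : List (ℕ × ℕ)) (J : List ℕ) : ℕ :=
  (2 * sz J) * ((sz F + sz J) + (2 * (sz J * (Mb F J + 1) + 1) + 1) + 1 + 1) + 1

theorem sz_of_inv {F : List (ℕ × ℕ)} {J : List ℕ} {k : ℕ} {Z : List Rec} (h : Inv F J k Z)
    (hk : k ≤ J.length) : sz Z ≤ Rb F J := by
  have hJ := length_lt_sz J
  have hLb : Lb F J k ≤ sz J * (Mb F J + 1) + 1 := by
    unfold Lb
    exact Nat.add_le_add_right (Nat.mul_le_mul_right _ (by omega)) _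
  refine (sz_list_le (M := (sz F + sz J) + (2 * (sz J * (Mb F J + 1) + 1) + 1) + 1) ?_).trans ?_
  · intro z hz
    obtain ⟨h1, h2, h3⟩ := h.2 z hz
    have e : sz z = sz z.1 + (sz z.2.1 + sz z.2.2 + 1) + 1 := rfl
    omega
  · unfold Rb
    refine Nat.add_le_add_right (Nat.mul_le_mul_right _ ?_) _
    have := h.1
    omega

/-- combinatorial properties of the records -/
def Inw (E F : List (ℕ × ℕ)) (Z : List Rec) : Prop :=
  ∀ z ∈ Z, z.2.2.length = z.2.1.length ∧ z.2.1.Nodup ∧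
    (∀ f ∈ z.2.1, f ∈ F ∧ ∃ z' ∈ Z, z'.1 = f.2) ∧ ∀ f ∈ z.2.2, f ∈ E

theorem inw_step {E F : List (ℕ × ℕ)} {Z : List Rec} (h : Inw E F Z) :
    Inw E F (Z ++ (newr E F Z).take 1) := by
  have key : ∀ z ∈ Z, z.2.2.length = z.2.1.length ∧ z.2.1.Nodup ∧
      (∀ f ∈ z.2.1, f ∈ F ∧ ∃ z' ∈ Z ++ (newr E F Z).take 1, z'.1 = f.2) ∧
      ∀ f ∈ z.2.2, f ∈ E := by
    intro z hz
    obtain ⟨h1, h2, h3, h4⟩ := h z hz
    refine ⟨h1, h2, fun f hf => ?_, h4⟩
    obtain ⟨h5, z', hz', h6⟩ := h3 f hf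
    exact ⟨h5, z', List.mem_append_left _ hz', h6⟩
  intro z hz
  rcases List.mem_append.1 hz with hz1 | hz1
  · exact key z hz1
  · obtain ⟨e, he, z', hz', hne, hE, hr⟩ := mem_newr (List.mem_of_mem_take hz1)
    obtain ⟨h1, h2, h3, h4⟩ := key z' hz'
    have hen : e ∉ z'.2.1 := by
      intro hmem
      obtain ⟨-, z'', hz'', h6⟩ := (h z' hz').2.2.1 e hmem
      exact hne z'' hz'' h6
    subst hr
    refine ⟨?_, ?_, ?_, ?_⟩
    · show ((e.1, z'.1) :: z'.2.2).length = (e :: z'.2.1).length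
      rw [List.length_cons, List.length_cons, h1]
    · show (e :: z'.2.1).Nodup
      exact List.nodup_cons.2 ⟨hen, h2⟩
    · intro f hf
      rcases List.mem_cons.1 hf with rfl | hf
      · exact ⟨he, _, hz, rfl⟩
      · exact h3 f hf
    · intro f hf
      rcases List.mem_cons.1 hf with rfl | hf
      · exact hE
      · exact h4 f hf

theorem inw_foldl {E F : List (ℕ × ℕ)} (l : List ℕ) : ∀ Z : List Rec,
    Inw E F Z → Inw E F (l.foldl (fun Z _ => Z ++ (newr E F Z).take 1) Z) := by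
  induction l with
  | nil => intro Z h; exact h
  | cons a l ih => intro Z h; exact ih _ (inw_step h)

theorem inw_zs (D : ℕ) (E F : List (ℕ × ℕ)) (J : List ℕ) : Inw E F (zs D E F J) := by
  unfold zs
  refine inw_foldl J _ ?_
  intro z hz
  unfold z0 at hz
  rw [List.mem_map] at hz
  obtain ⟨j, -, rfl⟩ := hz
  exact ⟨rfl, List.nodup_nil, fun f hf => (List.not_mem_nil hf).elim,
    fun f hf => (List.not_mem_nil hf).elim⟩

theorem exch_length {E F : List (ℕ × ℕ)} {Z : List Rec} (h : Inw E F Z) {z : Rec}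
    (hz : z ∈ Z) : (exch F z).length ≤ F.length := by
  obtain ⟨h1, h2, h3, -⟩ := h z hz
  unfold exch
  rw [List.length_append, h1]
  have e1 : F.length = (F.filter fun f => aF z.2.1 f.1 f.2).length +
      (F.filter fun f => !(aF z.2.1 f.1 f.2)).length :=
    List.length_eq_length_filter_add (l := F) (fun f => aF z.2.1 f.1 f.2)
  have e2 : z.2.1.length ≤ (F.filter fun f => aF z.2.1 f.1 f.2).length := by
    refine (h2.subperm ?_).length_le
    intro f hf
    rw [List.mem_filter]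
    exact ⟨(h3 f hf).1, (aF_iff _ _ _).2 hf⟩
  omega

theorem exch_mem {E F : List (ℕ × ℕ)} {Z : List Rec} (h : Inw E F Z) {z : Rec}
    (hz : z ∈ Z) {f : ℕ × ℕ} (hf : f ∈ exch F z) : f ∈ E ∨ f ∈ F := by
  unfold exch at hf
  rcases List.mem_append.1 hf with hf | hf
  · exact Or.inl ((h z hz).2.2.2 f hf)
  · exact Or.inr (List.mem_of_mem_filter hf)

theorem fstep_spec (D : ℕ) (E : List (ℕ × ℕ)) (J : List ℕ) (F : List (ℕ × ℕ))
    (hF : ∀ f ∈ F, f ∈ E) : (fstep D E J F).length ≤ F.length + 1 ∧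
      ∀ f ∈ fstep D E J F, f ∈ E := by
  have key : ∀ G ∈ aug D E F (zs D E F J), G.length ≤ F.length + 1 ∧ ∀ f ∈ G, f ∈ E := by
    intro G hG
    unfold aug at hG
    rw [List.mem_flatMap] at hG
    obtain ⟨e, he, hG⟩ := hG
    by_cases hc : (decide (dL F e.1 < D) && !(aF F e.1 e.2)) = true
    · rw [hc, cond_true, List.mem_map] at hG
      obtain ⟨z, hz, rfl⟩ := hG
      have hz1 := List.mem_of_mem_filter hz
      refine ⟨?_, ?_⟩
      · rw [List.length_cons]
        exact Nat.add_le_add_right (exch_length (inw_zs D E F J) hz1) 1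
      · intro f hf
        rcases List.mem_cons.1 hf with rfl | hf
        · exact he
        · rcases exch_mem (inw_zs D E F J) hz1 hf with h | h
          · exact h
          · exact hF f h
    · rw [Bool.not_eq_true] at hc
      rw [hc, cond_false] at hG
      exact (List.not_mem_nil hG).elim
  unfold fstep
  cases hA : aug D E F (zs D E F J) with
  | nil => exact ⟨Nat.le_succ _, hF⟩
  | cons G l => exact key G (by rw [hA]; exact List.mem_cons_self)

theorem fold_spec (D : ℕ) (E : List (ℕ × ℕ)) (J : List ℕ) (l : List (ℕ × ℕ)) :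
    ∀ F : List (ℕ × ℕ), (∀ f ∈ F, f ∈ E) →
      (l.foldl (fun F _ => fstep D E J F) F).length ≤ F.length + l.length ∧
        ∀ f ∈ l.foldl (fun F _ => fstep D E J F) F, f ∈ E := by
  induction l with
  | nil => intro F hF; exact ⟨le_rfl, hF⟩
  | cons a l ih =>
    intro F hF
    obtain ⟨h1, h2⟩ := fstep_spec D E J F hF
    obtain ⟨h3, h4⟩ := ih _ h2
    rw [List.foldl_cons, List.length_cons]
    exact ⟨by omega, h4⟩

/-! ### polynomial time -/

section

variable {γ : Type} [Dat γ] [hC : Fact Core]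

theorem aj_pt {R : γ → List (List Bool)} {i j : γ → ℕ} (hR : PolyF R) (hi : PolyF i)
    (hj : PolyF j) : PolyF (fun x => aj (R x) (i x) (j x)) := by
  unfold aj
  fun_prop

@[fun_prop] theorem aF_pt {F : γ → List (ℕ × ℕ)} {i j : γ → ℕ} (hF : PolyF F) (hi : PolyF i)
    (hj : PolyF j) : PolyF (fun x => aF (F x) (i x) (j x)) := by
  unfold aF
  exact PolyF.any (f := fun (x : γ) e => decide (e.1 = i x) && decide (e.2 = j x))
    (by fun_prop) hF

@[fun_prop] theorem dL_pt {F : γ → List (ℕ × ℕ)} {i : γ → ℕ} (hF : PolyF F) (hi : PolyF i) :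
    PolyF (fun x => dL (F x) (i x)) := by
  unfold dL
  exact (PolyF.filter (f := fun (x : γ) (e : ℕ × ℕ) => decide (e.1 = i x))
    (by fun_prop) hF).length

@[fun_prop] theorem dR_pt {F : γ → List (ℕ × ℕ)} {j : γ → ℕ} (hF : PolyF F) (hj : PolyF j) :
    PolyF (fun x => dR (F x) (j x)) := by
  unfold dR
  exact (PolyF.filter (f := fun (x : γ) (e : ℕ × ℕ) => decide (e.2 = j x))
    (by fun_prop) hF).length

@[fun_prop] theorem exch_pt {F : γ → List (ℕ × ℕ)} {z : γ → Rec} (hF : PolyF F)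
    (hz : PolyF z) : PolyF (fun x => exch (F x) (z x)) := by
  unfold exch
  refine PolyF.append (by fun_prop) ?_
  exact PolyF.filter (f := fun (x : γ) (f : ℕ × ℕ) => !(aF (z x).2.1 f.1 f.2))
    (by fun_prop) hF

@[fun_prop] theorem z0_pt {D : γ → ℕ} {F : γ → List (ℕ × ℕ)} {J : γ → List ℕ} (hD : PolyF D)
    (hF : PolyF F) (hJ : PolyF J) : PolyF (fun x => z0 (D x) (F x) (J x)) := by
  unfold z0
  have h1 : PolyF (fun x => (J x).filter fun j => decide (dR (F x) j < D x)) :=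
    PolyF.filter (f := fun (x : γ) (j : ℕ) => decide (dR (F x) j < D x)) (by fun_prop) hJ
  exact PolyF.map (f := fun (_ : γ) (j : ℕ) => ((j, [], []) : Rec)) (by fun_prop) h1

@[fun_prop] theorem newr_pt {E F : γ → List (ℕ × ℕ)} {Z : γ → List Rec} (hE : PolyF E)
    (hF : PolyF F) (hZ : PolyF Z) : PolyF (fun x => newr (E x) (F x) (Z x)) := by
  unfold newr
  refine PolyF.flatMap (f := fun (x : γ) (e : ℕ × ℕ) =>
    cond ((Z x).any fun z => decide (z.1 = e.2)) []
      (((Z x).filter fun z => aF (E x) e.1 z.1 && !(aF (F x) e.1 z.1)).map fun z =>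
        ((e.2, e :: z.2.1, (e.1, z.1) :: z.2.2) : Rec))) ?_ hF
  refine PolyF.cond ?_ (by fun_prop) ?_
  · exact PolyF.any (f := fun (p : γ × ℕ × ℕ) (z : Rec) => decide (z.1 = p.2.2))
      (by fun_prop) (by fun_prop)
  · refine PolyF.map (f := fun (p : γ × ℕ × ℕ) (z : Rec) =>
      ((p.2.2, p.2 :: z.2.1, (p.2.1, z.1) :: z.2.2) : Rec)) (by fun_prop) ?_
    exact PolyF.filter (f := fun (p : γ × ℕ × ℕ) (z : Rec) =>
      aF (E p.1) p.2.1 z.1 && !(aF (F p.1) p.2.1 z.1)) (by fun_prop) (by fun_prop)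

omit hC in
theorem bound_R {F : γ → List (ℕ × ℕ)} {J : γ → List ℕ} (hF : PolyF F) (hJ : PolyF J) :
    PolyB (fun x => Rb (F x) (J x)) := by
  have hM : PolyB (fun x => Mb (F x) (J x)) :=
    ((((PolyB.const 2).mul hF.bound).add hJ.bound).add (PolyB.const 1))
  have h1 : PolyB (fun x => sz (J x) * (Mb (F x) (J x) + 1) + 1) :=
    (hJ.bound.mul (hM.add (PolyB.const 1))).add (PolyB.const 1)
  exact ((((PolyB.const 2).mul hJ.bound).mul (((hF.bound.add hJ.bound).add
    (((PolyB.const 2).mul h1).add (PolyB.const 1))).add (PolyB.const 1) |>.add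
      (PolyB.const 1))).add (PolyB.const 1))

@[fun_prop] theorem zs_pt {D : γ → ℕ} {E F : γ → List (ℕ × ℕ)} {J : γ → List ℕ} (hD : PolyF D)
    (hE : PolyF E) (hF : PolyF F) (hJ : PolyF J) :
    PolyF (fun x => zs (D x) (E x) (F x) (J x)) := by
  unfold zs
  refine PolyF.foldl (f := fun (x : γ) (Z : List Rec) (_ : ℕ) =>
    Z ++ (newr (E x) (F x) Z).take 1) (by fun_prop) (by fun_prop) hJ
    (fun x => Rb (F x) (J x)) (bound_R hF hJ) ?_
  intro x l₁ hl₁
  refine sz_of_inv (k := 0 + l₁.length) (inv_foldl l₁ 0 _ (inv_z0 _ _ _)) ?_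
  rw [Nat.zero_add]
  exact hl₁.length_le

@[fun_prop] theorem aug_pt {D : γ → ℕ} {E F : γ → List (ℕ × ℕ)} {Z : γ → List Rec}
    (hD : PolyF D) (hE : PolyF E) (hF : PolyF F) (hZ : PolyF Z) :
    PolyF (fun x => aug (D x) (E x) (F x) (Z x)) := by
  unfold aug
  refine PolyF.flatMap (f := fun (x : γ) (e : ℕ × ℕ) =>
    cond (decide (dL (F x) e.1 < D x) && !(aF (F x) e.1 e.2))
      (((Z x).filter fun z => decide (z.1 = e.2)).map fun z => e :: exch (F x) z) []) ?_ hE
  refine PolyF.cond (by fun_prop) ?_ (by fun_prop)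
  refine PolyF.map (f := fun (p : γ × ℕ × ℕ) (z : Rec) => p.2 :: exch (F p.1) z)
    (by fun_prop) ?_
  exact PolyF.filter (f := fun (p : γ × ℕ × ℕ) (z : Rec) => decide (z.1 = p.2.2))
    (by fun_prop) (by fun_prop)

@[fun_prop] theorem fstep_pt {D : γ → ℕ} {E F : γ → List (ℕ × ℕ)} {J : γ → List ℕ}
    (hD : PolyF D) (hE : PolyF E) (hF : PolyF F) (hJ : PolyF J) :
    PolyF (fun x => fstep (D x) (E x) (J x) (F x)) := by
  unfold fstep
  fun_prop

theorem edgesL_pt {B : γ → Un} {R : γ → List (List Bool)} (hB : PolyF B) (hR : PolyF R) :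
    PolyF (fun x => edgesL (B x) (R x)) := by
  unfold edgesL
  refine PolyF.flatMap (f := fun (x : γ) (i : ℕ) =>
    ((List.range (B x).length).filter fun j => aj (R x) i j).map fun j => (i, j)) ?_
    (by fun_prop)
  refine PolyF.map (f := fun (p : γ × ℕ) (j : ℕ) => (p.2, j)) (by fun_prop) ?_
  exact PolyF.filter (f := fun (p : γ × ℕ) (j : ℕ) => aj (R p.1) p.2 j)
    (aj_pt (by fun_prop) (by fun_prop) (by fun_prop)) (by fun_prop)

theorem maxM_pt {D : γ → ℕ} {B : γ → Un} {R : γ → List (List Bool)} (hD : PolyF D)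
    (hB : PolyF B) (hR : PolyF R) : PolyF (fun x => maxM (D x) (B x) (R x)) := by
  unfold maxM
  have hE : PolyF (fun x => edgesL (B x) (R x)) := edgesL_pt hB hR
  have hE' : PolyF (fun p : γ × List (ℕ × ℕ) × (ℕ × ℕ) => edgesL (B p.1) (R p.1)) :=
    edgesL_pt (by fun_prop) (by fun_prop)
  refine PolyF.foldl (f := fun (x : γ) (F : List (ℕ × ℕ)) (_ : ℕ × ℕ) =>
    fstep (D x) (edgesL (B x) (R x)) (List.range (B x).length) F)
    (fstep_pt (by fun_prop) hE' (by fun_prop) (by fun_prop)) (by fun_prop) hE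
    (fun x => sz (edgesL (B x) (R x)) * (sz (edgesL (B x) (R x)) + 1) + 1)
    ((hE.bound.mul (hE.bound.add (PolyB.const 1))).add (PolyB.const 1)) ?_
  intro x l₁ hl₁
  obtain ⟨h1, h2⟩ := fold_spec (D x) (edgesL (B x) (R x)) (List.range (B x).length) l₁ []
    (fun f hf => (List.not_mem_nil hf).elim)
  refine (sz_list_le (M := sz (edgesL (B x) (R x))) fun a ha => (sz_mem (h2 a ha)).le).trans ?_
  refine Nat.add_le_add_right (Nat.mul_le_mul_right _ ?_) _
  have h3 := hl₁.length_le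
  have h4 := length_lt_sz (edgesL (B x) (R x))
  rw [List.length_nil] at h1
  omega

end

end PTM_

theorem v_PTM : V_PTM := by
  intro hC
  exact PTM_.maxM_pt (by fun_prop) (by fun_prop) (by fun_prop)

end Pool.Agent.BisRf
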