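import Pool.Agent.BisRf.Targets
import Pool.Agent.BisRt.P_DBL

/-!
# Target SYM: symmetry of the slack and of the weight
-/

set_option autoImplicit false

namespace Pool.Agent.BisRf

open Finset Pool.Agent.PT Pool.Agent.BisTh Pool.Agent.BisRg Pool.Agent.BisRt

theorem v_SYM : V_SYM := by
  intro adj fd D κ m θ X Y
  have hd : ∑ i ∈ X, (nb fd Y i).card = ∑ j ∈ Y, (nb (tr fd) X j).card :=
    Pool.Agent.BisRt.DBL_.dbl fd X Y
  have hs : sg fd D m X Y = sg (tr fd) D m Y X := by
    unfold sg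
    rw [hd, add_comm (X.card : ℝ) Y.card]
  refine ⟨hs, ?_⟩
  have ht : tr (tr adj) = adj := rfl
  have hf : tr (tr fd) = fd := rfl
  unfold Wk Pk
  rw [ht, hf, hs, add_comm (X.card : ℝ) Y.card, add_comm (Sk adj fd D κ X Y)]

end Pool.Agent.BisRf
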