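import Pool.Agent.BisRf.Targets

set_option autoImplicit false

/-!
# BisRf, ZST: the reachable vertices
-/

namespace Pool.Agent.BisRf

open Finset Pool.Agent.PT Pool.Agent.BisTh Pool.Agent.BisRg Pool.Agent.BisRt

namespace ZST_

theorem mem_aF (F : List (ℕ × ℕ)) (i j : ℕ) : aF F i j = true ↔ (i, j) ∈ F := by
  unfold aF
  rw [List.any_eq_true]
  constructor
  · rintro ⟨e, he, h⟩
    rw [Bool.and_eq_true, decide_eq_true_eq, decide_eq_true_eq] at h
    obtain ⟨rfl, rfl⟩ := h
    exact he
  · intro h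
    exact ⟨_, h, by simp⟩

theorem mem_newr (E F : List (ℕ × ℕ)) (Z : List Rec) (z' : Rec) :
    z' ∈ newr E F Z ↔ ∃ e ∈ F, (∀ z ∈ Z, z.1 ≠ e.2) ∧ ∃ z ∈ Z, (e.1, z.1) ∈ E ∧
      (e.1, z.1) ∉ F ∧ z' = (e.2, e :: z.2.1, (e.1, z.1) :: z.2.2) := by
  unfold newr
  rw [List.mem_flatMap]
  refine exists_congr fun e => and_congr_right fun _ => ?_
  by_cases h : (Z.any fun z => decide (z.1 = e.2)) = true
  · rw [h, cond_true]
    rw [List.any_eq_true] at h
    obtain ⟨z, hz, h⟩ := h
    rw [decide_eq_true_eq] at h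
    constructor
    · intro h'
      exact absurd h' List.not_mem_nil
    · rintro ⟨h', _⟩
      exact absurd h (h' z hz)
  · rw [Bool.not_eq_true] at h
    rw [h, cond_false, List.mem_map]
    rw [List.any_eq_false] at h
    constructor
    · rintro ⟨z, hz, rfl⟩
      rw [List.mem_filter, Bool.and_eq_true, Bool.not_eq_true', mem_aF] at hz
      refine ⟨fun y hy => by simpa using h y hy, z, hz.1, hz.2.1, fun hF => ?_, rfl⟩
      rw [← mem_aF, hz.2.2] at hF
      exact Bool.false_ne_true hF
    · rintro ⟨_, z, hz, h1, h2, rfl⟩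
      refine ⟨z, ?_, rfl⟩
      rw [List.mem_filter, Bool.and_eq_true, Bool.not_eq_true', mem_aF]
      refine ⟨hz, h1, ?_⟩
      rw [← Bool.not_eq_true, mem_aF]
      exact h2

/-- one step -/
def st (E F : List (ℕ × ℕ)) (Z : List Rec) : List Rec := Z ++ (newr E F Z).take 1

theorem zs_eq (D : ℕ) (E F : List (ℕ × ℕ)) (J : List ℕ) :
    zs D E F J = J.foldl (fun Z _ => st E F Z) (z0 D F J) := rfl

theorem mono {D : ℕ} {E F : List (ℕ × ℕ)} {S S' : List ℕ} {z : Rec} (h : ∀ j ∈ S, j ∈ S')
    (hz : GoodRec D E F S z) : GoodRec D E F S' z := by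
  obtain ⟨h1, h2, h3, h4, h5, h6, h7, h8⟩ := hz
  exact ⟨h _ h1, h2, h3, h4, h5, fun j hj => h6 j fun hj' => hj (h j hj'),
    fun e he => ⟨(h7 e he).1, h _ (h7 e he).2⟩,
    fun e he => ⟨(h8 e he).1, h _ (h8 e he).2.1, (h8 e he).2.2⟩⟩

/-- the invariant -/
def Inv (D : ℕ) (E F : List (ℕ × ℕ)) (J : List ℕ) (Z : List Rec) : Prop :=
  (∀ z ∈ Z, GoodRec D E F (Z.map Prod.fst) z ∧ z.1 ∈ J) ∧ (Z.map Prod.fst).Nodup

theorem exch_nil (F : List (ℕ × ℕ)) (j : ℕ) : exch F (j, [], []) = F := by
  unfold exch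
  rw [List.nil_append]
  refine List.filter_eq_self.2 fun f _ => ?_
  rfl

theorem base {D : ℕ} {E F : List (ℕ × ℕ)} {J : List ℕ} (hJ : J.Nodup) (hF : IsM D E F) :
    Inv D E F J (z0 D F J) := by
  have e : (z0 D F J).map Prod.fst = J.filter fun j => decide (dR F j < D) := by
    unfold z0
    rw [List.map_map]
    conv_rhs => rw [← List.map_id (J.filter fun j => decide (dR F j < D))]
    rfl
  refine ⟨fun z hz => ?_, ?_⟩
  · have hz' := hz
    unfold z0 at hz'
    rw [List.mem_map] at hz'
    obtain ⟨j, hj, rfl⟩ := hz'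
    have hj' := hj
    rw [List.mem_filter, decide_eq_true_eq] at hj'
    refine ⟨⟨?_, ?_, ?_, ?_, ?_, ?_, ?_, ?_⟩, hj'.1⟩
    · rw [e]
      exact hj
    · rw [exch_nil]
      exact hF
    · rw [exch_nil]
    · intro i
      rw [exch_nil]
    · rw [exch_nil]
      exact hj'.2
    · intro i _
      rw [exch_nil]
    · intro f hf
      exact absurd hf List.not_mem_nil
    · intro f hf
      exact absurd hf List.not_mem_nil
  · rw [e]
    exact hJ.filter _

theorem step_inv (h : V_PTH) {D : ℕ} {E F : List (ℕ × ℕ)} {J : List ℕ} (hF : IsM D E F)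
    (hE : ∀ e ∈ E, e.2 ∈ J) {Z : List Rec} (hZ : Inv D E F J Z) : Inv D E F J (st E F Z) := by
  unfold st
  rcases hn : newr E F Z with _ | ⟨z', l⟩
  · rw [List.take_nil, List.append_nil]
    exact hZ
  · have hz' : z' ∈ newr E F Z := by rw [hn]; exact List.mem_cons_self
    rw [mem_newr] at hz'
    obtain ⟨e, he, h1, z, hz, h2, h3, rfl⟩ := hz'
    have h4 : e.2 ∉ Z.map Prod.fst := by
      rw [List.mem_map]
      rintro ⟨y, hy, hy'⟩
      exact h1 y hy hy'
    have hp := h D E F (Z.map Prod.fst) z e hF (hZ.1 z hz).1 he h4 h2 h3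
    have e1 : ((Z ++ List.take 1 ((e.2, e :: z.2.1, (e.1, z.1) :: z.2.2) :: l)).map
        Prod.fst) = Z.map Prod.fst ++ [e.2] := by
      rw [List.map_append]
      rfl
    refine ⟨fun y hy => ?_, ?_⟩
    · rw [e1]
      rw [List.mem_append] at hy
      rcases hy with hy | hy
      · refine ⟨mono (fun j hj => List.mem_append_left _ hj) (hZ.1 y hy).1, (hZ.1 y hy).2⟩
      · rw [List.take_succ_cons, List.take_zero, List.mem_singleton] at hy
        subst hy
        refine ⟨mono (fun j hj => ?_) hp, hE e (hF.2.1 e he)⟩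
        rw [List.mem_cons] at hj
        rcases hj with rfl | hj
        · exact List.mem_append_right _ (List.mem_singleton_self _)
        · exact List.mem_append_left _ hj
    · rw [e1, List.nodup_append]
      refine ⟨hZ.2, List.nodup_singleton _, ?_⟩
      intro a ha b hb hab
      rw [List.mem_singleton] at hb
      subst hb
      subst hab
      exact h4 ha

theorem fold_inv (h : V_PTH) {D : ℕ} {E F : List (ℕ × ℕ)} {J : List ℕ} (hF : IsM D E F)
    (hE : ∀ e ∈ E, e.2 ∈ J) (l : List ℕ) : ∀ Z : List Rec, Inv D E F J Z →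
    Inv D E F J (l.foldl (fun Z _ => st E F Z) Z) := by
  induction l with
  | nil => exact fun Z hZ => hZ
  | cons a l ih =>
    intro Z hZ
    rw [List.foldl_cons]
    exact ih _ (step_inv h hF hE hZ)

theorem fold_sub {E F : List (ℕ × ℕ)} (l : List ℕ) : ∀ (Z : List Rec), ∀ z ∈ Z,
    z ∈ l.foldl (fun Z _ => st E F Z) Z := by
  induction l with
  | nil => exact fun Z z hz => hz
  | cons a l ih =>
    intro Z z hz
    rw [List.foldl_cons]
    exact ih _ z (List.mem_append_left _ hz)

theorem fold_stay {E F : List (ℕ × ℕ)} (l : List ℕ) (Z : List Rec) (hZ : newr E F Z = []) :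
    l.foldl (fun Z _ => st E F Z) Z = Z := by
  induction l with
  | nil => rfl
  | cons a l ih =>
    rw [List.foldl_cons]
    have : st E F Z = Z := by
      unfold st
      rw [hZ, List.take_nil, List.append_nil]
    rw [this]
    exact ih

theorem fold_len {E F : List (ℕ × ℕ)} (l : List ℕ) : ∀ Z : List Rec,
    newr E F (l.foldl (fun Z _ => st E F Z) Z) = [] ∨
      Z.length + l.length ≤ (l.foldl (fun Z _ => st E F Z) Z).length := by
  induction l with
  | nil => exact fun Z => Or.inr le_rfl
  | cons a l ih =>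
    intro Z
    rcases hn : newr E F Z with _ | ⟨z', l'⟩
    · left
      rw [fold_stay _ _ hn, hn]
    · rw [List.foldl_cons]
      rcases ih (st E F Z) with h | h
      · exact Or.inl h
      · right
        have : (st E F Z).length = Z.length + 1 := by
          unfold st
          rw [hn, List.take_succ_cons, List.take_zero, List.length_append]
          rfl
        rw [List.length_cons]
        omega

end ZST_

open ZST_ in
theorem v_ZST (h_PTH : V_PTH) : V_ZST := by
  intro D E F J hJ hF hE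
  have hI : Inv D E F J (zs D E F J) := fold_inv h_PTH hF hE J _ (base hJ hF)
  refine ⟨hI.1, ?_, ?_⟩
  · intro j hj hd
    refine ⟨(j, [], []), ?_, rfl⟩
    rw [zs_eq]
    refine fold_sub J _ _ ?_
    unfold z0
    rw [List.mem_map]
    exact ⟨j, List.mem_filter.2 ⟨hj, decide_eq_true hd⟩, rfl⟩
  · intro e he z hz h1 h2
    by_contra hcon
    push Not at hcon
    have hne : newr E F (zs D E F J) ≠ [] := by
      intro h0
      have : (e.2, e :: z.2.1, (e.1, z.1) :: z.2.2) ∈ newr E F (zs D E F J) := by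
        rw [mem_newr]
        exact ⟨e, he, hcon, z, hz, h1, h2, rfl⟩
      rw [h0] at this
      exact List.not_mem_nil this
    have hlen : J.length ≤ (zs D E F J).length := by
      rcases fold_len (E := E) (F := F) J (z0 D F J) with h | h
      · exact absurd h hne
      · exact (Nat.le_add_left _ _).trans h
    have hsub : (zs D E F J).map Prod.fst ⊆ J := by
      intro j hj
      rw [List.mem_map] at hj
      obtain ⟨y, hy, rfl⟩ := hj
      exact (hI.1 y hy).2
    have hperm : ((zs D E F J).map Prod.fst).Perm J :=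
      (List.subperm_of_subset hI.2 hsub).perm_of_length_le (by rw [List.length_map]; exact hlen)
    have hmem : e.2 ∈ (zs D E F J).map Prod.fst := hperm.mem_iff.2 (hE e (hF.2.1 e he))
    rw [List.mem_map] at hmem
    obtain ⟨y, hy, hy'⟩ := hmem
    exact hcon y hy hy'

end Pool.Agent.BisRf
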