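import Pool.Agent.BisRf.P_REG
import Pool.Agent.BisRf.P_SYM
import Pool.Agent.BisRf.P_OUT
import Pool.Agent.BisRf.P_INN
import Pool.Agent.BisRf.P_FFF
import Pool.Agent.BisRf.P_DPO
import Pool.Agent.BisRf.P_OVL
import Pool.Agent.BisRf.P_GAI
import Pool.Agent.BisRf.P_LNK
import Pool.Agent.BisRf.P_LFB
import Pool.Agent.BisRf.P_LFE
import Pool.Agent.BisRf.P_NUM
import Pool.Agent.BisRf.P_PTH
import Pool.Agent.BisRf.P_ZST
import Pool.Agent.BisRf.P_AUG
import Pool.Agent.BisRf.P_CUT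
import Pool.Agent.BisRf.P_MXM
import Pool.Agent.BisRf.P_PTM
import Pool.Agent.BisRf.P_PTC

/-!
# The blocks of BisRf used in BisRk
-/

set_option autoImplicit false

namespace Pool.Agent.BisRf

open Pool.Agent.BisTh Pool.Agent.BisRg Pool.Agent.BisRt

theorem tOUT : V_OUT := v_OUT
theorem tINN : V_INN := v_INN v_REG
theorem tDPO : V_DPO := v_DPO v_REG tOUT v_FFF
theorem tOVL : V_OVL := v_OVL v_REG
theorem tGAI : V_GAI := v_GAI v_REG v_FFF
theorem tZST : V_ZST := v_ZST v_PTH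
theorem tAUG : V_AUG := v_AUG tZST
theorem tCUT : V_CUT := v_CUT tZST
theorem tMXM : V_MXM := v_MXM tAUG tCUT

end Pool.Agent.BisRf
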