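import Pool.Agent.BisRf.Targets

/-!
# ALT: the maximum over all `D` and the whole algorithm
-/

set_option autoImplicit false

namespace Pool.Agent.BisRf

open Finset Pool.Agent.PT Pool.Agent.BisTh Pool.Agent.BisRg Pool.Agent.BisRt

namespace ALT_

theorem maxL_two (x y : ℕ) : maxL [x, y] = max x y := by
  simp [maxL]

/-- A larger lower bound has a smaller error. -/
theorem err_mono {t c x y b : ℕ} (hxy : x ≤ y) (h : t * (c - x) ≤ b) : t * (c - y) ≤ b :=
  (Nat.mul_le_mul_left t (Nat.sub_le_sub_left hxy c)).trans h

theorem sub_le (m r : ℕ) : BisRg.Sub m r ≤ 2 ^ m := by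
  rw [← Nat.sum_range_choose m]
  unfold BisRg.Sub
  refine Finset.sum_le_sum_of_ne_zero fun i _ hi => ?_
  rw [Finset.mem_range]
  by_contra h
  exact hi (Nat.choose_eq_zero_of_lt (by omega))

theorem length_eq (B : Un) (R : List (List Bool)) :
    (true :: (un R ++ B)).length = R.length + B.length + 1 := by
  rw [List.length_cons, List.length_append, un_length]

theorem le_algG (D : ℕ) (W T B : Un) (R : List (List Bool)) (hD : D ≤ R.length + B.length) :
    algGD D W T B R ≤ algG W T B R := by
  unfold algG maxL
  refine Pool.Agent.BisRg.ALW_.le_foldl_max _ _ _ (List.mem_map.2 ⟨D, ?_, rfl⟩)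
  rw [List.mem_range, length_eq]
  omega

theorem cs_eq (B : Un) (R : List (List Bool)) :
    cs R (List.range R.length, List.range B.length) = cnt R (List.range B.length) := by
  unfold cs
  simp only
  rw [Pool.Agent.BisRt.GRA_.map_getD_range]

theorem nb_le (adj : ℕ → ℕ → Bool) (n i : ℕ) : (nb adj (range n) i).card ≤ n := by
  unfold nb
  have h := Finset.card_filter_le (range n) fun j => adj i j = true
  rwa [Finset.card_range] at h

/-- The first algorithm with trivial parameters. -/
theorem brute (W T B : Un) (R : List (List Bool)) (hR : 2 ^ R.length ≤ W.length)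
    (hB : 2 ^ B.length ≤ W.length) :
    T.length * (cnt R (List.range B.length) - algW W T B R) ≤ cnt R (List.range B.length) := by
  refine tALW.2 1 (min R.length B.length) le_rfl W T B R ?_ ?_ ((sub_le _ _).trans hR)
    ((sub_le _ _).trans hB)
  · intro X' Y' hX hY
    have h1 := hX.length_le
    have h2 := hY.length_le
    rw [List.length_range] at h2
    have h3 : max R.length B.length + min R.length B.length = R.length + B.length :=
      max_add_min _ _
    omega
  · exact (Nat.pow_le_pow_right (by norm_num) (min_le_left _ _)).trans hR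

end ALT_

open ALT_ in
/-- The whole algorithm. -/
theorem v_ALT (h_ERR : V_ERR) : V_ALT := by
  obtain ⟨e1, e2⟩ := h_ERR
  refine ⟨fun W T B R => ?_, fun D c κ k W T B R hR hD hκ hC hL hU hk hW => ?_⟩
  · unfold algH
    rw [maxL_two]
    refine max_le ?_ (tALW.1 _ _ _ _)
    unfold algG maxL
    refine Pool.Agent.BisRg.ALW_.foldl_max_le _ _ _ (Nat.zero_le _) fun n hn => ?_
    obtain ⟨D, hD, rfl⟩ := List.mem_map.1 hn
    rw [List.mem_range, length_eq] at hD
    rw [← cs_eq]
    exact e1 D W T B R (by omega)
  · have hle1 : algG W T B R ≤ algH W T B R := by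
      unfold algH
      rw [maxL_two]
      exact le_max_left _ _
    have hle2 : algW (pw 135 W) T B R ≤ algH W T B R := by
      unfold algH
      rw [maxL_two]
      exact le_max_right _ _
    have hsz : 1 ≤ Nat.size κ := Nat.size_pos.2 (by omega)
    have hsN : R.length + B.length ≤ Nat.size κ * (R.length + B.length) :=
      Nat.le_mul_of_pos_left _ hsz
    have hpow : ∀ m : ℕ, m ≤ 135 * k → 2 ^ m ≤ (pw 135 W).length := by
      intro m hm
      rw [pw_length]
      calc 2 ^ m ≤ 2 ^ (135 * k) := Nat.pow_le_pow_right (by norm_num) hm
        _ = (2 ^ k) ^ 135 := by rw [← pow_mul, mul_comm]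
        _ ≤ W.length ^ 135 := Nat.pow_le_pow_left hW _
    have hbr : R.length + B.length ≤ 135 * k →
        T.length * (cnt R (List.range B.length) - algH W T B R) ≤
          cnt R (List.range B.length) := fun h =>
      err_mono hle2 (brute (pw 135 W) T B R (hpow _ (by omega)) (hpow _ (by omega)))
    have hmain : ∀ D' κ' : ℕ, 135 ≤ D' → D' ≤ R.length + B.length → 1 ≤ κ' → Cond D' c B R →
        (∀ i < R.length, (nb (aj R) (range B.length) i).card ≤ κ' * D') →
        (∀ j < B.length, (nb (tr (aj R)) (range R.length) j).card ≤ κ' * D') →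
        Nat.size κ' * (R.length + B.length) + D' * c ≤ D' * k →
        T.length * (cnt R (List.range B.length) - algH W T B R) ≤
          cnt R (List.range B.length) := by
      intro D' κ' h1 h2 h3 h4 h5 h6 h7
      have h8 := e2 D' c κ' k W T B R hR h1 h2 h3 h4 h5 h6 h7 hW
      rw [cs_eq] at h8
      exact (err_mono ((le_algG D' W T B R h2).trans hle1) h8).trans
        (Pool.Agent.BisRg.ALD_.two_pow_le R B)
    by_cases hD135 : D < 135
    · refine hbr ?_
      have h1 : D * k ≤ 135 * k := Nat.mul_le_mul_right _ (by omega)
      omega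
    rcases Nat.eq_zero_or_pos (R.length + B.length) with hN | hN
    · exact hbr (by omega)
    have hck : c + 1 ≤ k := by
      have h1 : D * c < D * k := by omega
      have := Nat.lt_of_mul_lt_mul_left h1
      omega
    by_cases hN135 : R.length + B.length < 135
    · exact hbr (by omega)
    rcases le_total D (R.length + B.length) with h | h
    · exact hmain D κ (by omega) h hκ hC hL hU hk
    · refine hmain (R.length + B.length) 1 (by omega) le_rfl le_rfl
        (Pool.Agent.BisRg.ALW_.cond_mono hC h) ?_ ?_ ?_
      · intro i _
        have := nb_le (aj R) B.length i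
        omega
      · intro j _
        have := nb_le (tr (aj R)) R.length j
        omega
      · have h1 : Nat.size 1 = 1 := Nat.size_one
        rw [h1, one_mul]
        calc R.length + B.length + (R.length + B.length) * c
            = (R.length + B.length) * (c + 1) := by ring
          _ ≤ (R.length + B.length) * k := Nat.mul_le_mul_left _ hck

end Pool.Agent.BisRf
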