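import Pool.Agent.BisRf.Targets
import Pool.Agent.BisRt.P_BST
import Pool.Agent.BisRt.P_LNK

/-!
# The best vertex

MP_29585b_lc, project BRF, block BST.
-/

set_option autoImplicit false

namespace Pool.Agent.BisRf

open Finset Pool.Agent.PT Pool.Agent.BisTh Pool.Agent.BisRg Pool.Agent.BisRt

namespace BST_

theorem mem_candsF (D : ℕ) (V : List ℕ) (R : List (List Bool)) (F : List (ℕ × ℕ)) (s : SI)
    (c : Bool × ℕ × ℕ) :
    c ∈ candsF D V R F s ↔
      (∃ i ∈ s.1, D < 5 * (nbr R s.2 i).length ∧ c = (false, i, costL D V R F s i)) ∨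
      ∃ j ∈ s.2, D < 5 * (nbl R s.1 j).length ∧ c = (true, j, costR D V R F s j) := by
  unfold candsF
  rw [List.mem_append, List.mem_map, List.mem_map]
  constructor
  · rintro (⟨i, hi, h⟩ | ⟨j, hj, h⟩)
    · rw [List.mem_filter, Pool.Agent.BisRt.BST_.big_iff] at hi
      exact Or.inl ⟨i, hi.1, hi.2, h.symm⟩
    · rw [List.mem_filter, Pool.Agent.BisRt.BST_.big_iff] at hj
      exact Or.inr ⟨j, hj.1, hj.2, h.symm⟩
  · rintro (⟨i, hi, h, rfl⟩ | ⟨j, hj, h, rfl⟩)
    · exact Or.inl ⟨i, by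
        rw [List.mem_filter, Pool.Agent.BisRt.BST_.big_iff]; exact ⟨hi, h⟩, rfl⟩
    · exact Or.inr ⟨j, by
        rw [List.mem_filter, Pool.Agent.BisRt.BST_.big_iff]; exact ⟨hj, h⟩, rfl⟩

end BST_

open BST_ in
theorem v_BST (h_LNK : V_LNK) : V_BST := by
  intro R F n N D s hs hDN
  obtain ⟨l1, l2, -, -, -⟩ := p_LNK R n s hs
  obtain ⟨l3, l4, -, -⟩ := h_LNK R F n N D s hs hDN
  have hA : ∀ i, i ∈ hi (aj R) D s.1.toFinset s.2.toFinset ↔
      i ∈ s.1 ∧ D < 5 * (nbr R s.2 i).length := by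
    intro i
    unfold hi
    rw [Finset.mem_filter, List.mem_toFinset, l1 i]
  have hB : ∀ j, j ∈ hi (tr (aj R)) D s.2.toFinset s.1.toFinset ↔
      j ∈ s.2 ∧ D < 5 * (nbl R s.1 j).length := by
    intro j
    unfold hi
    rw [Finset.mem_filter, List.mem_toFinset, l2 j]
  constructor
  · intro h
    constructor
    · refine Finset.eq_empty_of_forall_notMem fun i hi' => ?_
      rw [hA] at hi'
      have : (false, i, costL D (List.range N) R F s i) ∈ candsF D (List.range N) R F s :=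
        (mem_candsF _ _ _ _ _ _).2 (Or.inl ⟨i, hi'.1, hi'.2, rfl⟩)
      rw [h] at this
      simp at this
    · refine Finset.eq_empty_of_forall_notMem fun j hj' => ?_
      rw [hB] at hj'
      have : (true, j, costR D (List.range N) R F s j) ∈ candsF D (List.range N) R F s :=
        (mem_candsF _ _ _ _ _ _).2 (Or.inr ⟨j, hj'.1, hj'.2, rfl⟩)
      rw [h] at this
      simp at this
  · intro h
    obtain ⟨hm, hmax⟩ := Pool.Agent.BisRt.BST_.best_spec _ h
    have hm' := (mem_candsF _ _ _ _ _ _).1 hm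
    refine ⟨?_, ?_, ?_, ?_⟩
    · intro h1
      rcases hm' with ⟨i, hi1, hi2, he⟩ | ⟨j, hj1, hj2, he⟩
      · rw [he]
        exact ⟨(hA i).2 ⟨hi1, hi2⟩, l3 i⟩
      · rw [he] at h1; simp at h1
    · intro h1
      rcases hm' with ⟨i, hi1, hi2, he⟩ | ⟨j, hj1, hj2, he⟩
      · rw [he] at h1; simp at h1
      · rw [he]
        exact ⟨(hB j).2 ⟨hj1, hj2⟩, l4 j⟩
    · intro i hi'
      rw [hA] at hi'
      have := hmax (false, i, costL D (List.range N) R F s i)
        ((mem_candsF _ _ _ _ _ _).2 (Or.inl ⟨i, hi'.1, hi'.2, rfl⟩))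
      rw [← l3 i]
      exact this
    · intro j hj'
      rw [hB] at hj'
      have := hmax (true, j, costR D (List.range N) R F s j)
        ((mem_candsF _ _ _ _ _ _).2 (Or.inr ⟨j, hj'.1, hj'.2, rfl⟩))
      rw [← l4 j]
      exact this

end Pool.Agent.BisRf
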