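import Pool.Agent.BisRf.Targets
import Pool.Agent.BisRt.P_KID
import Pool.Agent.BisRt.P_CSK

/-!
# Target CBD: the weight bounds the number of independent pairs (spread matchings)
-/

set_option autoImplicit false

namespace Pool.Agent.BisRf

open Finset Pool.Agent.PT Pool.Agent.BisTh Pool.Agent.BisRg Pool.Agent.BisRt

namespace CBD_

lemma one_le_gr (g : ℕ) : 1 ≤ gr g := by
  unfold gr
  have := Real.exp_pos (-(g : ℝ))
  linarith

/-- The induction step for two children. -/
lemma step {R : List (List Bool)} {e g : ℕ} {w : SI → ℝ} {c : Bool × ℕ × ℕ} {s s₁ s₂ : SI}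
    (hk : kids R c s = [s₁, s₂]) (hs : ((kids R c s).map (cs R)).sum = cs R s)
    (hW : ((kids R c s).map w).sum ≤ gr g * w s)
    (h1 : s₁.1.length + s₁.2.length < s.1.length + s.2.length)
    (h2 : s₂.1.length + s₂.2.length < s.1.length + s.2.length)
    (p1 : 0 < w s₁) (p2 : 0 < w s₂)
    (i1 : (cs R s₁ : ℝ) ≤ 2 ^ e * gr g ^ (s₁.1.length + s₁.2.length) * w s₁)
    (i2 : (cs R s₂ : ℝ) ≤ 2 ^ e * gr g ^ (s₂.1.length + s₂.2.length) * w s₂) :
    (cs R s : ℝ) ≤ 2 ^ e * gr g ^ (s.1.length + s.2.length) * w s := by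
  rw [hk] at hs hW
  simp only [List.map_cons, List.map_nil, List.sum_cons, List.sum_nil, add_zero] at hs hW
  obtain ⟨N, hN⟩ : ∃ N, s.1.length + s.2.length = N + 1 := ⟨s.1.length + s.2.length - 1, by omega⟩
  rw [hN] at h1 h2 ⊢
  have hg := one_le_gr g
  have q1 : gr g ^ (s₁.1.length + s₁.2.length) ≤ gr g ^ N :=
    pow_le_pow_right₀ hg (by omega)
  have q2 : gr g ^ (s₂.1.length + s₂.2.length) ≤ gr g ^ N :=
    pow_le_pow_right₀ hg (by omega)
  have h2n : (0 : ℝ) ≤ 2 ^ e := by positivity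
  have r1 : (cs R s₁ : ℝ) ≤ 2 ^ e * gr g ^ N * w s₁ :=
    i1.trans (mul_le_mul_of_nonneg_right (mul_le_mul_of_nonneg_left q1 h2n) p1.le)
  have r2 : (cs R s₂ : ℝ) ≤ 2 ^ e * gr g ^ N * w s₂ :=
    i2.trans (mul_le_mul_of_nonneg_right (mul_le_mul_of_nonneg_left q2 h2n) p2.le)
  have hc : (cs R s : ℝ) = cs R s₁ + cs R s₂ := by
    rw [← hs]
    push_cast
    ring
  have hgN : (0 : ℝ) ≤ 2 ^ e * gr g ^ N := mul_nonneg h2n (pow_nonneg (by linarith) _)
  calc (cs R s : ℝ) = cs R s₁ + cs R s₂ := hc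
    _ ≤ 2 ^ e * gr g ^ N * w s₁ + 2 ^ e * gr g ^ N * w s₂ := add_le_add r1 r2
    _ = 2 ^ e * gr g ^ N * (w s₁ + w s₂) := by ring
    _ ≤ 2 ^ e * gr g ^ N * (gr g * w s) := mul_le_mul_of_nonneg_left hW hgN
    _ = 2 ^ e * gr g ^ (N + 1) * w s := by ring

end CBD_

theorem v_CBD (h_BST : V_BST) (h_WKD : V_WKD) (h_LFB : V_LFB) (h_WRT : V_WRT) : V_CBD := by
  intro R F n N D κ m g hR hκ hg hDN
  have h_KID : T_KID := p_KID
  have h_CSK : T_CSK := p_CSK
  have hD1 : 1 ≤ D := by omega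
  have hpos : ∀ s' : SI, 0 < WF R F D κ m (69 / 100) s' := by
    intro s'
    obtain ⟨w1, w2, -⟩ := (h_WRT R F D κ m hD1 hκ).1 s'
    rw [w2]
    exact mul_pos (Real.exp_pos _) w1
  have key : ∀ N' : ℕ, ∀ s : SI, s.1.length + s.2.length = N' → GoodS n s →
      0 ≤ SG F D m s → (cs R s : ℝ) ≤
      2 ^ m * gr g ^ (s.1.length + s.2.length) * WF R F D κ m (69 / 100) s := by
    intro N'
    induction N' using Nat.strong_induction_on with
    | _ N' ih =>
      intro s hN hs hsg
      by_cases hc : candsF D (List.range N) R F s = []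
      · have hlow := (h_BST R F n N D s hs hDN).1 hc
        have h1 := h_LFB R F n D m hR.1 (by omega) s hs hlow hsg
        have h2 := ((h_WRT R F D κ m hD1 hκ).1 s).2.2 (69 / 100)
        have h3 : 1 ≤ gr g ^ (s.1.length + s.2.length) := one_le_pow₀ (CBD_.one_le_gr g)
        have h4 : (0 : ℝ) ≤ 2 ^ m := by positivity
        have h5 := hpos s
        calc (cs R s : ℝ) ≤ 2 ^ m * Real.exp (-(69 / 100 * SG F D m s)) := h1
          _ ≤ 2 ^ m * WF R F D κ m (69 / 100) s := mul_le_mul_of_nonneg_left h2 h4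
          _ = 2 ^ m * 1 * WF R F D κ m (69 / 100) s := by ring
          _ ≤ 2 ^ m * gr g ^ (s.1.length + s.2.length) * WF R F D κ m (69 / 100) s :=
            mul_le_mul_of_nonneg_right (mul_le_mul_of_nonneg_left h3 h4) h5.le
      · have hch := (h_BST R F n N D s hs hDN).2 hc
        obtain ⟨hW, hS⟩ := h_WKD R F n D κ m g hR hκ hg (69 / 100) (by norm_num) s _ hs hch
        generalize best (candsF D (List.range N) R F s) = c at hch hW hS
        obtain ⟨b, u, t⟩ := c
        obtain ⟨c1, c2, -, -⟩ := hch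
        cases b with
        | false =>
          have hu : u ∈ s.1 := by
            have h6 := (c1 rfl).1
            exact List.mem_toFinset.1 (Finset.mem_filter.1 h6).1
          obtain ⟨s₁, s₂, hk, g1, g2, -, -, -, -, l1, l2⟩ := (h_KID R n s hs).1 u t hu
          have hsum := (h_CSK R s hs.1 hs.2.1).1 u t hu
          rw [hk] at hS
          have k1 := hsg.trans (hS s₁ (by simp))
          have k2 := hsg.trans (hS s₂ (by simp))
          exact CBD_.step hk hsum hW l1 l2 (hpos s₁) (hpos s₂)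
            (ih _ (by omega) s₁ rfl g1 k1) (ih _ (by omega) s₂ rfl g2 k2)
        | true =>
          have hv : u ∈ s.2 := by
            have h6 := (c2 rfl).1
            exact List.mem_toFinset.1 (Finset.mem_filter.1 h6).1
          obtain ⟨s₁, s₂, hk, g1, g2, -, -, -, -, l1, l2⟩ := (h_KID R n s hs).2 u t hv
          have hsum := (h_CSK R s hs.1 hs.2.1).2 u t hv
          rw [hk] at hS
          have k1 := hsg.trans (hS s₁ (by simp))
          have k2 := hsg.trans (hS s₂ (by simp))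
          exact CBD_.step hk hsum hW l1 l2 (hpos s₁) (hpos s₂)
            (ih _ (by omega) s₁ rfl g1 k1) (ih _ (by omega) s₂ rfl g2 k2)
  intro s hs hsg
  exact key _ s rfl hs hsg

end Pool.Agent.BisRf
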