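import Pool.Agent.BisRf.Targets
import Pool.Agent.BisRt.P_EDG

/-!
# CUT: no augmentation (MP_29585b_lc)
-/

set_option autoImplicit false

namespace Pool.Agent.BisRf

open Finset Pool.Agent.PT Pool.Agent.BisTh Pool.Agent.BisRg Pool.Agent.BisRt

namespace CUT_

theorem mem_edgesL (B : Un) (R : List (List Bool)) (i j : ℕ) :
    (i, j) ∈ edgesL B R ↔ i < R.length ∧ j < B.length ∧ aj R i j = true := by
  unfold edgesL
  simp only [List.mem_flatMap, List.mem_range, List.mem_map, List.mem_filter, Prod.mk.injEq]
  constructor
  · rintro ⟨i', hi, j', ⟨hj, ha⟩, rfl, rfl⟩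
    exact ⟨hi, hj, ha⟩
  · rintro ⟨hi, hj, ha⟩
    exact ⟨i, hi, j, ⟨hj, ha⟩, rfl, rfl⟩

theorem aF_iff (F : List (ℕ × ℕ)) (i j : ℕ) : aF F i j = true ↔ (i, j) ∈ F := by
  unfold aF
  simp only [List.any_eq_true, Bool.and_eq_true, decide_eq_true_eq]
  constructor
  · rintro ⟨⟨x, y⟩, h, h1, h2⟩
    simp only at h1 h2
    rw [← h1, ← h2]
    exact h
  · intro h
    exact ⟨(i, j), h, rfl, rfl⟩

theorem aug_nil {D : ℕ} {E F : List (ℕ × ℕ)} {Z : List Rec} (h : aug D E F Z = [])
    {e : ℕ × ℕ} (he : e ∈ E) (hd : dL F e.1 < D) (hf : e ∉ F) {z : Rec} (hz : z ∈ Z)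
    (hz1 : z.1 = e.2) : False := by
  unfold aug at h
  rw [List.flatMap_eq_nil_iff] at h
  have h1 := h e he
  have hc : (decide (dL F e.1 < D) && !(aF F e.1 e.2)) = true := by
    have h3 : aF F e.1 e.2 = false := by
      rw [Bool.eq_false_iff]
      intro h2
      exact hf ((aF_iff F e.1 e.2).mp h2)
    rw [h3, decide_eq_true hd]
    rfl
  rw [hc, cond_true, List.map_eq_nil_iff, List.filter_eq_nil_iff] at h1
  exact h1 z hz (decide_eq_true hz1)

theorem dL_card (F : List (ℕ × ℕ)) (hF : F.Nodup) (i : ℕ) :
    dL F i = (F.toFinset.filter fun e => e.1 = i).card := by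
  unfold dL
  rw [← List.toFinset_card_of_nodup (hF.filter _), List.toFinset_filter]
  congr 1
  ext e
  simp

theorem dR_card (F : List (ℕ × ℕ)) (hF : F.Nodup) (j : ℕ) :
    dR F j = (F.toFinset.filter fun e => e.2 = j).card := by
  unfold dR
  rw [← List.toFinset_card_of_nodup (hF.filter _), List.toFinset_filter]
  congr 1
  ext e
  simp

theorem map_getD (R : List (List Bool)) :
    (List.range R.length).map (fun i => R.getD i []) = R := by
  apply List.ext_getElem
  · simp
  · intro i h1 h2
    simp [List.getElem?_eq_getElem h2]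

open Classical in
/-- a sum over fibres -/
theorem fib {S : Finset (ℕ × ℕ)} (f : ℕ × ℕ → ℕ) (A : Finset ℕ) (D : ℕ)
    (hA : ∀ i ∈ A, D ≤ (S.filter fun e => f e = i).card) :
    D * A.card ≤ (S.filter fun e => f e ∈ A).card := by
  have h1 : (S.filter fun e => f e ∈ A).card =
      ∑ i ∈ A, ((S.filter fun e => f e ∈ A).filter fun e => f e = i).card :=
    Finset.card_eq_sum_card_fiberwise fun e he => (Finset.mem_filter.mp he).2
  rw [h1, mul_comm, ← smul_eq_mul]
  refine Finset.card_nsmul_le_sum A _ D fun i hi => (hA i hi).trans (Finset.card_le_card ?_)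
  intro e he
  rw [Finset.mem_filter] at he
  rw [Finset.mem_filter, Finset.mem_filter]
  exact ⟨⟨he.1, by rw [he.2]; exact hi⟩, he.2⟩

end CUT_

open CUT_ in
open Classical in
/-- **CUT** -/
theorem v_CUT (h_ZST : V_ZST) : V_CUT := by
  intro D c B R F _ hM haug hC
  set E := edgesL B R with hE
  set Z := zs D E F (List.range B.length) with hZ
  have hmE : ∀ i j : ℕ, (i, j) ∈ E ↔ i < R.length ∧ j < B.length ∧ aj R i j = true := fun i j =>
    mem_edgesL B R i j
  have hEJ : ∀ e ∈ E, e.2 ∈ List.range B.length := by
    rintro ⟨i, j⟩ he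
    exact List.mem_range.mpr ((hmE i j).mp he).2.1
  obtain ⟨-, z2, z3⟩ := h_ZST D E F (List.range B.length) List.nodup_range hM hEJ
  obtain ⟨hnd, hFE, -, -⟩ := hM
  let pZ : ℕ → Prop := fun j => ∃ z ∈ Z, z.1 = j
  let pA : ℕ → Prop := fun i => ∃ j, (i, j) ∈ E ∧ (i, j) ∉ F ∧ pZ j
  let s : SI := ((List.range R.length).filter (fun i => decide (¬ pA i)),
    (List.range B.length).filter (fun j => decide (pZ j)))
  have hs1 : s.1.toFinset = (range R.length).filter fun i => ¬ pA i := by
    ext i
    simp [s]
  have hs2 : s.2.toFinset = (range B.length).filter fun j => pZ j := by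
    ext j
    simp [s]
  have hn1 : s.1.Nodup := List.nodup_range.filter _
  have hn2 : s.2.Nodup := List.nodup_range.filter _
  have hgood : GoodS (max R.length B.length) s := by
    refine ⟨hn1, hn2, ?_, ?_⟩
    · intro i hi
      have := List.mem_range.mp (List.mem_of_mem_filter hi)
      simp only [lt_max_iff]
      exact Or.inl this
    · intro j hj
      have := List.mem_range.mp (List.mem_of_mem_filter hj)
      simp only [lt_max_iff]
      exact Or.inr this
  obtain ⟨-, -, hed⟩ := p_EDG R (max R.length B.length) s hgood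
  have hsub1 : (rws R s).Sublist R := by
    have h := (List.filter_sublist (p := fun i => decide (¬ pA i))
      (l := List.range R.length)).map (fun i => R.getD i [])
    rw [map_getD] at h
    exact h
  have hsub2 : s.2.Sublist (List.range B.length) := List.filter_sublist
  have hcond := hC (rws R s) s.2 hsub1 hsub2
  have hl1 : (rws R s).length = ((range R.length).filter fun i => ¬ pA i).card := by
    unfold rws
    rw [List.length_map, ← hs1, List.toFinset_card_of_nodup hn1]
  have hl2 : s.2.length = ((range B.length).filter fun j => pZ j).card := by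
    rw [← hs2, List.toFinset_card_of_nodup hn2]
  have ha : ((range R.length).filter fun i => pA i).card +
      ((range R.length).filter fun i => ¬ pA i).card = R.length := by
    rw [Finset.card_filter_add_card_filter_not, card_range]
  have hb : ((range B.length).filter fun j => pZ j).card +
      ((range B.length).filter fun j => ¬ pZ j).card = B.length := by
    rw [Finset.card_filter_add_card_filter_not, card_range]
  -- the edges
  set S := F.toFinset with hS
  have hFl : F.length = S.card := (List.toFinset_card_of_nodup hnd).symm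
  have hmS : ∀ e, e ∈ S ↔ e ∈ F := fun e => List.mem_toFinset
  have q1 : D * ((range R.length).filter fun i => pA i).card ≤
      (S.filter fun e => e.1 ∈ (range R.length).filter fun i => pA i).card := by
    refine fib (fun e => e.1) _ D fun i hi => ?_
    rw [Finset.mem_filter] at hi
    obtain ⟨j, he, hf, z, hz, hzj⟩ := hi.2
    rw [← dL_card F hnd i]
    by_contra hlt
    exact aug_nil haug he (not_le.mp hlt) hf hz hzj
  have q2 : D * ((range B.length).filter fun j => ¬ pZ j).card ≤
      (S.filter fun e => e.2 ∈ (range B.length).filter fun j => ¬ pZ j).card := by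
    refine fib (fun e => e.2) _ D fun j hj => ?_
    rw [Finset.mem_filter, Finset.mem_range] at hj
    rw [← dR_card F hnd j]
    by_contra hlt
    exact hj.2 (z2 j (List.mem_range.mpr hj.1) (not_le.mp hlt))
  have q3 : edges (rws R s) s.2 ≤ (S.filter fun e =>
      e.1 ∉ (range R.length).filter (fun i => pA i) ∧
      e.2 ∉ (range B.length).filter fun j => ¬ pZ j).card := by
    rw [hed, hs1, hs2, ← Finset.card_sigma]
    refine Finset.card_le_card_of_injOn (fun x => (x.1, x.2)) ?_ ?_
    · rintro ⟨i, j⟩ hx
      simp only [Finset.coe_sigma, Set.mem_sigma_iff, Finset.mem_coe] at hx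
      obtain ⟨h1, h2⟩ := hx
      unfold nb at h2
      rw [Finset.mem_filter, Finset.mem_range] at h1
      rw [Finset.mem_filter, Finset.mem_filter, Finset.mem_range] at h2
      simp only [Finset.coe_filter, Set.mem_ofPred_eq]
      have hE' : (i, j) ∈ E := (hmE i j).mpr ⟨h1.1, h2.1.1, h2.2⟩
      refine ⟨(hmS _).mpr ?_, ?_, ?_⟩
      · by_contra hf
        exact h1.2 ⟨j, hE', hf, h2.1.2⟩
      · rw [Finset.mem_filter]
        exact fun h => h1.2 h.2
      · rw [Finset.mem_filter]
        exact fun h => h.2 h2.1.2
    · rintro ⟨i, j⟩ _ ⟨i', j'⟩ _ h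
      simp only [Prod.mk.injEq] at h
      obtain ⟨rfl, rfl⟩ := h
      rfl
  have hdis : Disjoint (S.filter fun e => e.1 ∈ (range R.length).filter fun i => pA i)
      (S.filter fun e => e.2 ∈ (range B.length).filter fun j => ¬ pZ j) := by
    rw [Finset.disjoint_left]
    intro e h1 h2
    rw [Finset.mem_filter, Finset.mem_filter] at h1 h2
    obtain ⟨j, he, hf, z, hz, hzj⟩ := h1.2.2
    refine h2.2.2 ?_
    subst hzj
    exact z3 e ((hmS e).mp h1.1) z hz he hf
  have hdis2 : Disjoint ((S.filter fun e => e.1 ∈ (range R.length).filter fun i => pA i) ∪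
      (S.filter fun e => e.2 ∈ (range B.length).filter fun j => ¬ pZ j))
      (S.filter fun e => e.1 ∉ (range R.length).filter (fun i => pA i) ∧
      e.2 ∉ (range B.length).filter fun j => ¬ pZ j) := by
    rw [Finset.disjoint_left]
    intro e h1 h2
    rw [Finset.mem_union] at h1
    have h3 := (Finset.mem_filter.mp h2).2
    rcases h1 with h1 | h1
    · exact h3.1 (Finset.mem_filter.mp h1).2
    · exact h3.2 (Finset.mem_filter.mp h1).2
  have hsum : (S.filter fun e => e.1 ∈ (range R.length).filter fun i => pA i).card +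
      (S.filter fun e => e.2 ∈ (range B.length).filter fun j => ¬ pZ j).card +
      (S.filter fun e => e.1 ∉ (range R.length).filter (fun i => pA i) ∧
      e.2 ∉ (range B.length).filter fun j => ¬ pZ j).card ≤ S.card := by
    rw [← Finset.card_union_of_disjoint hdis, ← Finset.card_union_of_disjoint hdis2]
    refine Finset.card_le_card ?_
    intro e he
    rw [Finset.mem_union, Finset.mem_union] at he
    rcases he with (he | he) | he
    · exact (Finset.mem_filter.mp he).1
    · exact (Finset.mem_filter.mp he).1
    · exact (Finset.mem_filter.mp he).1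
  rw [hl1, hl2] at hcond
  rw [hFl]
  set x1 := ((range R.length).filter fun i => pA i).card
  set x2 := ((range R.length).filter fun i => ¬ pA i).card
  set y1 := ((range B.length).filter fun j => pZ j).card
  set y2 := ((range B.length).filter fun j => ¬ pZ j).card
  calc D * (R.length + B.length) = D * x1 + D * y2 + D * (x2 + y1) := by
        rw [← ha, ← hb]
        ring
    _ ≤ D * x1 + D * y2 + (D * (max R.length B.length + c) + edges (rws R s) s.2) := by
        exact Nat.add_le_add_left hcond _
    _ ≤ _ := by
        linarith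

end Pool.Agent.BisRf
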