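import Pool.Agent.BisRf.Targets
import Pool.Agent.BisRu.P_ERR

/-!
# ERR: the error of the value for a fixed threshold
-/

set_option autoImplicit false

namespace Pool.Agent.BisRf

open Finset Pool.Agent.PT Pool.Agent.BisTh Pool.Agent.BisRg Pool.Agent.BisRt

namespace ERR_

/-- The states after all rounds. -/
def LvG (D : ℕ) (W T B : Un) (R : List (List Bool)) : List SI :=
  roundsG D (limDG D W T (vG B R)) (capG W T) (vG B R) (mG B R) R (maxM D B R)
    [(List.range R.length, List.range B.length)]

theorem vG_eq (B : Un) (R : List (List Bool)) : vG B R = List.range (R.length + B.length) := by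
  unfold vG
  rw [List.length_append, un_length]

theorem mG_len (B : Un) (R : List (List Bool)) : (mG B R).length = max R.length B.length := by
  unfold mG
  by_cases h : R.length ≤ B.length
  · rw [decide_eq_true h, cond_true, List.length_range, max_eq_right h]
  · rw [decide_eq_false h, cond_false, List.length_range, max_eq_left (by omega)]

theorem algGD_eq (D : ℕ) (W T B : Un) (R : List (List Bool)) :
    algGD D W T B R = ((LvG D W T B R).map fun s =>
      apx (bud (capG W T) (T ++ T)).length (rws R s) s.2).sum := by
  unfold algGD
  rw [tot_flatMap_leafExp, List.map_map]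
  rfl

theorem capG_length (W T : Un) :
    (capG W T).length = (2 * W.length + 2 * T.length + 3) ^ 7000 := by
  unfold capG
  rw [pw_length]
  have h : (W ++ W ++ T ++ T ++ [true, true, true]).length =
      2 * W.length + 2 * T.length + 3 := by
    simp only [List.length_append, List.length_cons, List.length_nil]
    omega
  rw [h]

theorem le_capG (W T : Un) : W.length ≤ (capG W T).length := by
  rw [capG_length]
  exact BisRu.ERR_.le_pow_of_le _ _ _ (by norm_num) (by omega)

theorem flatN_length {α : Type} (l : List ℕ) (P : List α) : (l.flatMap fun _ => P).length =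
    l.length * P.length := by
  induction l with
  | nil => simp
  | cons x l ih => rw [List.flatMap_cons, List.length_append, ih, List.length_cons]; ring

theorem dl_length (D n : ℕ) (h : D ≤ n) : (dl D (List.range n)).length = D := by
  unfold dl
  exact BisRu.ERR_.filter_range D n h

theorem limDG_eq (D n : ℕ) (W T : Un) (h : D ≤ n) :
    limDG D W T (List.range n) =
      D * (3600 * (Nat.size W.length + Nat.size T.length + 1)) := by
  unfold limDG
  rw [flatN_length, dl_length D n h]
  unfold limG
  rw [rep_length, List.length_append, List.length_append, ← Nat.size_eq_bits_len,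
    ← Nat.size_eq_bits_len, List.length_singleton]

end ERR_

open ERR_ BisRu.ERR_ in
theorem v_ERR (h_RND : V_RND) (h_RLB : V_RLB) (h_LFE : V_LFE) (h_NUM : V_NUM) (h_MXM : V_MXM)
    (h_FRG : V_FRG) (h_LNK : V_LNK) : V_ERR := by
  refine ⟨fun D W T B R hD => ?_, fun D c κ k W T B R hlen hD hDN hκ hcond hL hR hk hw => ?_⟩
  · rw [algGD_eq]
    have h1 := h_RLB R (maxM D B R) R.length B.length D (limDG D W T (vG B R)) (capG W T)
      (mG B R) hD
    rw [← vG_eq] at h1
    refine le_trans ?_ h1
    exact List.sum_le_sum fun s _ => apx_le _ _ _
  · rcases Nat.eq_zero_or_pos T.length with ht | ht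
    · rw [ht, Nat.zero_mul]
      exact Nat.zero_le _
    have hD1 : 1 ≤ D := by omega
    have hσ : 1 ≤ Nat.size κ := Nat.size_pos.2 (by omega)
    have hg : 125 * ((D - 10) / 125) + 10 ≤ D := by omega
    have hFR := h_FRG D κ B R hlen hL hR
    obtain ⟨-, hm2, hm3, hm4⟩ := h_MXM D B R hlen
    have hm5 := hm2 c hcond
    have hgood : GoodS (max R.length B.length) (List.range R.length, List.range B.length) := by
      refine ⟨List.nodup_range, List.nodup_range, fun i hi => ?_, fun j hj => ?_⟩
      · exact lt_of_lt_of_le (List.mem_range.1 hi) (le_max_left _ _)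
      · exact lt_of_lt_of_le (List.mem_range.1 hj) (le_max_right _ _)
    obtain ⟨-, -, hl3, -⟩ := h_LNK R (maxM D B R) _ (R.length + B.length) D _ hgood hDN
    have hD0 : (0 : ℝ) < D := by exact_mod_cast hD1
    have hsl : 0 ≤ SG (maxM D B R) D ((mG B R).length + c)
        (List.range R.length, List.range B.length) := by
      unfold SG sg
      rw [← hl3, hm3, mG_len]
      have e1 : ((List.range R.length).toFinset).card = R.length := by
        rw [List.toFinset_card_of_nodup List.nodup_range, List.length_range]
      have e2 : ((List.range B.length).toFinset).card = B.length := by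
        rw [List.toFinset_card_of_nodup List.nodup_range, List.length_range]
      have h5 : (D : ℝ) * (R.length + B.length) ≤
          (maxM D B R).length + D * ((max R.length B.length + c : ℕ) : ℝ) := by
        exact_mod_cast hm5
      have h6 : ((R.length : ℝ) + B.length) ≤
          ((max R.length B.length + c : ℕ) : ℝ) + ((maxM D B R).length : ℝ) / D := by
        rw [← sub_le_iff_le_add', le_div_iff₀ hD0]
        nlinarith
      show 0 ≤ _ - ((((List.range R.length).toFinset).card : ℝ) +
        ((List.range B.length).toFinset).card)
      rw [e1, e2]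
      linarith
    have hkeep : keep D (limDG D W T (vG B R)) (List.range (R.length + B.length)) (mG B R)
        (maxM D B R) (List.range R.length, List.range B.length) = true := by
      unfold keep
      rw [decide_eq_true_iff, flatN_length, flatN_length, dl_length D _ hDN, hm3, mG_len,
        List.length_append, List.length_range, List.length_range, Nat.mul_comm (max _ _),
        Nat.mul_comm (_ + _) D]
      omega
    have hn1 := h_NUM.1 (R.length + B.length) D hD
    obtain ⟨hn2, hn3⟩ := h_NUM.2 (R.length + B.length) (Nat.size κ) D c k W.length T.length hD1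
      hσ hk hw ht
    have hcap := capG_length W T
    have hlim := limDG_eq D (R.length + B.length) W T hDN
    rw [← vG_eq] at hlim
    rw [← hcap, ← hlim] at hn2
    rw [← hlim] at hn3
    have hgr0 : (0 : ℝ) ≤ gr ((D - 10) / 125) ^ (R.length + B.length) := by
      unfold gr
      positivity
    have hyp : gr ((D - 10) / 125) ^ (R.length + B.length) *
        Real.exp (38 * ((Nat.size κ * (R.length + B.length) : ℕ) / (D : ℝ))) *
        Real.exp (3 / 5 * (c + (limDG D W T (vG B R) : ℝ) / D)) ≤ ((capG W T).length : ℝ) := by
      refine le_trans ?_ hn2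
      refine mul_le_mul_of_nonneg_right ?_ (Real.exp_pos _).le
      exact mul_le_mul_of_nonneg_right hn1 (Real.exp_pos _).le
    obtain ⟨r1, r2, r3⟩ := h_RND R (maxM D B R) (max R.length B.length) R.length B.length D κ c
      ((D - 10) / 125) (limDG D W T (vG B R)) (capG W T) (mG B R) hFR hκ hg hDN (le_max_left _ _)
      (le_max_right _ _) hsl hkeep hyp
    rw [← vG_eq] at r1 r2 r3
    have hck : c ≤ k := by
      have h1 : D * c ≤ D * k := le_trans (Nat.le_add_left _ _) hk
      exact Nat.le_of_mul_le_mul_left h1 (by omega)
    have hQ : 2 ^ c ≤ (capG W T).length :=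
      ((Nat.pow_le_pow_right (by norm_num) hck).trans hw).trans (le_capG W T)
    have hcap1 : 1 ≤ (capG W T).length := le_trans Nat.one_le_two_pow hQ
    have hcast : ((LvG D W T B R).map fun s => (cs R s : ℝ)).sum =
        ((((LvG D W T B R).map (cs R)).sum : ℕ) : ℝ) := by
      rw [Nat.cast_list_sum, List.map_map]
      rfl
    unfold LvG at hcast
    rw [hcast] at r3
    have hM : Mf ((mG B R).length + c) D ((D - 10) / 125) (limDG D W T (vG B R))
        (R.length + B.length) =
        2 ^ max R.length B.length * 2 ^ c * gr ((D - 10) / 125) ^ (R.length + B.length) *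
          Real.exp (-(9 / 100 * ((limDG D W T (vG B R) : ℝ) / D))) := by
      unfold Mf
      rw [pow_add, mG_len]
    have hl := loss _ _ (T.length : ℝ) (2 ^ max R.length B.length) (2 ^ c) _ _ _ _ _
      (by positivity) (by positivity) (by positivity) hn1 hgr0 (Real.exp_pos _).le
      (Real.exp_pos _).le (Real.exp_pos _).le hM r3 hn3
    have hl' : 2 * T.length * (cs R (List.range R.length, List.range B.length) -
        ((LvG D W T B R).map (cs R)).sum) ≤ 2 ^ max R.length B.length := by
      exact_mod_cast hl
    have hbud : (bud (capG W T) (T ++ T)).length =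
        6 * ((T ++ T).length.size + 3 * (capG W T).length.size) := ALD_.bud_length _ _
    have herr : ∀ s ∈ LvG D W T B R,
        2 ^ ((T ++ T).length.size + 3 * (capG W T).length.size) *
          (cs R s - apx (bud (capG W T) (T ++ T)).length (rws R s) s.2) ≤
          2 ^ max R.length B.length * 2 ^ c := by
      intro s hs
      obtain ⟨q1, q2, q3⟩ := r1 s hs
      rw [hbud, ← pow_add, ← mG_len]
      exact h_LFE R (maxM D B R) (max R.length B.length) D _ hFR.1 hD1 s q1 q2 q3 _
    have h3 := sum_err R _ _ _ _ herr
    rw [← algGD_eq] at h3
    have h5 := ALD_.le_pow (T ++ T).length (capG W T).length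
    have h6 : (T ++ T).length = 2 * T.length := by rw [List.length_append]; ring
    rw [h6] at h5 h3
    have h7 := leaf_err T.length (capG W T).length _ _ _ _ _ hcap1 h5 r2 hQ h3
    exact combine _ _ _ _ _ hl' h7

end Pool.Agent.BisRf
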