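import Pool.Agent.BisRf.Targets

/-!
# BRF, block FRG: the degrees of the matching of the algorithm
-/

set_option autoImplicit false

namespace Pool.Agent.BisRf

open Finset Pool.Agent.PT Pool.Agent.BisTh Pool.Agent.BisRg Pool.Agent.BisRt

namespace FRG_

theorem aF_iff {F : List (ℕ × ℕ)} {i j : ℕ} : aF F i j = true ↔ (i, j) ∈ F := by
  unfold aF
  rw [List.any_eq_true]
  constructor
  · rintro ⟨e, he, h⟩
    rw [Bool.and_eq_true, decide_eq_true_eq, decide_eq_true_eq] at h
    have : e = (i, j) := Prod.ext h.1 h.2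
    rwa [← this]
  · intro h
    exact ⟨(i, j), h, by simp⟩

theorem aj_lt {B : Un} {R : List (List Bool)} (hR : ∀ u ∈ R, u.length = B.length) {i j : ℕ}
    (h : aj R i j = true) : i < R.length ∧ j < B.length := by
  unfold aj at h
  by_cases hi : i < R.length
  · refine ⟨hi, ?_⟩
    by_contra hj
    have h1 : (R.getD i []).length = B.length := by
      rw [List.getD_eq_getElem _ _ hi]
      exact hR _ (List.getElem_mem hi)
    rw [List.getD_eq_default (R.getD i []) false (by omega)] at h
    exact Bool.false_ne_true h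
  · have h1 : R.getD i [] = [] := List.getD_eq_default _ _ (by omega)
    rw [h1] at h
    simp at h

theorem card_L (F : List (ℕ × ℕ)) (n i : ℕ) : (nb (aF F) (range n) i).card ≤ dL F i := by
  unfold dL
  refine le_trans ?_ (List.toFinset_card_le _)
  refine card_le_card_of_injOn (fun j => (i, j)) ?_ ?_
  · intro j hj
    have h1 : (i, j) ∈ F := aF_iff.1 (mem_filter.1 (Finset.mem_coe.1 hj)).2
    refine Finset.mem_coe.2 (List.mem_toFinset.2 (List.mem_filter.2 ⟨h1, ?_⟩))
    simp
  · intro j _ j' _ h
    exact (Prod.ext_iff.1 h).2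

theorem card_R (F : List (ℕ × ℕ)) (n j : ℕ) : (nb (tr (aF F)) (range n) j).card ≤ dR F j := by
  unfold dR
  refine le_trans ?_ (List.toFinset_card_le _)
  refine card_le_card_of_injOn (fun i => (i, j)) ?_ ?_
  · intro i hi
    have h1 : (i, j) ∈ F := aF_iff.1 (mem_filter.1 (Finset.mem_coe.1 hi)).2
    refine Finset.mem_coe.2 (List.mem_toFinset.2 (List.mem_filter.2 ⟨h1, ?_⟩))
    simp
  · intro i _ i' _ h
    exact (Prod.ext_iff.1 h).1

end FRG_

open FRG_ in
/-- Block FRG. -/
theorem v_FRG (h_MXM : V_MXM) : V_FRG := by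
  intro D κ B R hR hL hRt
  obtain ⟨⟨-, hsub, hdL, hdR⟩, -⟩ := h_MXM D B R hR
  refine ⟨?_, ?_, ?_⟩
  · intro i j h
    have h1 := hsub _ (aF_iff.1 h)
    unfold edgesL at h1
    rw [List.mem_flatMap] at h1
    obtain ⟨i', -, h2⟩ := h1
    rw [List.mem_map] at h2
    obtain ⟨j', h3, h4⟩ := h2
    rw [List.mem_filter] at h3
    have e := Prod.ext_iff.1 h4
    have e1 : i' = i := e.1
    have e2 : j' = j := e.2
    rw [← e1, ← e2]
    exact h3.2
  · intro i _
    refine ⟨(card_L _ _ _).trans (hdL i), ?_⟩
    by_cases hi : i < R.length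
    · refine le_trans (card_le_card ?_) (hL i hi)
      intro j hj
      have h1 := (mem_filter.1 hj).2
      exact mem_filter.2 ⟨mem_range.2 (aj_lt hR h1).2, h1⟩
    · have h0 : nb (aj R) (range (max R.length B.length)) i = ∅ := by
        rw [Finset.eq_empty_iff_forall_notMem]
        intro j hj
        exact hi (aj_lt hR (mem_filter.1 hj).2).1
      rw [h0]
      simp
  · intro j _
    refine ⟨(card_R _ _ _).trans (hdR j), ?_⟩
    by_cases hj : j < B.length
    · refine le_trans (card_le_card ?_) (hRt j hj)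
      intro i hi
      have h1 := (mem_filter.1 hi).2
      exact mem_filter.2 ⟨mem_range.2 (aj_lt hR h1).1, h1⟩
    · have h0 : nb (tr (aj R)) (range (max R.length B.length)) j = ∅ := by
        rw [Finset.eq_empty_iff_forall_notMem]
        intro i hi
        have h1 : aj R i j = true := (mem_filter.1 hi).2
        exact hj (aj_lt hR h1).2
      rw [h0]
      simp

end Pool.Agent.BisRf
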