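import Pool.Agent.BisRf.Targets
import Pool.Agent.BisRt.P_GRA

/-!
# GRA: graphs and rows (degrees)
-/

set_option autoImplicit false

namespace Pool.Agent.BisRf

open Finset Pool.Agent.PT Pool.Agent.BisTh Pool.Agent.BisRg Pool.Agent.BisRt

theorem v_GRA : V_GRA := by
  intro G q
  refine ⟨fun hL i hi => ?_, fun hR j hj => ?_⟩
  · have h1 : (nb (aj (rowsOf G)) (range G.b) i).card = G.degL ⟨i, hi⟩ :=
      Pool.Agent.BisRt.GRA_.degL_eq G ⟨i, hi⟩
    rw [h1]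
    exact hL ⟨i, hi⟩
  · have h1 : (nb (tr (aj (rowsOf G))) (range G.a) j).card = G.degR ⟨j, hj⟩ :=
      Pool.Agent.BisRt.GRA_.degR_eq G ⟨j, hj⟩
    rw [h1]
    exact hR ⟨j, hj⟩

end Pool.Agent.BisRf
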