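import Pool.Agent.BisRf.Targets
import Pool.Agent.BisRg.P_WPT

/-!
# The value for a fixed `D` in polynomial time
-/

set_option autoImplicit false

namespace Pool.Agent.BisRf

open Finset Pool.Agent.PT Pool.Agent.BisTh Pool.Agent.BisRg Pool.Agent.BisRt

namespace PTA_

section

variable [hC : Fact Core]

/-- Input: `D`, `W`, `T`, `B`, rows. -/
abbrev InA : Type := ℕ × Un × Un × Un × List (List Bool)

theorem cap_pt : PolyF (fun x : InA => capG x.2.1 x.2.2.1) := by
  unfold capG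
  exact pw_pt 7000 (by fun_prop)

theorem vG_pt : PolyF (fun x : InA => vG x.2.2.2.1 x.2.2.2.2) := by
  unfold vG
  exact PolyF.range_length (by fun_prop)

theorem mG_pt : PolyF (fun x : InA => mG x.2.2.2.1 x.2.2.2.2) := by
  unfold mG
  refine PolyF.cond ?_ ?_ ?_
  · fun_prop
  · exact PolyF.range_length (by fun_prop)
  · exact PolyF.range_length (by fun_prop)

theorem lim_pt : PolyF (fun x : InA =>
    limDG x.1 x.2.1 x.2.2.1 (vG x.2.2.2.1 x.2.2.2.2)) := by
  unfold limDG dl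
  have h2 : PolyF (fun x : InA =>
      (vG x.2.2.2.1 x.2.2.2.2).filter fun t => decide (t < x.1)) :=
    PolyF.filter (f := fun (x : InA) t => decide (t < x.1)) (by fun_prop) vG_pt
  have h3 : PolyF (fun x : InA => limG x.2.1 x.2.2.1) := by
    unfold limG
    exact rep_pt 3600 (by fun_prop)
  have h4 : PolyF (fun x : InA =>
      ((vG x.2.2.2.1 x.2.2.2.2).filter fun t => decide (t < x.1)).flatMap
        fun _ => limG x.2.1 x.2.2.1) :=
    PolyF.flatMap (f := fun (x : InA) (_ : ℕ) => limG x.2.1 x.2.2.1)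
      (h3.comp (g := fun p : InA × ℕ => p.1) (by fun_prop)) h2
  exact h4.length

theorem maxM_pt (h_PTM : V_PTM) : PolyF (fun x : InA => maxM x.1 x.2.2.2.1 x.2.2.2.2) :=
  (h_PTM hC).comp (g := fun x : InA => (x.1, x.2.2.2.1, x.2.2.2.2)) (by fun_prop)

theorem rounds_pt (h_PTM : V_PTM) (h_PTR : V_PTR) : PolyF (fun x : InA =>
    roundsG x.1 (limDG x.1 x.2.1 x.2.2.1 (vG x.2.2.2.1 x.2.2.2.2)) (capG x.2.1 x.2.2.1)
      (vG x.2.2.2.1 x.2.2.2.2) (mG x.2.2.2.1 x.2.2.2.2) x.2.2.2.2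
      (maxM x.1 x.2.2.2.1 x.2.2.2.2)
      [(List.range x.2.2.2.2.length, List.range x.2.2.2.1.length)]) := by
  have h0 := h_PTR hC
  have hD : PolyF (fun x : InA => x.1) := by fun_prop
  have hR : PolyF (fun x : InA => x.2.2.2.2) := by fun_prop
  have hs : PolyF (fun x : InA =>
      ((List.range x.2.2.2.2.length, List.range x.2.2.2.1.length) : SI)) :=
    (PolyF.range_length (by fun_prop)).pair (PolyF.range_length (by fun_prop))
  have hg : PolyF (fun x : InA =>
      ((x.1, limDG x.1 x.2.1 x.2.2.1 (vG x.2.2.2.1 x.2.2.2.2)), capG x.2.1 x.2.2.1,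
        vG x.2.2.2.1 x.2.2.2.2, mG x.2.2.2.1 x.2.2.2.2, x.2.2.2.2,
        maxM x.1 x.2.2.2.1 x.2.2.2.2,
        ((List.range x.2.2.2.2.length, List.range x.2.2.2.1.length) : SI))) :=
    (hD.pair lim_pt).pair (cap_pt.pair (vG_pt.pair (mG_pt.pair (hR.pair
      ((maxM_pt h_PTM).pair hs)))))
  exact h0.comp hg

theorem toSt_pt : PolyF (fun p : InA × SI => toSt p.1.2.2.2.2 p.2) := by
  unfold toSt
  have h1 : PolyF (fun p : InA × SI => p.2.1.map fun i => p.1.2.2.2.2.getD i []) :=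
    PolyF.map (f := fun (p : InA × SI) i => p.1.2.2.2.2.getD i []) (by fun_prop) (by fun_prop)
  exact h1.pair (by fun_prop)

end

end PTA_

theorem v_PTA (h_PTM : V_PTM) (h_PTR : V_PTR) : V_PTA := by
  intro hC
  have h1 := PTA_.rounds_pt (hC := hC) h_PTM h_PTR
  have h2 := PolyF.map (f := fun (x : PTA_.InA) s => toSt x.2.2.2.2 s) PTA_.toSt_pt h1
  have hTT : PolyF (fun x : PTA_.InA => x.2.2.1 ++ x.2.2.1) := by fun_prop
  have h3 : PolyF (fun p : PTA_.InA × St =>
      leafExp (bud (capG p.1.2.1 p.1.2.2.1) (p.1.2.2.1 ++ p.1.2.2.1)) p.2) :=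
    WPT_.leaf_pt (γ := PTA_.InA) (W := fun x => capG x.2.1 x.2.2.1)
      (T := fun x => x.2.2.1 ++ x.2.2.1) PTA_.cap_pt hTT
  have h4 := PolyF.flatMap
    (f := fun (x : PTA_.InA) s =>
      leafExp (bud (capG x.2.1 x.2.2.1) (x.2.2.1 ++ x.2.2.1)) s) h3 h2
  unfold algGD
  exact tot_pt h4

end Pool.Agent.BisRf
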