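import Pool.Agent.BisRf.Targets

/-!
# Elementary facts on `FReg` (REG)
-/

set_option autoImplicit false

namespace Pool.Agent.BisRf

open Finset Pool.Agent.PT Pool.Agent.BisTh Pool.Agent.BisRg Pool.Agent.BisRt

namespace REG_

theorem nb_mono (adj : ℕ → ℕ → Bool) {Y Z : Finset ℕ} (h : Y ⊆ Z) (i : ℕ) :
    nb adj Y i ⊆ nb adj Z i := by
  unfold nb
  exact filter_subset_filter _ h

theorem card_mono (adj : ℕ → ℕ → Bool) {Y Z : Finset ℕ} (h : Y ⊆ Z) (i : ℕ) :
    (nb adj Y i).card ≤ (nb adj Z i).card :=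
  card_le_card (nb_mono adj h i)

theorem nb_sub {adj fd : ℕ → ℕ → Bool} (h : ∀ i j, fd i j = true → adj i j = true)
    (Y : Finset ℕ) (i : ℕ) : nb fd Y i ⊆ nb adj Y i := by
  unfold nb
  intro j hj
  rw [mem_filter] at hj ⊢
  exact ⟨hj.1, h i j hj.2⟩

end REG_

open REG_ in
/-- Elementary facts on `FReg`. -/
theorem v_REG : V_REG := by
  intro adj fd n D κ h
  refine ⟨⟨fun i j hij => h.1 j i hij, h.2.2, h.2.1⟩, fun Y hY i hi => ?_⟩
  exact ⟨nb_sub h.1 Y i, le_trans (card_mono fd hY i) (h.2.1 i hi).1,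
    le_trans (card_mono adj hY i) (h.2.1 i hi).2,
    le_trans (card_mono (tr fd) hY i) (h.2.2 i hi).1,
    le_trans (card_mono (tr adj) hY i) (h.2.2 i hi).2⟩

end Pool.Agent.BisRf
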