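import Pool.Agent.BisRf.Targets

set_option autoImplicit false

/-!
# BisRf, target RND: all rounds of the branching
-/

namespace Pool.Agent.BisRf

open Finset Pool.Agent.PT Pool.Agent.BisTh Pool.Agent.BisRg Pool.Agent.BisRt

namespace RND_

theorem sum_flat (w : SI → ℝ) (f : SI → List SI) (L : List SI) :
    ((L.flatMap f).map w).sum = (L.map fun s => ((f s).map w).sum).sum := by
  induction L with
  | nil => rfl
  | cons a L ih =>
    rw [List.flatMap_cons, List.map_append, List.sum_append, ih, List.map_cons, List.sum_cons]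

theorem sum_mul (c : ℝ) (w : SI → ℝ) (L : List SI) :
    (L.map fun s => c * w s).sum = c * (L.map w).sum := by
  induction L with
  | nil => simp
  | cons a L ih => rw [List.map_cons, List.sum_cons, List.map_cons, List.sum_cons, ih]; ring

theorem sum_add (u w : SI → ℝ) (L : List SI) :
    (L.map fun s => u s + w s).sum = (L.map u).sum + (L.map w).sum := by
  induction L with
  | nil => simp
  | cons a L ih =>
    rw [List.map_cons, List.sum_cons, List.map_cons, List.sum_cons, List.map_cons,
      List.sum_cons, ih]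
    ring

theorem len_mul_le (w : SI → ℝ) (c : ℝ) (L : List SI) (h : ∀ s ∈ L, c ≤ w s) :
    (L.length : ℝ) * c ≤ (L.map w).sum := by
  induction L with
  | nil => simp
  | cons a L ih =>
    rw [List.map_cons, List.sum_cons, List.length_cons]
    have h1 := h a List.mem_cons_self
    have h2 := ih fun s hs => h s (List.mem_cons_of_mem _ hs)
    push_cast
    linarith

theorem gr_one (g : ℕ) : 1 ≤ gr g := by
  unfold gr
  have := Real.exp_pos (-(g : ℝ))
  linarith

theorem Mf_nonneg (m D g K N : ℕ) : 0 ≤ Mf m D g K N := by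
  unfold Mf
  have h1 : 0 ≤ gr g := le_trans zero_le_one (gr_one g)
  positivity

theorem low_step (h_BST : V_BST) {R : List (List Bool)} {F : List (ℕ × ℕ)} {n N D K : ℕ}
    {Ml : List ℕ} {s : SI} (hs : GoodS n s) (hDN : D ≤ N) (hl : Low R D s) :
    stepG D K (List.range N) Ml R F s = [s] := by
  have hc : candsF D (List.range N) R F s = [] := by
    by_contra h
    obtain ⟨h1, h2, -, -⟩ := (h_BST R F n N D s hs hDN).2 h
    rcases hb : (best (candsF D (List.range N) R F s)).1 with _ | _
    · have := (h1 hb).1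
      rw [hl.1] at this
      exact absurd this (Finset.notMem_empty _)
    · have := (h2 hb).1
      rw [hl.2] at this
      exact absurd this (Finset.notMem_empty _)
  unfold stepG
  rw [hc]
  rfl

theorem low_nil (R : List (List Bool)) (d : ℕ) (s : SI) (h : s.1.length + s.2.length = 0) :
    Low R d s := by
  have h1 : s.1 = [] := List.length_eq_zero_iff.mp (by omega)
  have h2 : s.2 = [] := List.length_eq_zero_iff.mp (by omega)
  constructor
  · rw [h1]
    rfl
  · rw [h2]
    rfl

theorem kids_len (R : List (List Bool)) (c : Bool × ℕ × ℕ) (s s' : SI) (h : s' ∈ kids R c s) :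
    s'.1.length + s'.2.length ≤ s.1.length + s.2.length := by
  unfold kids at h
  rcases c with ⟨b, u, m⟩
  cases b with
  | false =>
    simp only [cond_false, List.mem_cons, List.not_mem_nil, or_false] at h
    rcases h with rfl | rfl
    · have h1 := List.length_filter_le (fun i => !(decide (i = u))) s.1
      simp only
      omega
    · have h1 := List.length_filter_le (fun i => !(decide (i = u))) s.1
      have h2 := List.length_filter_le (fun j => !(aj R u j)) s.2
      simp only
      omega
  | true =>
    simp only [cond_true, List.mem_cons, List.not_mem_nil, or_false] at h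
    rcases h with rfl | rfl
    · have h1 := List.length_filter_le (fun i => !(decide (i = u))) s.2
      simp only
      omega
    · have h1 := List.length_filter_le (fun i => !(decide (i = u))) s.2
      have h2 := List.length_filter_le (fun i => !(aj R i u)) s.1
      simp only
      omega

theorem step_len (D K : ℕ) (V Ml : List ℕ) (R : List (List Bool)) (F : List (ℕ × ℕ))
    (s s' : SI) (h : s' ∈ stepG D K V Ml R F s) :
    s'.1.length + s'.2.length ≤ s.1.length + s.2.length := by
  unfold stepG at h
  cases hc : (candsF D V R F s).isEmpty with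
  | true =>
    rw [hc, cond_true, List.mem_singleton] at h
    rw [h]
  | false =>
    rw [hc, cond_false] at h
    exact kids_len R _ s s' (List.mem_filter.1 h).1

/-- the invariant after `j` rounds -/
structure Inv (R : List (List Bool)) (F : List (ℕ × ℕ)) (n N D κ c g K : ℕ) (Ml : List ℕ)
    (r : SI) (j : ℕ) (L : List SI) : Prop where
  good : ∀ s ∈ L, GoodS n s ∧ keep D K (List.range N) Ml F s = true ∧
    s.1.length + s.2.length ≤ N ∧ 0 ≤ SG F D (Ml.length + c) s ∧
    (Low R D s ∨ s.1.length + s.2.length + j ≤ N)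
  wt : (L.map (WF R F D κ (Ml.length + c) (3 / 5))).sum ≤
    gr g ^ j * WF R F D κ (Ml.length + c) (3 / 5) r
  cnt : (cs R r : ℝ) ≤ (L.map fun s => (cs R s : ℝ)).sum +
    Mf (Ml.length + c) D g K N * (gr g ^ j * WF R F D κ (Ml.length + c) (3 / 5) r -
      (L.map (WF R F D κ (Ml.length + c) (3 / 5))).sum)

theorem inv_step (h_STS : V_STS) (h_STW : V_STW) (h_BST : V_BST) {R : List (List Bool)}
    {F : List (ℕ × ℕ)} {n N D κ c g K : ℕ} {Ml : List ℕ} {r : SI} {j : ℕ}
    (hR : FReg (aj R) (aF F) n D κ) (hκ : 1 ≤ κ) (hg : 125 * g + 10 ≤ D) (hDN : D ≤ N)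
    {L : List SI} (h : Inv R F n N D κ c g K Ml r j L) :
    Inv R F n N D κ c g K Ml r (j + 1)
      (L.flatMap (stepG D K (List.range N) Ml R F)) := by
  have key1 : ((L.flatMap (stepG D K (List.range N) Ml R F)).map
      (WF R F D κ (Ml.length + c) (3 / 5))).sum ≤
      gr g * (L.map (WF R F D κ (Ml.length + c) (3 / 5))).sum := by
    rw [sum_flat, ← sum_mul]
    refine List.sum_le_sum fun s hs => ?_
    obtain ⟨g1, -, g3, g4, -⟩ := h.good s hs
    exact (h_STW R F n N D κ c g K N Ml hR hκ hg hDN s g1 g3 g4).2.1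
  have key2 : (L.map fun s => (cs R s : ℝ)).sum +
      Mf (Ml.length + c) D g K N * ((L.flatMap (stepG D K (List.range N) Ml R F)).map
        (WF R F D κ (Ml.length + c) (3 / 5))).sum ≤
      ((L.flatMap (stepG D K (List.range N) Ml R F)).map fun s => (cs R s : ℝ)).sum +
      Mf (Ml.length + c) D g K N *
        (gr g * (L.map (WF R F D κ (Ml.length + c) (3 / 5))).sum) := by
    rw [sum_flat, sum_flat, ← sum_mul, ← sum_add, ← sum_mul, ← sum_mul, ← sum_add]
    refine List.sum_le_sum fun s hs => ?_
    obtain ⟨g1, -, g3, g4, -⟩ := h.good s hs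
    exact (h_STW R F n N D κ c g K N Ml hR hκ hg hDN s g1 g3 g4).2.2
  have hg1 := gr_one g
  have hM := Mf_nonneg (Ml.length + c) D g K N
  refine ⟨?_, ?_, ?_⟩
  · intro s' hs'
    obtain ⟨s, hs, hss⟩ := List.mem_flatMap.mp hs'
    obtain ⟨g1, g2, g3, g4, g5⟩ := h.good s hs
    obtain ⟨e1, e2, e3⟩ := (h_STS R F n N D K Ml s g1 hDN).1 s' hss
    refine ⟨e1, e2 g2, ?_, ?_, ?_⟩
    · exact (step_len D K (List.range N) Ml R F s s' hss).trans g3
    · exact (h_STW R F n N D κ c g K N Ml hR hκ hg hDN s g1 g3 g4).1 s' hss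
    · rcases g5 with hl | hl
      · rw [low_step h_BST g1 hDN hl, List.mem_singleton] at hss
        rw [hss]
        exact Or.inl hl
      · rcases e3 with e3 | e3
        · exact Or.inl e3
        · exact Or.inr (by omega)
  · refine key1.trans ?_
    rw [pow_succ, mul_comm (gr g ^ j) (gr g), mul_assoc]
    exact mul_le_mul_of_nonneg_left h.wt (le_trans zero_le_one hg1)
  · have h1 := h.cnt
    have h2 := h.wt
    have h3 : 0 ≤ (gr g - 1) * (gr g ^ j * WF R F D κ (Ml.length + c) (3 / 5) r -
        (L.map (WF R F D κ (Ml.length + c) (3 / 5))).sum) :=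
      mul_nonneg (by linarith) (by linarith)
    have h4 := mul_nonneg hM h3
    have h5 : gr g ^ (j + 1) = gr g * gr g ^ j := by ring
    rw [h5]
    nlinarith [h1, h4, key2]

theorem inv_len (h_WRT : V_WRT) (h_LNK : V_LNK) {R : List (List Bool)}
    {F : List (ℕ × ℕ)} {n a b D κ c g K : ℕ} {Ml : List ℕ} {j : ℕ} (hκ : 1 ≤ κ)
    (hg : 125 * g + 10 ≤ D) (hDN : D ≤ a + b) (P : Un)
    (h0 : 0 ≤ SG F D (Ml.length + c) (List.range a, List.range b))
    (hP : gr g ^ (a + b) * Real.exp (38 * ((Nat.size κ * (a + b) : ℕ) / (D : ℝ))) *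
      Real.exp (3 / 5 * (c + (K : ℝ) / D)) ≤ P.length) {L : List SI} (hj : j ≤ a + b)
    (h : Inv R F n (a + b) D κ c g K Ml (List.range a, List.range b) j L) :
    L.length ≤ P.length := by
  have hD : 1 ≤ D := by omega
  have hg1 := gr_one g
  have hW := h_WRT R F D κ (Ml.length + c) hD hκ
  have h1 : (L.length : ℝ) * Real.exp (-(3 / 5 * (c + (K : ℝ) / D))) ≤
      (L.map (WF R F D κ (Ml.length + c) (3 / 5))).sum := by
    refine len_mul_le _ _ _ fun s hs => ?_
    obtain ⟨g1, g2, -⟩ := h.good s hs
    refine le_trans ?_ ((hW.1 s).2.2 (3 / 5))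
    have e1 := ((h_LNK R F n (a + b) D s g1 hDN).2.2.2 K c Ml hD).1 g2
    exact Real.exp_le_exp.mpr (by linarith)
  have h2 : (L.map (WF R F D κ (Ml.length + c) (3 / 5))).sum ≤
      gr g ^ (a + b) * Real.exp (38 * ((Nat.size κ * (a + b) : ℕ) / (D : ℝ))) := by
    refine h.wt.trans ?_
    refine mul_le_mul (pow_le_pow_right₀ hg1 hj) (hW.2 a b h0)
      (hW.1 (List.range a, List.range b)).1.le (by positivity)
  have h3 : (L.length : ℝ) ≤ P.length := by
    have e1 : (L.length : ℝ) = ((L.length : ℝ) * Real.exp (-(3 / 5 * (c + (K : ℝ) / D)))) *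
        Real.exp (3 / 5 * (c + (K : ℝ) / D)) := by
      rw [mul_assoc, ← Real.exp_add, neg_add_cancel, Real.exp_zero, mul_one]
    rw [e1]
    exact (mul_le_mul_of_nonneg_right (h1.trans h2) (Real.exp_pos _).le).trans hP
  exact_mod_cast h3

theorem inv_root (R : List (List Bool)) (F : List (ℕ × ℕ)) (n a b D κ c g K : ℕ)
    (Ml : List ℕ) (ha : a ≤ n) (hb : b ≤ n)
    (h0 : 0 ≤ SG F D (Ml.length + c) (List.range a, List.range b))
    (hk : keep D K (List.range (a + b)) Ml F (List.range a, List.range b) = true) :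
    Inv R F n (a + b) D κ c g K Ml (List.range a, List.range b) 0
      [(List.range a, List.range b)] := by
  have hgood : GoodS n (List.range a, List.range b) :=
    ⟨List.nodup_range, List.nodup_range, fun i hi => (List.mem_range.mp hi).trans_le ha,
      fun i hi => (List.mem_range.mp hi).trans_le hb⟩
  have hlen : (List.range a).length + (List.range b).length = a + b := by
    rw [List.length_range, List.length_range]
  refine ⟨?_, ?_, ?_⟩
  · intro s hs
    rw [List.mem_singleton] at hs
    subst hs
    refine ⟨hgood, hk, ?_, h0, Or.inr ?_⟩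
    · exact hlen.le
    · show (List.range a).length + (List.range b).length + 0 ≤ a + b
      omega
  · simp
  · simp

theorem inv_fold (h_STS : V_STS) (h_STW : V_STW) (h_BST : V_BST) (h_WRT : V_WRT)
    (h_LNK : V_LNK) {R : List (List Bool)} {F : List (ℕ × ℕ)} {n a b D κ c g K : ℕ}
    {Ml : List ℕ} (hR : FReg (aj R) (aF F) n D κ) (hκ : 1 ≤ κ) (hg : 125 * g + 10 ≤ D)
    (hDN : D ≤ a + b) (P : Un)
    (h0 : 0 ≤ SG F D (Ml.length + c) (List.range a, List.range b))
    (hP : gr g ^ (a + b) * Real.exp (38 * ((Nat.size κ * (a + b) : ℕ) / (D : ℝ))) *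
      Real.exp (3 / 5 * (c + (K : ℝ) / D)) ≤ P.length) (V : List ℕ) :
    ∀ (j : ℕ) (L : List SI), j + V.length ≤ a + b →
      Inv R F n (a + b) D κ c g K Ml (List.range a, List.range b) j L →
      Inv R F n (a + b) D κ c g K Ml (List.range a, List.range b) (j + V.length)
        (V.foldl (fun L _ => cond (decide (L.length ≤ P.length))
          (L.flatMap (stepG D K (List.range (a + b)) Ml R F)) []) L) := by
  induction V with
  | nil =>
    intro j L _ h
    exact h
  | cons v V ih =>
    intro j L hj h
    rw [List.foldl_cons, List.length_cons]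
    rw [List.length_cons] at hj
    have hlen := inv_len h_WRT h_LNK hκ hg hDN P h0 hP (by omega) h
    rw [decide_eq_true hlen, cond_true]
    have h1 := ih (j + 1) _ (by omega) (inv_step h_STS h_STW h_BST hR hκ hg hDN h)
    have e : j + 1 + V.length = j + (V.length + 1) := by omega
    rw [e] at h1
    exact h1

end RND_

open RND_ in
theorem v_RND (h_STS : V_STS) (h_STW : V_STW) (h_LNK : V_LNK) (h_BST : V_BST)
    (h_WRT : V_WRT) : V_RND := by
  intro R F n a b D κ c g K P Ml hR hκ hg hDN ha hb h0 hk hP
  have hD : 1 ≤ D := by omega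
  have hW := h_WRT R F D κ (Ml.length + c) hD hκ
  have hI : Inv R F n (a + b) D κ c g K Ml (List.range a, List.range b) (a + b)
      (roundsG D K P (List.range (a + b)) Ml R F [(List.range a, List.range b)]) := by
    have h1 := inv_fold h_STS h_STW h_BST h_WRT h_LNK hR hκ hg hDN P h0 hP
      (List.range (a + b)) 0 [(List.range a, List.range b)]
      (by rw [List.length_range]; omega) (inv_root R F n a b D κ c g K Ml ha hb h0 hk)
    rw [List.length_range, zero_add] at h1
    exact h1
  have hl := inv_len h_WRT h_LNK hκ hg hDN P h0 hP le_rfl hI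
  refine ⟨?_, hl, ?_⟩
  · intro s hs
    obtain ⟨g1, -, -, g4, g5⟩ := hI.good s hs
    refine ⟨g1, ?_, g4⟩
    rcases g5 with g5 | g5
    · exact g5
    · exact low_nil R D s (by omega)
  · refine hI.cnt.trans ?_
    have hM := Mf_nonneg (Ml.length + c) D g K (a + b)
    have hg1 := gr_one g
    have h1 : 0 ≤ ((roundsG D K P (List.range (a + b)) Ml R F
        [(List.range a, List.range b)]).map (WF R F D κ (Ml.length + c) (3 / 5))).sum := by
      refine List.sum_nonneg fun x hx => ?_
      obtain ⟨s, -, rfl⟩ := List.mem_map.mp hx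
      exact (hW.1 s).1.le
    have h2 : gr g ^ (a + b) * WF R F D κ (Ml.length + c) (3 / 5)
        (List.range a, List.range b) ≤
        gr g ^ (a + b) * Real.exp (38 * ((Nat.size κ * (a + b) : ℕ) / (D : ℝ))) :=
      mul_le_mul_of_nonneg_left (hW.2 a b h0) (by positivity)
    have h3 := mul_le_mul_of_nonneg_left (show gr g ^ (a + b) *
        WF R F D κ (Ml.length + c) (3 / 5) (List.range a, List.range b) -
        ((roundsG D K P (List.range (a + b)) Ml R F
          [(List.range a, List.range b)]).map (WF R F D κ (Ml.length + c) (3 / 5))).sum ≤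
        gr g ^ (a + b) * Real.exp (38 * ((Nat.size κ * (a + b) : ℕ) / (D : ℝ))) by
          linarith) hM
    linarith

end Pool.Agent.BisRf
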