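import Pool.Agent.BisRf.Targets

/-!
# S10: the machine for graphs with a spread fractional matching and bounded degrees

MP_29585b_lc.
-/

set_option autoImplicit false

namespace Pool.Agent.BisRf

open Finset Pool.Agent.PT Pool.Agent.BisTh Pool.Agent.BisRg Pool.Agent.BisRt

namespace S10_

/-- The value of the algorithm on an instance. -/
def algHG (x : Bip × ℕ × ℕ) : ℕ :=
  algH (List.replicate x.2.2 true) (List.replicate x.2.1 true) (List.replicate x.1.b true)
    (rowsOf x.1)

theorem tm_algH (h_PTX : V_PTX) :
    Nonempty (Turing.TM2ComputableInPolyTime encInput₂ encNat algHG) := by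
  have hC : Fact Core := ⟨core⟩
  have h1 : PolyF (fun w : List Letter =>
      encNat (algH (ST1_.parse₂ w).1 (ST1_.parse₂ w).2.1 (ST1_.parse₂ w).2.2.1
        (ST1_.parse₂ w).2.2.2)) := by
    have h2 := (h_PTX hC).comp (ST1_.parse₂_pt (hC := hC))
    exact h2.bits
  refine tm_of_polyF h1 encInput₂ encNat _ fun x => ?_
  rw [ST1_.parse₂_encInput₂]
  rfl

theorem length_rowsOf (G : Bip) : (rowsOf G).length = G.a := by
  simp [rowsOf]

theorem length_rows (G : Bip) : ∀ u ∈ rowsOf G, u.length = G.b := by
  intro u hu
  simp only [rowsOf, List.mem_map] at hu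
  obtain ⟨i, -, rfl⟩ := hu
  simp [rowOf]

end S10_

open S10_

theorem v_S10 (h_PTX : V_PTX) (h_ALT : V_ALT) (h_GRA : V_GRA) : V_S10 := by
  refine ⟨algHG, tm_algH h_PTX, fun G t w => ⟨?_, fun D c κ k hD hκ hS hL hR hk hw => ?_⟩⟩
  · have h := h_ALT.1 (List.replicate w true) (List.replicate t true) (List.replicate G.b true)
      (rowsOf G)
    rw [List.length_replicate, ← count_eq] at h
    exact h
  · have hla := length_rowsOf G
    have hlb : (List.replicate G.b true).length = G.b := List.length_replicate
    have h := h_ALT.2 D c κ k (List.replicate w true) (List.replicate t true)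
      (List.replicate G.b true) (rowsOf G)
      (fun u hu => (length_rows G u hu).trans hlb.symm) hD hκ (p_DUL G D c hS)
      (by
        rw [hla, hlb]
        exact (h_GRA G (κ * D)).1 hL)
      (by
        rw [hla, hlb]
        exact (h_GRA G (κ * D)).2 hR)
      (by
        rw [hla, hlb]
        exact hk)
      (by
        rw [List.length_replicate]
        exact hw)
    rw [List.length_replicate, List.length_replicate, ← count_eq] at h
    exact h

end Pool.Agent.BisRf
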