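import Pool.Agent.BisRf.Targets
import Pool.Agent.BisRt.P_FFF

/-!
# STP: the step inequality (spread fractional matching, degrees at most `κ * D`)
-/

set_option autoImplicit false

namespace Pool.Agent.BisRf

open Finset Pool.Agent.PT Pool.Agent.BisTh Pool.Agent.BisRg Pool.Agent.BisRt

namespace STP_

/-- the weight of a state whose potential is smaller by `a` -/
theorem wt_le {adj fd : ℕ → ℕ → Bool} {D κ m : ℕ} {θ : ℝ} {X Y X' Y' : Finset ℕ} {a : ℝ}
    (h : Pk adj fd D κ m θ X' Y' + a ≤ Pk adj fd D κ m θ X Y) :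
    Wk adj fd D κ m θ X' Y' ≤ Real.exp (-a) * Wk adj fd D κ m θ X Y := by
  unfold Wk
  rw [← Real.exp_add]
  exact Real.exp_le_exp.2 (by linarith)

/-- the degree in `fd` is at most `D` -/
theorem nb_card_le {adj fd : ℕ → ℕ → Bool} {n D κ : ℕ} (hR : FReg adj fd n D κ)
    {Y : Finset ℕ} (hY : Y ⊆ range n) {u : ℕ} (hu : u < n) : (nb fd Y u).card ≤ D := by
  refine le_trans (card_le_card ?_) (hR.2.1 u hu).1
  exact filter_subset_filter _ hY

end STP_

open STP_ in
theorem v_STP (h_DPO : V_DPO) (h_DPI : V_DPI) (h_OVL : V_OVL) (h_GAI : V_GAI) (h_FFF : V_FFF) :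
    V_STP := by
  intro adj fd n D κ m g hR hκ hD θ hθ X Y hX hY u hu hmax hmax'
  have hD1 : 1 ≤ D := by omega
  have hD0 : (0 : ℝ) < D := by exact_mod_cast hD1
  have hκ0 : (0 : ℝ) < κ := by exact_mod_cast hκ
  have hκ1 : (1 : ℝ) ≤ κ := by exact_mod_cast hκ
  have huX : u ∈ X := (mem_filter.1 hu).1
  have hun : u < n := mem_range.1 (hX huX)
  have hin := h_DPI adj fd n D κ m hR hD1 hκ θ hθ X Y hX hY u hu
  have hout := h_DPO adj fd n D κ m hR hD1 hκ θ hθ X Y hX hY u huX
  obtain ⟨-, f2, -, -, f6, -⟩ := h_FFF κ hκ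
  have f5 := Pool.Agent.BisRt.p_FFF.2.2.2.2.1
  have hW : 0 < Wk adj fd D κ m θ X Y := Real.exp_pos _
  have hgr : 1 ≤ gr g := by
    unfold gr
    have := Real.exp_pos (-(g : ℝ))
    linarith
  have hcard : ((nb fd Y u).card : ℝ) ≤ D := by exact_mod_cast nb_card_le hR hY hun
  have hr0 : 0 ≤ 1 - ((nb fd Y u).card : ℝ) / D := by
    have : ((nb fd Y u).card : ℝ) / D ≤ 1 := (div_le_one hD0).2 hcard
    linarith
  have hS : 0 ≤ (∑ i ∈ (hi adj D X Y).erase u, (Fk κ ((cF adj fd D X Y i : ℝ) / D) -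
      Fk κ ((cF adj fd D X Y i : ℝ) / D + ((nb adj Y i ∩ nb fd Y u).card : ℝ) / D))) / D := by
    refine div_nonneg (sum_nonneg fun i _ => ?_) hD0.le
    have h8 := f2 ((cF adj fd D X Y i : ℝ) / D)
      ((cF adj fd D X Y i : ℝ) / D + ((nb adj Y i ∩ nb fd Y u).card : ℝ) / D)
      (le_add_of_nonneg_right (by positivity))
    linarith
  have hin' : Pk adj fd D κ m θ (X.erase u) (Y \ nb adj Y u) +
      (6 + (Nat.size κ : ℝ) + (cF adj fd D X Y u : ℝ) / D / 10) ≤ Pk adj fd D κ m θ X Y := by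
    linarith
  have win := wt_le hin'
  have e7 : Real.exp (-(6 + (Nat.size κ : ℝ) + (cF adj fd D X Y u : ℝ) / D / 10)) =
      Real.exp (-(6 + (Nat.size κ : ℝ))) * Real.exp (-((cF adj fd D X Y u : ℝ) / D / 10)) := by
    rw [← Real.exp_add]
    congr 1
    ring
  rw [e7] at win
  have hE7 : 0 < Real.exp (-(6 + (Nat.size κ : ℝ))) := Real.exp_pos _
  have hc0 : (0 : ℝ) ≤ (cF adj fd D X Y u : ℝ) / D / 10 := by positivity
  have he1 : Real.exp (-((cF adj fd D X Y u : ℝ) / D / 10)) ≤ 1 :=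
    Real.exp_le_one_iff.2 (by linarith)
  have he0 := Real.exp_pos (-((cF adj fd D X Y u : ℝ) / D / 10))
  have h5 : 1 * Wk adj fd D κ m θ X Y ≤ gr g * Wk adj fd D κ m θ X Y :=
    mul_le_mul_of_nonneg_right hgr hW.le
  have f7 : (1 : ℝ) / (400 * κ) ≤ 1 / 400 := by
    refine one_div_le_one_div_of_le (by norm_num) ?_
    linarith
  rcases le_or_gt (cF adj fd D X Y u) (10 * g * D) with hle | hgt
  · -- small inner cost
    rcases le_or_gt (2 * (nb fd Y u).card) D with h2 | h2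
    · -- few edges of the matching
      have h2' : 2 * ((nb fd Y u).card : ℝ) ≤ D := by exact_mod_cast h2
      have hr1 : 1 / 2 ≤ 1 - ((nb fd Y u).card : ℝ) / D := by
        have : ((nb fd Y u).card : ℝ) / D ≤ 1 / 2 := by
          rw [div_le_iff₀ hD0]
          linarith
        linarith
      have hout' : Pk adj fd D κ m θ (X.erase u) Y + 7 / 40 ≤ Pk adj fd D κ m θ X Y := by
        linarith
      have wout := wt_le hout'
      have h1 : Real.exp (-(7 / 40 : ℝ)) ≤ 1 - 7 / 40 / 2 := f5 (7 / 40) (by norm_num)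
        (by norm_num)
      have h3 : Wk adj fd D κ m θ (X.erase u) Y ≤ (1 - 7 / 40 / 2) * Wk adj fd D κ m θ X Y :=
        wout.trans (mul_le_mul_of_nonneg_right h1 hW.le)
      have h6 : Real.exp (-(6 + (Nat.size κ : ℝ))) *
          Real.exp (-((cF adj fd D X Y u : ℝ) / D / 10)) ≤ 1 / 400 * 1 :=
        mul_le_mul (f6.trans f7) he1 he0.le (by norm_num)
      have h4 : Wk adj fd D κ m θ (X.erase u) (Y \ nb adj Y u) ≤
          1 / 400 * 1 * Wk adj fd D κ m θ X Y :=
        win.trans (mul_le_mul_of_nonneg_right h6 hW.le)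
      linarith
    · -- many edges of the matching
      have hov := h_OVL adj fd n D κ g hR hD X Y hX hY u hu hle hmax' h2
      have hgai := h_GAI adj fd n D κ hR hD1 hκ X Y hX hY u hu hmax hov
      have hout' : Pk adj fd D κ m θ (X.erase u) Y +
          (∑ i ∈ (hi adj D X Y).erase u, (Fk κ ((cF adj fd D X Y i : ℝ) / D) -
            Fk κ ((cF adj fd D X Y i : ℝ) / D +
              ((nb adj Y i ∩ nb fd Y u).card : ℝ) / D))) / D ≤
          Pk adj fd D κ m θ X Y := by linarith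
      have wout := wt_le hout'
      generalize Real.exp (-((cF adj fd D X Y u : ℝ) / D / 10)) = e at win hgai he1 he0
      generalize (∑ i ∈ (hi adj D X Y).erase u, (Fk κ ((cF adj fd D X Y i : ℝ) / D) -
          Fk κ ((cF adj fd D X Y i : ℝ) / D + ((nb adj Y i ∩ nb fd Y u).card : ℝ) / D))) / D =
          S at wout hgai
      have hq0 : 0 ≤ 1 / (200 * (κ : ℝ)) * e := by positivity
      have hq1 : 1 / (200 * (κ : ℝ)) * e ≤ 1 := by
        have h9 : 1 / (200 * (κ : ℝ)) ≤ 1 := by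
          rw [div_le_one (by positivity)]
          linarith
        calc 1 / (200 * (κ : ℝ)) * e ≤ 1 * 1 := mul_le_mul h9 he1 he0.le zero_le_one
          _ = 1 := one_mul 1
      have h1 : Real.exp (-S) ≤ 1 - 1 / (200 * (κ : ℝ)) * e / 2 :=
        le_trans (Real.exp_le_exp.2 (by linarith)) (f5 (1 / (200 * (κ : ℝ)) * e) hq0 hq1)
      have h2 : Real.exp (-(6 + (Nat.size κ : ℝ))) * e ≤ 1 / (400 * κ) * e :=
        mul_le_mul_of_nonneg_right f6 he0.le
      have h3 : Wk adj fd D κ m θ (X.erase u) Y ≤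
          (1 - 1 / (200 * (κ : ℝ)) * e / 2) * Wk adj fd D κ m θ X Y :=
        wout.trans (mul_le_mul_of_nonneg_right h1 hW.le)
      have h4 : Wk adj fd D κ m θ (X.erase u) (Y \ nb adj Y u) ≤
          1 / (400 * κ) * e * Wk adj fd D κ m θ X Y :=
        win.trans (mul_le_mul_of_nonneg_right h2 hW.le)
      have h6 : (1 - 1 / (200 * (κ : ℝ)) * e / 2) * Wk adj fd D κ m θ X Y +
          1 / (400 * κ) * e * Wk adj fd D κ m θ X Y = 1 * Wk adj fd D κ m θ X Y := by
        field_simp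
        ring
      linarith
  · -- large inner cost
    have hc : (g : ℝ) ≤ (cF adj fd D X Y u : ℝ) / D / 10 := by
      have h1 : ((10 * g * D : ℕ) : ℝ) ≤ cF adj fd D X Y u := by exact_mod_cast hgt.le
      push_cast at h1
      rw [le_div_iff₀ (by norm_num : (0 : ℝ) < 10), le_div_iff₀ hD0]
      linarith
    have he : Real.exp (-((cF adj fd D X Y u : ℝ) / D / 10)) ≤ Real.exp (-(g : ℝ)) :=
      Real.exp_le_exp.2 (by linarith)
    have hg0 := Real.exp_pos (-(g : ℝ))
    have h7 : Real.exp (-(6 + (Nat.size κ : ℝ))) ≤ 1 := by linarith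
    have h2 : Real.exp (-(6 + (Nat.size κ : ℝ))) *
        Real.exp (-((cF adj fd D X Y u : ℝ) / D / 10)) ≤ 1 * Real.exp (-(g : ℝ)) :=
      mul_le_mul h7 he (Real.exp_pos _).le zero_le_one
    have h4 : Wk adj fd D κ m θ (X.erase u) (Y \ nb adj Y u) ≤
        1 * Real.exp (-(g : ℝ)) * Wk adj fd D κ m θ X Y :=
      win.trans (mul_le_mul_of_nonneg_right h2 hW.le)
    have hout' : Pk adj fd D κ m θ (X.erase u) Y + 0 ≤ Pk adj fd D κ m θ X Y := by linarith
    have wout := wt_le hout'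
    have h3 : Wk adj fd D κ m θ (X.erase u) Y ≤ 1 * Wk adj fd D κ m θ X Y :=
      wout.trans (mul_le_mul_of_nonneg_right (Real.exp_le_one_iff.2 (by linarith)) hW.le)
    have h6 : gr g * Wk adj fd D κ m θ X Y = 1 * Wk adj fd D κ m θ X Y +
        1 * Real.exp (-(g : ℝ)) * Wk adj fd D κ m θ X Y := by
      unfold gr
      ring
    linarith

end Pool.Agent.BisRf
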