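import Pool.Agent.BisRf.Targets
import Pool.Agent.BisRt.P_KID

/-!
# The weights of the children, graphs with a spread fractional matching
-/

set_option autoImplicit false

namespace Pool.Agent.BisRf

open Finset Pool.Agent.PT Pool.Agent.BisTh Pool.Agent.BisRg Pool.Agent.BisRt

namespace WKD_

/-- the slack grows in both branches -/
theorem slack (h_REG : V_REG) (h_OUT : V_OUT) (h_INN : V_INN) {adj fd : ℕ → ℕ → Bool}
    {n D κ : ℕ} (m : ℕ) (hR : FReg adj fd n D κ) (hD : 1 ≤ D) {X Y : Finset ℕ}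
    (hX : X ⊆ range n) (hY : Y ⊆ range n) {u : ℕ} (hu : u ∈ X) :
    sg fd D m X Y ≤ sg fd D m (X.erase u) Y ∧
      sg fd D m X Y ≤ sg fd D m (X.erase u) (Y \ nb adj Y u) := by
  have hD0 : (0 : ℝ) < D := by exact_mod_cast hD
  have h1 := (h_OUT adj fd n D κ m hR hD X Y hX hY u hu).1
  have h2 := (h_INN adj fd n D κ m hR hD X Y hX hY u hu).1
  have h3 := ((h_REG adj fd n D κ hR).2 Y hY u (mem_range.1 (hX hu))).2.1
  have h4 : ((nb fd Y u).card : ℝ) / D ≤ 1 := by
    rw [div_le_one hD0]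
    exact_mod_cast h3
  have h5 : (0 : ℝ) ≤ (cF adj fd D X Y u : ℝ) / D := by positivity
  rw [h1, h2]
  constructor <;> linarith

end WKD_

open WKD_ in
theorem v_WKD (h_STP : V_STP) (h_REG : V_REG) (h_SYM : V_SYM) (h_OUT : V_OUT)
    (h_INN : V_INN) : V_WKD := by
  intro R F n D κ m g hR hκ hg θ hθ s c hs hc
  obtain ⟨b, u, k⟩ := c
  obtain ⟨hc1, hc2, hc3, hc4⟩ := hc
  have hD : 1 ≤ D := by omega
  have hX : s.1.toFinset ⊆ range n := fun i hi => by
    rw [List.mem_toFinset] at hi
    exact mem_range.2 (hs.2.2.1 i hi)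
  have hY : s.2.toFinset ⊆ range n := fun i hi => by
    rw [List.mem_toFinset] at hi
    exact mem_range.2 (hs.2.2.2 i hi)
  obtain ⟨hK1, hK2⟩ := p_KID R n s hs
  cases b with
  | false =>
    obtain ⟨hu, hm⟩ := hc1 rfl
    simp only at hu hm hc3 hc4
    have huX : u ∈ s.1.toFinset := (mem_filter.1 hu).1
    have hu' : u ∈ s.1 := by rwa [List.mem_toFinset] at huX
    obtain ⟨s₁, s₂, h1, -, -, h2, h3, h4, h5, -, -⟩ := hK1 u k hu'
    have key := h_STP (aj R) (aF F) n D κ m g hR hκ hg θ hθ s.1.toFinset s.2.toFinset hX hY u hu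
      (fun i hi => (hc3 i hi).trans (le_of_eq hm)) (fun j hj => (hc4 j hj).trans (le_of_eq hm))
    have hsl := slack h_REG h_OUT h_INN m hR hD hX hY huX
    rw [h1]
    refine ⟨?_, ?_⟩
    · simp only [List.map_cons, List.map_nil, List.sum_cons, List.sum_nil, add_zero]
      unfold WF
      rw [h2, h3, h4, h5]
      exact key
    · intro s' hs'
      rw [List.mem_cons, List.mem_singleton] at hs'
      unfold SG
      rcases hs' with rfl | rfl
      · rw [h2, h3]
        exact hsl.1
      · rw [h4, h5]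
        exact hsl.2
  | true =>
    obtain ⟨hu, hm⟩ := hc2 rfl
    simp only at hu hm hc3 hc4
    have huY : u ∈ s.2.toFinset := (mem_filter.1 hu).1
    have hu' : u ∈ s.2 := by rwa [List.mem_toFinset] at huY
    obtain ⟨s₁, s₂, h1, -, -, h2, h3, h4, h5, -, -⟩ := hK2 u k hu'
    have hR' := (h_REG (aj R) (aF F) n D κ hR).1
    have key := h_STP (tr (aj R)) (tr (aF F)) n D κ m g hR' hκ hg θ hθ
      s.2.toFinset s.1.toFinset hY hX u hu
      (fun i hi => (hc4 i hi).trans (le_of_eq hm)) (fun j hj => (hc3 j hj).trans (le_of_eq hm))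
    have hW := fun X Y => (h_SYM (aj R) (aF F) D κ m θ X Y).2
    have hG := fun X Y => (h_SYM (aj R) (aF F) D κ m θ X Y).1
    have hsl := slack h_REG h_OUT h_INN m hR' hD hY hX huY
    rw [h1]
    refine ⟨?_, ?_⟩
    · simp only [List.map_cons, List.map_nil, List.sum_cons, List.sum_nil, add_zero]
      unfold WF
      rw [h2, h3, h4, h5, hW, hW, hW]
      exact key
    · intro s' hs'
      rw [List.mem_cons, List.mem_singleton] at hs'
      unfold SG
      rcases hs' with rfl | rfl
      · rw [h2, h3, hG, hG]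
        exact hsl.1
      · rw [h4, h5, hG, hG]
        exact hsl.2

end Pool.Agent.BisRf
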