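import Pool.Agent.BisRf.Targets

/-!
# MP_29585b_lc, BRF: elementary facts on the weights
-/

set_option autoImplicit false

namespace Pool.Agent.BisRf

open Finset Pool.Agent.PT Pool.Agent.BisTh Pool.Agent.BisRg Pool.Agent.BisRt

namespace WRT_

lemma Sk_nonneg (h_FFF : V_FFF) {κ : ℕ} (hκ : 1 ≤ κ) (adj fd : ℕ → ℕ → Bool) (D : ℕ)
    (X Y : Finset ℕ) : 0 ≤ Sk adj fd D κ X Y :=
  sum_nonneg fun _ _ => ((h_FFF κ hκ).1 _).le

lemma Sk_le (h_FFF : V_FFF) {κ : ℕ} (hκ : 1 ≤ κ) (adj fd : ℕ → ℕ → Bool) (D : ℕ)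
    (X Y : Finset ℕ) : Sk adj fd D κ X Y ≤ 5 / 2 * X.card := by
  obtain ⟨-, g2, -, -, -, g6⟩ := h_FFF κ hκ
  calc Sk adj fd D κ X Y ≤ ∑ _i ∈ hi adj D X Y, (5 / 2 : ℝ) :=
        sum_le_sum fun i _ => (g2 0 _ (by positivity)).trans g6
    _ = 5 / 2 * (hi adj D X Y).card := by
        rw [sum_const, nsmul_eq_mul, mul_comm]
    _ ≤ 5 / 2 * X.card := by
        have h : (hi adj D X Y).card ≤ X.card := card_le_card (filter_subset _ _)
        have h' : ((hi adj D X Y).card : ℝ) ≤ X.card := by exact_mod_cast h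
        linarith

lemma card_root (n : ℕ) : (List.range n).toFinset.card = n := by
  rw [List.toFinset_card_of_nodup List.nodup_range, List.length_range]

end WRT_

theorem v_WRT (h_FFF : V_FFF) : V_WRT := by
  intro R F D κ m hD hκ
  have hD0 : (0 : ℝ) < D := by exact_mod_cast hD
  refine ⟨fun s => ⟨Real.exp_pos _, ?_, fun θ => ?_⟩, fun a b hs => ?_⟩
  · unfold WF Wk
    rw [← Real.exp_add]
    congr 1
    unfold Pk SG
    ring
  · unfold WF Wk
    apply Real.exp_le_exp.mpr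
    unfold Pk SG
    have h1 : 0 ≤ (30 + 5 * (Nat.size κ : ℝ)) *
        (((s.1.toFinset.card : ℝ) + s.2.toFinset.card) / D) := by positivity
    have h2 : 0 ≤ (Sk (aj R) (aF F) D κ s.1.toFinset s.2.toFinset +
        Sk (tr (aj R)) (tr (aF F)) D κ s.2.toFinset s.1.toFinset) / D :=
      div_nonneg (add_nonneg (WRT_.Sk_nonneg h_FFF hκ _ _ _ _ _)
        (WRT_.Sk_nonneg h_FFF hκ _ _ _ _ _)) hD0.le
    linarith
  · unfold WF Wk
    apply Real.exp_le_exp.mpr
    unfold SG at hs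
    unfold Pk
    have hX := WRT_.card_root a
    have hY := WRT_.card_root b
    simp only at hs ⊢
    set X := (List.range a).toFinset with hXdef
    set Y := (List.range b).toFinset with hYdef
    have h1 : Sk (aj R) (aF F) D κ X Y ≤ 5 / 2 * a := by
      have := WRT_.Sk_le h_FFF hκ (aj R) (aF F) D X Y
      rwa [hX] at this
    have h2 : Sk (tr (aj R)) (tr (aF F)) D κ Y X ≤ 5 / 2 * b := by
      have := WRT_.Sk_le h_FFF hκ (tr (aj R)) (tr (aF F)) D Y X
      rwa [hY] at this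
    have h4 : (Sk (aj R) (aF F) D κ X Y + Sk (tr (aj R)) (tr (aF F)) D κ Y X) / D ≤
        5 / 2 * (((a : ℝ) + b) / D) := by
      rw [← mul_div_assoc]
      gcongr
      linarith
    have hsz : (1 : ℝ) ≤ Nat.size κ := by
      have h : 0 < Nat.size κ := Nat.size_pos.2 hκ
      exact_mod_cast h
    have h6 : (0 : ℝ) ≤ ((a : ℝ) + b) / D := by positivity
    have h7 : 38 * (((Nat.size κ * (a + b) : ℕ) : ℝ) / (D : ℝ)) =
        38 * (Nat.size κ : ℝ) * (((a : ℝ) + b) / D) := by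
      push_cast
      ring
    rw [h7, hX, hY]
    have h8 : (30 + 5 * (Nat.size κ : ℝ) + 5 / 2) * (((a : ℝ) + b) / D) ≤
        38 * (Nat.size κ : ℝ) * (((a : ℝ) + b) / D) := by
      gcongr
      linarith
    linarith

end Pool.Agent.BisRf
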