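import Pool.Agent.BisRf.Defs

/-!
# Targets of the project BisRf (MP_29585b_lc)

Most targets are variants of targets of `Pool.Agent.BisRt`, `Pool.Agent.BisRu` (copy the file
`BisRu/P_XXX.lean` of the same name and adapt it). In the comments `f(i, j) = 1 / D` if `fd i j` and
`0` otherwise; `r(i) = 1 - f(i, Y)` for `i ∈ X`, `r(j) = 1 - f(X, j)` for `j ∈ Y`; the inner cost of
`i` is `c(i) = cF i / D = ∑_{j ∈ N(i) ∩ Y} r(j)`, and `sg = m + f(X, Y) - |X| - |Y|`;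
`N = nb adj Y u`.
-/

set_option autoImplicit false

namespace Pool.Agent.BisRf

open Finset Pool.Agent.PT Pool.Agent.BisTh Pool.Agent.BisRg Pool.Agent.BisRt

/-- The weight of a state. -/
noncomputable def WF (R : List (List Bool)) (F : List (ℕ × ℕ)) (D κ m : ℕ) (θ : ℝ) (s : SI) : ℝ :=
  Wk (aj R) (aF F) D κ m θ s.1.toFinset s.2.toFinset

/-- The slack of a state. -/
noncomputable def SG (F : List (ℕ × ℕ)) (D m : ℕ) (s : SI) : ℝ :=
  sg (aF F) D m s.1.toFinset s.2.toFinset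

/-- `c` (side, vertex, inner cost) has maximal inner cost among all vertices of both sides with
more than `D / 5` neighbours. -/
def ChosenF (adj fd : ℕ → ℕ → Bool) (D : ℕ) (X Y : Finset ℕ) (c : Bool × ℕ × ℕ) : Prop :=
  (c.1 = false → c.2.1 ∈ hi adj D X Y ∧ c.2.2 = cF adj fd D X Y c.2.1) ∧
  (c.1 = true → c.2.1 ∈ hi (tr adj) D Y X ∧ c.2.2 = cF (tr adj) (tr fd) D Y X c.2.1) ∧
  (∀ i ∈ hi adj D X Y, cF adj fd D X Y i ≤ c.2.2) ∧
  ∀ j ∈ hi (tr adj) D Y X, cF (tr adj) (tr fd) D Y X j ≤ c.2.2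

/-- The factor for dropped states. -/
noncomputable def Mf (m D g K N : ℕ) : ℝ :=
  2 ^ m * gr g ^ N * Real.exp (-(9 / 100 * ((K : ℝ) / D)))

/-! ### Sets of vertices -/

/-- REG. Elementary. -/
def V_REG : Prop :=
  ∀ (adj fd : ℕ → ℕ → Bool) (n D κ : ℕ), FReg adj fd n D κ → FReg (tr adj) (tr fd) n D κ ∧
    ∀ Y : Finset ℕ, Y ⊆ range n → ∀ i < n, nb fd Y i ⊆ nb adj Y i ∧
      (nb fd Y i).card ≤ D ∧ (nb adj Y i).card ≤ κ * D ∧
      (nb (tr fd) Y i).card ≤ D ∧ (nb (tr adj) Y i).card ≤ κ * D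

/-- SYM. Double counting (`p_DBL` of BisRt, first part). -/
def V_SYM : Prop :=
  ∀ (adj fd : ℕ → ℕ → Bool) (D κ m : ℕ) (θ : ℝ) (X Y : Finset ℕ),
    sg fd D m X Y = sg (tr fd) D m Y X ∧
    Wk adj fd D κ m θ X Y = Wk (tr adj) (tr fd) D κ m θ Y X

/-- OUT. Removing `u` from `X`. (1): the sum over `X` loses the term of `u`, `|X|` decreases by
`1`. (2): for `j ∈ Y` the number `|nb (tr fd) X j| ≤ D` decreases by `1` if `fd u j`, else by `0`.
(3), (4): the sum over `nb (tr adj) X j` loses the term of `u` if `adj u j`. -/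
def V_OUT : Prop :=
  ∀ (adj fd : ℕ → ℕ → Bool) (n D κ m : ℕ), FReg adj fd n D κ → 1 ≤ D → ∀ X Y : Finset ℕ,
    X ⊆ range n → Y ⊆ range n → ∀ u ∈ X,
    sg fd D m (X.erase u) Y = sg fd D m X Y + (1 - ((nb fd Y u).card : ℝ) / D) ∧
    (∀ i : ℕ, cF adj fd D (X.erase u) Y i =
      cF adj fd D X Y i + (nb adj Y i ∩ nb fd Y u).card) ∧
    (∀ j : ℕ, adj u j = true → cF (tr adj) (tr fd) D Y (X.erase u) j +
      (D - (nb fd Y u).card) = cF (tr adj) (tr fd) D Y X j) ∧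
    ∀ j : ℕ, adj u j = false →
      cF (tr adj) (tr fd) D Y (X.erase u) j = cF (tr adj) (tr fd) D Y X j

/-- INN. Removing `u` from `X` and `N` from `Y`. (1): `f(X, Y)` loses `∑_{j ∈ N} f(X, j)` (the edges
of `fd` from `u` go to `N`), `|X| + |Y|` loses `1 + |N|`, so `sg` grows by
`1 + ∑_{j ∈ N} (1 - f(X, j)) = 1 + c(u)`. (2): for `j ∈ Y \ N` the vertex `u` is not adjacent to
`j`, and `nb adj Y i` is the disjoint union of `nb adj (Y \ N) i` and `ov adj Y u i`. (3): the outer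
index set does not change, `|nb fd (Y \ N) i| ≤ |nb fd Y i|`. (4): the left side is
`∑_{j ∈ N} (D - |nb (tr fd) X j|) * |nb (tr adj) X j|`. -/
def V_INN : Prop :=
  ∀ (adj fd : ℕ → ℕ → Bool) (n D κ m : ℕ), FReg adj fd n D κ → 1 ≤ D → ∀ X Y : Finset ℕ,
    X ⊆ range n → Y ⊆ range n → ∀ u ∈ X,
    sg fd D m (X.erase u) (Y \ nb adj Y u) =
      sg fd D m X Y + (1 + (cF adj fd D X Y u : ℝ) / D) ∧
    (∀ i : ℕ, cF adj fd D (X.erase u) (Y \ nb adj Y u) i +
      ∑ j ∈ ov adj Y u i, (D - (nb (tr fd) X j).card) = cF adj fd D X Y i) ∧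
    (∀ j ∈ Y \ nb adj Y u, cF (tr adj) (tr fd) D Y X j ≤
      cF (tr adj) (tr fd) D (Y \ nb adj Y u) (X.erase u) j) ∧
    ∑ i ∈ X, ∑ j ∈ ov adj Y u i, (D - (nb (tr fd) X j).card) ≤ κ * D * cF adj fd D X Y u

/-- FFF. From `T_FFF` of BisRt. (5): `e^(-6) ≤ 1 / 400`, `e^(-size κ) ≤ 2^(-size κ) ≤ 1 / κ`
(`Nat.lt_size_self`). -/
def V_FFF : Prop :=
  ∀ κ : ℕ, 1 ≤ κ →
    (∀ x : ℝ, 0 < Fk κ x) ∧ (∀ x y : ℝ, x ≤ y → Fk κ y ≤ Fk κ x) ∧
    (∀ x y : ℝ, 0 ≤ x → x ≤ y → Fk κ x - Fk κ y ≤ (y - x) / (4 * κ)) ∧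
    (∀ x y : ℝ, 0 ≤ y → y ≤ 1 →
      1 / (5 * (κ : ℝ)) * y * Real.exp (-(x / 10)) ≤ Fk κ x - Fk κ (x + y)) ∧
    Real.exp (-(6 + (Nat.size κ : ℝ))) ≤ 1 / (400 * κ) ∧ Fk κ 0 ≤ 5 / 2

/-- DPO (variant of BisRu DPO). With `r = 1 - |nb fd Y u| / D`: the first term changes by `- θ r`;
the second decreases; `hi` of the left side loses at most `u`, the costs there increase by
`|nb adj Y i ∩ nb fd Y u| / D` (V_OUT (2)): the sum on the left; on the right side the set does not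
become larger, for `j ∈ N` the cost decreases by `r` (V_OUT (3)), so this sum increases by at most
`|N| r / (4 κ) ≤ D r / 4`. Together `- θ r + r / 4 ≤ - (7 / 20) r`. -/
def V_DPO : Prop :=
  ∀ (adj fd : ℕ → ℕ → Bool) (n D κ m : ℕ), FReg adj fd n D κ → 1 ≤ D → 1 ≤ κ → ∀ θ : ℝ,
    3 / 5 ≤ θ → ∀ X Y : Finset ℕ, X ⊆ range n → Y ⊆ range n → ∀ u ∈ X,
    Pk adj fd D κ m θ (X.erase u) Y + 7 / 20 * (1 - ((nb fd Y u).card : ℝ) / D) +
      (∑ i ∈ (hi adj D X Y).erase u, (Fk κ ((cF adj fd D X Y i : ℝ) / D) -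
        Fk κ ((cF adj fd D X Y i : ℝ) / D + ((nb adj Y i ∩ nb fd Y u).card : ℝ) / D))) / D ≤
      Pk adj fd D κ m θ X Y

/-- DPI (variant of BisRu DPI), `c = c(u)`. The first term changes by `- θ (1 + c)`; the second by
`- (30 + 5 size κ) (1 + |N|) / D ≤ - (6 + size κ)` (as `5 |N| > D`). Left side: costs decrease by
`s(i) / D`, `∑ s(i) ≤ κ D cF u` (V_INN (4)), so the sum of `Fk` increases by at most
`κ D cF u / (4 κ D) = D c / 4`. Right side: the set becomes smaller and the costs do not decrease.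
Together at most `- θ (1 + c) + c / 4 - (6 + size κ)`. -/
def V_DPI : Prop :=
  ∀ (adj fd : ℕ → ℕ → Bool) (n D κ m : ℕ), FReg adj fd n D κ → 1 ≤ D → 1 ≤ κ → ∀ θ : ℝ,
    3 / 5 ≤ θ → ∀ X Y : Finset ℕ, X ⊆ range n → Y ⊆ range n → ∀ u ∈ hi adj D X Y,
    Pk adj fd D κ m θ (X.erase u) (Y \ nb adj Y u) + (6 + (Nat.size κ : ℝ)) +
      (cF adj fd D X Y u : ℝ) / D / 10 ≤ Pk adj fd D κ m θ X Y

/-- OVL (variant of BisRu OVL). Call `j ∈ Y` low if `5 |nb (tr adj) X j| ≤ D`; then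
`5 (D - |nb (tr fd) X j|) ≥ 4 D`. The number `q` of low `j ∈ N` satisfies `4 D q ≤ 5 cF u ≤ 50 g D`,
so `2 q ≤ 25 g`; as `2 |nb fd Y u| > D` the number of `j ∈ nb fd Y u` which are not low is at least
`D / 2 - 25 g / 2 ≥ D / 4`. Each of them is in `hi (tr adj) D Y X`, has cost `≤ cF u ≤ 10 g
D`, so at
most `25 g / 2` of its neighbours in `X` are low, and at least
`D / 5 - 25 g / 2 - 1 ≥ D / 10` of them are in `(hi adj D X Y).erase u`. The sum counts the pairs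
`(i, j)`, `j ∈ nb fd Y u`, `adj i j`. -/
def V_OVL : Prop :=
  ∀ (adj fd : ℕ → ℕ → Bool) (n D κ g : ℕ), FReg adj fd n D κ → 125 * g + 10 ≤ D →
    ∀ X Y : Finset ℕ, X ⊆ range n → Y ⊆ range n → ∀ u ∈ hi adj D X Y,
    cF adj fd D X Y u ≤ 10 * g * D →
    (∀ j ∈ hi (tr adj) D Y X, cF (tr adj) (tr fd) D Y X j ≤ cF adj fd D X Y u) →
    D < 2 * (nb fd Y u).card →
    D * D ≤ 40 * ∑ i ∈ (hi adj D X Y).erase u, (nb adj Y i ∩ nb fd Y u).card

/-- GAI (variant of BisRu GAI): `|nb adj Y i ∩ nb fd Y u| ≤ |nb fd Y u| ≤ D`, V_FFF (4):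
`(1 / (5 κ)) / 40 = 1 / (200 κ)`. -/
def V_GAI : Prop :=
  ∀ (adj fd : ℕ → ℕ → Bool) (n D κ : ℕ), FReg adj fd n D κ → 1 ≤ D → 1 ≤ κ →
    ∀ X Y : Finset ℕ, X ⊆ range n → Y ⊆ range n → ∀ u ∈ hi adj D X Y,
    (∀ i ∈ hi adj D X Y, cF adj fd D X Y i ≤ cF adj fd D X Y u) →
    D * D ≤ 40 * ∑ i ∈ (hi adj D X Y).erase u, (nb adj Y i ∩ nb fd Y u).card →
    1 / (200 * (κ : ℝ)) * Real.exp (-((cF adj fd D X Y u : ℝ) / D / 10)) ≤
      (∑ i ∈ (hi adj D X Y).erase u, (Fk κ ((cF adj fd D X Y i : ℝ) / D) -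
        Fk κ ((cF adj fd D X Y i : ℝ) / D + ((nb adj Y i ∩ nb fd Y u).card : ℝ) / D))) / D

/-- STP (variant of BisRu STP). Always `W(in) ≤ e^(-(6 + size κ)) e^(-c/10) W` and `W(out) ≤ W`. If
`cF u > 10 g D` then `W(in) ≤ e^(-g) W`. Otherwise, if `2 |nb fd Y u| ≤ D`: `W(out) ≤ e^(-7/40) W ≤`
`(1 - 7/80) W` (`T_FFF` (5) of BisRt) and `W(in) ≤ W / 400`; if `2 |nb fd Y u| > D`: V_OVL, V_GAI
with `q = e^(-c/10) / (200 κ)`, `e^(-q) ≤ 1 - q / 2`, `W(in) ≤ (q / 2) W` by V_FFF (5). -/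
def V_STP : Prop :=
  ∀ (adj fd : ℕ → ℕ → Bool) (n D κ m g : ℕ), FReg adj fd n D κ → 1 ≤ κ → 125 * g + 10 ≤ D →
    ∀ θ : ℝ, 3 / 5 ≤ θ → ∀ X Y : Finset ℕ, X ⊆ range n → Y ⊆ range n → ∀ u ∈ hi adj D X Y,
    (∀ i ∈ hi adj D X Y, cF adj fd D X Y i ≤ cF adj fd D X Y u) →
    (∀ j ∈ hi (tr adj) D Y X, cF (tr adj) (tr fd) D Y X j ≤ cF adj fd D X Y u) →
    Wk adj fd D κ m θ (X.erase u) Y + Wk adj fd D κ m θ (X.erase u) (Y \ nb adj Y u) ≤
      gr g * Wk adj fd D κ m θ X Y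

/-! ### States -/

/-- LNK (variant of BisRt LNK). `(gap D (range N) m).length = D - m` for `D ≤ N`. -/
def V_LNK : Prop :=
  ∀ (R : List (List Bool)) (F : List (ℕ × ℕ)) (n N D : ℕ) (s : SI), GoodS n s → D ≤ N →
    (∀ i, costL D (List.range N) R F s i = cF (aj R) (aF F) D s.1.toFinset s.2.toFinset i) ∧
    (∀ j, costR D (List.range N) R F s j =
      cF (tr (aj R)) (tr (aF F)) D s.2.toFinset s.1.toFinset j) ∧
    eF F s = ∑ i ∈ s.1.toFinset, (nb (aF F) s.2.toFinset i).card ∧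
    ∀ (K c : ℕ) (Ml : List ℕ), 1 ≤ D → (keep D K (List.range N) Ml F s = true ↔
      SG F D (Ml.length + c) s ≤ c + (K : ℝ) / D)

/-- BST (variant of BisRt BST). -/
def V_BST : Prop :=
  ∀ (R : List (List Bool)) (F : List (ℕ × ℕ)) (n N D : ℕ) (s : SI), GoodS n s → D ≤ N →
    (candsF D (List.range N) R F s = [] → Low R D s) ∧
    (candsF D (List.range N) R F s ≠ [] → ChosenF (aj R) (aF F) D s.1.toFinset s.2.toFinset
      (best (candsF D (List.range N) R F s)))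

/-- WKD (variant of BisRt WKD), and the slack does not decrease (V_OUT (1), V_INN (1)). -/
def V_WKD : Prop :=
  ∀ (R : List (List Bool)) (F : List (ℕ × ℕ)) (n D κ m g : ℕ), FReg (aj R) (aF F) n D κ →
    1 ≤ κ → 125 * g + 10 ≤ D → ∀ θ : ℝ, 3 / 5 ≤ θ → ∀ (s : SI) (c : Bool × ℕ × ℕ), GoodS n s →
    ChosenF (aj R) (aF F) D s.1.toFinset s.2.toFinset c →
    ((kids R c s).map (WF R F D κ m θ)).sum ≤ gr g * WF R F D κ m θ s ∧
    ∀ s' ∈ kids R c s, SG F D m s ≤ SG F D m s'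

/-- WRT (variant of BisRt WRT). Exponent of the initial weight: the first term is `≤ 0`; the second
`(30 + 5 size κ) (a + b) / D`; the third at most `(5/2) (a + b) / D` (V_FFF (2), (6)). -/
def V_WRT : Prop :=
  ∀ (R : List (List Bool)) (F : List (ℕ × ℕ)) (D κ m : ℕ), 1 ≤ D → 1 ≤ κ →
    (∀ s : SI, 0 < WF R F D κ m (3 / 5) s ∧
      WF R F D κ m (69 / 100) s =
        Real.exp (-(9 / 100 * SG F D m s)) * WF R F D κ m (3 / 5) s ∧
      ∀ θ : ℝ, Real.exp (-(θ * SG F D m s)) ≤ WF R F D κ m θ s) ∧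
    ∀ a b : ℕ, 0 ≤ SG F D m (List.range a, List.range b) →
      WF R F D κ m (3 / 5) (List.range a, List.range b) ≤
        Real.exp (38 * ((Nat.size κ * (a + b) : ℕ) / (D : ℝ)))

/-- LFB (variant of BisRu LFB). With `e = edges (rws R s) s.2 ≥ e_F` (T_EDG of BisRt, `fd ⊆ adj`):
`D x = D m + e_F - D sg ≤ D m + e - D sg`, `r ^ e * cnt ≤ 2 ^ x`, `r ^ D ≥ 4`, so
`cnt ^ D ≤ 2 ^ (D x) 4 ^ (-e)` and `cnt ≤ 2 ^ (m - sg)` (real exponent). -/
def V_LFB : Prop :=
  ∀ (R : List (List Bool)) (F : List (ℕ × ℕ)) (n D m : ℕ),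
    (∀ i j, aF F i j = true → aj R i j = true) → 5 ≤ D → ∀ s : SI, GoodS n s → Low R D s →
    0 ≤ SG F D m s → (cs R s : ℝ) ≤ 2 ^ m * Real.exp (-(69 / 100 * SG F D m s))

/-- LFE (variant of BisRu LFE): `tLER` of BisRg with `D`, `c = 0`, `M = m`. -/
def V_LFE : Prop :=
  ∀ (R : List (List Bool)) (F : List (ℕ × ℕ)) (n D m : ℕ),
    (∀ i j, aF F i j = true → aj R i j = true) → 1 ≤ D → ∀ s : SI, GoodS n s → Low R D s →
    0 ≤ SG F D m s → ∀ k : ℕ, 2 ^ k * (cs R s - apx (6 * k) (rws R s) s.2) ≤ 2 ^ m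

/-- CBD (variant of BisRu CBD); the slack stays `≥ 0` by V_WKD. -/
def V_CBD : Prop :=
  ∀ (R : List (List Bool)) (F : List (ℕ × ℕ)) (n N D κ m g : ℕ), FReg (aj R) (aF F) n D κ →
    1 ≤ κ → 125 * g + 10 ≤ D → D ≤ N → ∀ s : SI, GoodS n s → 0 ≤ SG F D m s →
    (cs R s : ℝ) ≤ 2 ^ m * gr g ^ (s.1.length + s.2.length) * WF R F D κ m (69 / 100) s

/-- STS (variant of BisRt STS). -/
def V_STS : Prop :=
  ∀ (R : List (List Bool)) (F : List (ℕ × ℕ)) (n N D K : ℕ) (Ml : List ℕ) (s : SI), GoodS n s →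
    D ≤ N →
    (∀ s' ∈ stepG D K (List.range N) Ml R F s, GoodS n s' ∧
      (keep D K (List.range N) Ml F s = true → keep D K (List.range N) Ml F s' = true) ∧
      (Low R D s' ∨ s'.1.length + s'.2.length < s.1.length + s.2.length)) ∧
    ((stepG D K (List.range N) Ml R F s).map (cs R)).sum ≤ cs R s ∧
    (stepG D K (List.range N) Ml R F s).length ≤ 2

/-- STW (variant of BisRu STW), `m = Ml.length + c`. A dropped child has
`SG > c + K / D ≥ K / D`. -/
def V_STW : Prop :=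
  ∀ (R : List (List Bool)) (F : List (ℕ × ℕ)) (n N D κ c g K N' : ℕ) (Ml : List ℕ),
    FReg (aj R) (aF F) n D κ → 1 ≤ κ → 125 * g + 10 ≤ D → D ≤ N → ∀ s : SI, GoodS n s →
    s.1.length + s.2.length ≤ N' → 0 ≤ SG F D (Ml.length + c) s →
    (∀ s' ∈ stepG D K (List.range N) Ml R F s, 0 ≤ SG F D (Ml.length + c) s') ∧
    ((stepG D K (List.range N) Ml R F s).map (WF R F D κ (Ml.length + c) (3 / 5))).sum ≤
      gr g * WF R F D κ (Ml.length + c) (3 / 5) s ∧
    (cs R s : ℝ) + Mf (Ml.length + c) D g K N' *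
        ((stepG D K (List.range N) Ml R F s).map (WF R F D κ (Ml.length + c) (3 / 5))).sum ≤
      ((stepG D K (List.range N) Ml R F s).map fun s' => (cs R s' : ℝ)).sum +
        Mf (Ml.length + c) D g K N' * (gr g * WF R F D κ (Ml.length + c) (3 / 5) s)

/-- RND (variant of BisRu RND), `N = a + b` rounds. A state of the list with `keep` has
`SG ≤ c + K / D`, so weight at least `e^(-(3/5) (c + K / D))`. -/
def V_RND : Prop :=
  ∀ (R : List (List Bool)) (F : List (ℕ × ℕ)) (n a b D κ c g K : ℕ) (P : Un) (Ml : List ℕ),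
    FReg (aj R) (aF F) n D κ → 1 ≤ κ → 125 * g + 10 ≤ D → D ≤ a + b → a ≤ n → b ≤ n →
    0 ≤ SG F D (Ml.length + c) (List.range a, List.range b) →
    keep D K (List.range (a + b)) Ml F (List.range a, List.range b) = true →
    gr g ^ (a + b) * Real.exp (38 * ((Nat.size κ * (a + b) : ℕ) / (D : ℝ))) *
      Real.exp (3 / 5 * (c + (K : ℝ) / D)) ≤ P.length →
    (∀ s ∈ roundsG D K P (List.range (a + b)) Ml R F [(List.range a, List.range b)],
      GoodS n s ∧ Low R D s ∧ 0 ≤ SG F D (Ml.length + c) s) ∧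
    (roundsG D K P (List.range (a + b)) Ml R F [(List.range a, List.range b)]).length ≤
      P.length ∧
    (cs R (List.range a, List.range b) : ℝ) ≤
      ((roundsG D K P (List.range (a + b)) Ml R F [(List.range a, List.range b)]).map
        fun s => (cs R s : ℝ)).sum + Mf (Ml.length + c) D g K (a + b) *
          (gr g ^ (a + b) * Real.exp (38 * ((Nat.size κ * (a + b) : ℕ) / (D : ℝ))))

/-- RLB (variant of BisRt RLB); any `n ≥ a, b` may be used for `GoodS`. -/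
def V_RLB : Prop :=
  ∀ (R : List (List Bool)) (F : List (ℕ × ℕ)) (a b D K : ℕ) (P : Un) (Ml : List ℕ), D ≤ a + b →
    ((roundsG D K P (List.range (a + b)) Ml R F [(List.range a, List.range b)]).map
      (cs R)).sum ≤ cs R (List.range a, List.range b)

/-- NUM. (1) as U_NUM (2) of BisRu (`e^(-g) ≤ 134 / D`). Let `m = size w + size t + 1`; `k
< size w`,
`σ N / D + c ≤ k`, `1 ≤ σ`, so `N / D ≤ k`, `c ≤ k`; `K / D = 3600 m`. (2): the exponent is at most
`134 k + 38 k + (3/5) k + 2160 m ≤ 2333 m`, `e^(2 m) ≤ 8^m`, `2 ^ m ≤ B ^ 2`, so at most `B ^ 7000`.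
(3): the exponent is at most `k + 134 k + 134 k + 38 k - 324 m ≤ - size t - 1`. -/
def V_NUM : Prop :=
  (∀ N D : ℕ, 135 ≤ D → gr ((D - 10) / 125) ^ N ≤ Real.exp (134 * ((N : ℝ) / D))) ∧
  ∀ N σ D c k w t : ℕ, 1 ≤ D → 1 ≤ σ → σ * N + D * c ≤ D * k → 2 ^ k ≤ w → 1 ≤ t →
    Real.exp (134 * ((N : ℝ) / D)) * Real.exp (38 * ((σ * N : ℕ) / (D : ℝ))) *
      Real.exp (3 / 5 * (c + ((D * (3600 * (Nat.size w + Nat.size t + 1)) : ℕ) : ℝ) / D)) ≤
      (((2 * w + 2 * t + 3) ^ 7000 : ℕ) : ℝ) ∧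
    2 * (t : ℝ) * (2 ^ c * Real.exp (134 * ((N : ℝ) / D)) *
      Real.exp (-(9 / 100 * (((D * (3600 * (Nat.size w + Nat.size t + 1)) : ℕ) : ℝ) / D))) *
      (Real.exp (134 * ((N : ℝ) / D)) * Real.exp (38 * ((σ * N : ℕ) / (D : ℝ))))) ≤ 1

/-! ### Maximum `D`-matchings -/

/-- A `D`-matching in `E`. -/
def IsM (D : ℕ) (E F : List (ℕ × ℕ)) : Prop :=
  F.Nodup ∧ (∀ e ∈ F, e ∈ E) ∧ (∀ i, dL F i ≤ D) ∧ ∀ j, dR F j ≤ D

/-- A good record, relative to a set `S` of right vertices: the exchange gives a `D`-matching of the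
same size, with the same left degrees, with less than `D` edges at the vertex of the record, and
changes only edges at vertices of `S`. -/
def GoodRec (D : ℕ) (E F : List (ℕ × ℕ)) (S : List ℕ) (z : Rec) : Prop :=
  z.1 ∈ S ∧ IsM D E (exch F z) ∧ (exch F z).length = F.length ∧
  (∀ i, dL (exch F z) i = dL F i) ∧ dR (exch F z) z.1 < D ∧
  (∀ j, j ∉ S → dR (exch F z) j = dR F j) ∧
  (∀ e ∈ z.2.1, e ∈ F ∧ e.2 ∈ S) ∧ ∀ e ∈ z.2.2, e ∉ F ∧ e.2 ∈ S ∧ e.2 ≠ z.1

/-- PTH. One more exchange. Up to order `exch F z'` for the new record `z'` is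
`(e.1, z.1) :: (exch F z).erase e`: `e` is in `exch F z` (`e ∈ F`, not removed as `e.2 ∉ S`) and not
added; `(e.1, z.1)` is not in `F` and not added (`e.2 ≠ z.1` for added edges). -/
def V_PTH : Prop :=
  ∀ (D : ℕ) (E F : List (ℕ × ℕ)) (S : List ℕ) (z : Rec) (e : ℕ × ℕ), IsM D E F →
    GoodRec D E F S z → e ∈ F → e.2 ∉ S → (e.1, z.1) ∈ E → (e.1, z.1) ∉ F →
    GoodRec D E F (e.2 :: S) (e.2, e :: z.2.1, (e.1, z.1) :: z.2.2)

/-- ZST. The records (`J` the list of all right vertices). (1) by induction along the fold with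
V_PTH (`GoodRec` is monotone in `S`; base: `exch F (j, [], []) = F`). (3): a step with
`newr ≠ []` adds a record for a new vertex of `J`; if `newr = []` at some step then it stays so;
otherwise after `J.length` steps all of `J` occurs. -/
def V_ZST : Prop :=
  ∀ (D : ℕ) (E F : List (ℕ × ℕ)) (J : List ℕ), J.Nodup → IsM D E F → (∀ e ∈ E, e.2 ∈ J) →
    (∀ z ∈ zs D E F J, GoodRec D E F ((zs D E F J).map Prod.fst) z ∧ z.1 ∈ J) ∧
    (∀ j ∈ J, dR F j < D → ∃ z ∈ zs D E F J, z.1 = j) ∧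
    ∀ e ∈ F, ∀ z ∈ zs D E F J, (e.1, z.1) ∈ E → (e.1, z.1) ∉ F → ∃ z' ∈ zs D E F J, z'.1 = e.2

/-- AUG. An augmentation: `e :: exch F z` with `e = (i, z.1)`, `e ∉ F`, `e` not added
(`GoodRec`), `dL F i < D`, `dR (exch F z) z.1 < D`. -/
def V_AUG : Prop :=
  ∀ (D : ℕ) (E F : List (ℕ × ℕ)) (J : List ℕ), J.Nodup → IsM D E F → (∀ e ∈ E, e.2 ∈ J) →
    ∀ F' ∈ aug D E F (zs D E F J), IsM D E F' ∧ F'.length = F.length + 1

/-- CUT. No augmentation. Let `Z` be the set of the right vertices of the records, `A` the set of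
left vertices `i < a` with an edge `(i, j)` of `E`, not in `F`, `j ∈ Z`. No augmentation:
`dL F i = D` for `i ∈ A`. V_ZST (3): all edges of `F` at `i ∈ A` end in `Z`. V_ZST (2):
`dR F j = D` for `j ∉ Z`. So `|F| = D |A| + D (b - |Z|) + |F ∩ (A^c × Z)|`, and for `i ∉ A`
all edges
`(i, j)`, `j ∈ Z`, are in `F`, so the last number is the number of edges between `A^c` and `Z`.
Apply `Cond` to the rows of `A^c` and the sublist `Z` of `range b`. -/
def V_CUT : Prop :=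
  ∀ (D c : ℕ) (B : Un) (R : List (List Bool)) (F : List (ℕ × ℕ)),
    (∀ u ∈ R, u.length = B.length) → IsM D (edgesL B R) F →
    aug D (edgesL B R) F (zs D (edgesL B R) F (List.range B.length)) = [] → Cond D c B R →
    D * (R.length + B.length) ≤ F.length + D * (max R.length B.length + c)

/-- MXM. After `|E|` steps there is no augmentation (a step with an augmentation increases the
length, which is at most `|E|`; if `F.length = |E|` then every edge is in `F`). Last part: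
`eF` of the initial state is `F.length`, at most `D * min a b`. -/
def V_MXM : Prop :=
  ∀ (D : ℕ) (B : Un) (R : List (List Bool)), (∀ u ∈ R, u.length = B.length) →
    IsM D (edgesL B R) (maxM D B R) ∧
    (∀ c : ℕ, Cond D c B R →
      D * (R.length + B.length) ≤ (maxM D B R).length + D * (max R.length B.length + c)) ∧
    eF (maxM D B R) (List.range R.length, List.range B.length) = (maxM D B R).length ∧
    (maxM D B R).length + D * max R.length B.length ≤ D * (R.length + B.length)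

/-! ### The algorithm -/

/-- FRG. `FReg` for the matching of the algorithm, `n = max a b` (`aj R i j = true` implies
`i < a`, `j < b`; `(nb (aF F) (range n) i).card = dL F i` etc. as `F` has no duplicates). -/
def V_FRG : Prop :=
  ∀ (D κ : ℕ) (B : Un) (R : List (List Bool)), (∀ u ∈ R, u.length = B.length) →
    (∀ i < R.length, (nb (aj R) (range B.length) i).card ≤ κ * D) →
    (∀ j < B.length, (nb (tr (aj R)) (range R.length) j).card ≤ κ * D) →
    FReg (aj R) (aF (maxM D B R)) (max R.length B.length) D κ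

/-- ERR (variant of BisRu ERR), `g = (D - 10) / 125`, `N = a + b`, `M = max a b`. The slack of the
initial state is `≥ 0` by V_MXM (2), `keep` holds by V_MXM (4). Lower bound for all `D ≤ a + b` by
V_RLB, `apx_le`. -/
def V_ERR : Prop :=
  (∀ (D : ℕ) (W T B : Un) (R : List (List Bool)), D ≤ R.length + B.length →
    algGD D W T B R ≤ cs R (List.range R.length, List.range B.length)) ∧
  ∀ (D c κ k : ℕ) (W T B : Un) (R : List (List Bool)), (∀ u ∈ R, u.length = B.length) →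
    135 ≤ D → D ≤ R.length + B.length → 1 ≤ κ → Cond D c B R →
    (∀ i < R.length, (nb (aj R) (range B.length) i).card ≤ κ * D) →
    (∀ j < B.length, (nb (tr (aj R)) (range R.length) j).card ≤ κ * D) →
    Nat.size κ * (R.length + B.length) + D * c ≤ D * k → 2 ^ k ≤ W.length →
    T.length * (cs R (List.range R.length, List.range B.length) - algGD D W T B R) ≤
      2 ^ max R.length B.length

/-- ALT. The whole algorithm. Lower bound: V_ERR (1) and `tALW` (1) of BisRg (`maxL` is a maximum).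
Error: if `D < 135` then `a + b ≤ 134 k`, and `tALW` with `D = 1`, `c = min a b` and
`W' = pw 135 W`, `2 ^ a, 2 ^ b ≤ w ^ 135` (`Sub m r ≤ 2 ^ m`; compare `BisRu/P_BRU.lean`). If
`135 ≤ D ≤ a + b`: V_ERR. If `D > a + b ≥ 135`: V_ERR with `D' = a + b`, `κ' = 1`, `c`, `k`
(`Cond D c` implies `Cond D' c`; from `1 ≤ size κ * (a + b) ≤ D (k - c)` follows `c + 1 ≤ k`). If
`a + b < 135`, `D ≥ 135` and `a + b ≥ 1`: again `c + 1 ≤ k`, so `a + b ≤ 134 k`. Finally
`2 ^ max a b ≤ cnt R (range b)`. -/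
def V_ALT : Prop :=
  (∀ (W T B : Un) (R : List (List Bool)), algH W T B R ≤ cnt R (List.range B.length)) ∧
  ∀ (D c κ k : ℕ) (W T B : Un) (R : List (List Bool)), (∀ u ∈ R, u.length = B.length) →
    1 ≤ D → 1 ≤ κ → Cond D c B R →
    (∀ i < R.length, (nb (aj R) (range B.length) i).card ≤ κ * D) →
    (∀ j < B.length, (nb (tr (aj R)) (range R.length) j).card ≤ κ * D) →
    Nat.size κ * (R.length + B.length) + D * c ≤ D * k → 2 ^ k ≤ W.length →
    T.length * (cnt R (List.range B.length) - algH W T B R) ≤ cnt R (List.range B.length)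

/-- GRA. Degrees of graphs and rows (compare `BisRu/P_GRA.lean`). -/
def V_GRA : Prop :=
  ∀ (G : Bip) (q : ℕ), ((∀ i, G.degL i ≤ q) →
      ∀ i < G.a, (nb (aj (rowsOf G)) (range G.b) i).card ≤ q) ∧
    ((∀ j, G.degR j ≤ q) → ∀ j < G.b, (nb (tr (aj (rowsOf G))) (range G.a) j).card ≤ q)

/-! ### Polynomial time -/

/-- PTM. The maximum matching in polynomial time. All folds have intermediate values of bounded
size: the records of `zs` have at most `J.length` removed and added edges each and there are at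
most `2 J.length` of them; `fstep` gives lists of at most `F.length + 1` edges of `E` (state the
bounds for arbitrary lists: sizes of members are at most the sizes of `E`, `F`, `J`). -/
def V_PTM : Prop :=
  Fact Core → PolyF (fun x : ℕ × Un × List (List Bool) => maxM x.1 x.2.1 x.2.2)

/-- Input of one step. -/
abbrev InG : Type := ℕ × List ℕ × List (List Bool) × List (ℕ × ℕ) × SI

/-- PTC (variant of BisRt PTC). -/
def V_PTC : Prop :=
  Fact Core →
    PolyF (fun x : InG => candsF x.1 x.2.1 x.2.2.1 x.2.2.2.1 x.2.2.2.2) ∧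
    PolyF (fun x : (ℕ × ℕ) × List ℕ × List ℕ × List (ℕ × ℕ) × SI =>
      keep x.1.1 x.1.2 x.2.1 x.2.2.1 x.2.2.2.1 x.2.2.2.2)

/-- PTS (variant of BisRt PTS). -/
def V_PTS : Prop :=
  (Fact Core → PolyF (fun x : (ℕ × ℕ) × List ℕ × List ℕ × List (List Bool) × List (ℕ × ℕ) × SI =>
    stepG x.1.1 x.1.2 x.2.1 x.2.2.1 x.2.2.2.1 x.2.2.2.2.1 x.2.2.2.2.2)) ∧
  ∀ (D K : ℕ) (V Ml : List ℕ) (R : List (List Bool)) (F : List (ℕ × ℕ)) (s : SI),
    (stepG D K V Ml R F s).length ≤ 2 ∧ ∀ s' ∈ stepG D K V Ml R F s, sz s' ≤ sz s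

/-- PTR (variant of BisRt PTR). -/
def V_PTR : Prop :=
  Fact Core → PolyF (fun x : (ℕ × ℕ) × Un × List ℕ × List ℕ × List (List Bool) ×
      List (ℕ × ℕ) × SI =>
    roundsG x.1.1 x.1.2 x.2.1 x.2.2.1 x.2.2.2.1 x.2.2.2.2.1 x.2.2.2.2.2.1 [x.2.2.2.2.2.2])

/-- PTA (variant of BisRu PTA). -/
def V_PTA : Prop :=
  Fact Core → PolyF (fun x : ℕ × Un × Un × Un × List (List Bool) =>
    algGD x.1 x.2.1 x.2.2.1 x.2.2.2.1 x.2.2.2.2)

/-- PTX (variant of BisRu PTX; use `attribute [local irreducible] pw` etc. as there). -/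
def V_PTX : Prop :=
  Fact Core → PolyF (fun x : In₂ => algH x.1 x.2.1 x.2.2.1 x.2.2.2)

/-- S10. The machine for `algH`, see `BisRu/P_ST8.lean`, `BisRg/P_ST1.lean`; `p_DUL` of BisRg gives
`Cond` from `SpreadMatching`. -/
def V_S10 : Prop := Statement10

end Pool.Agent.BisRf
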